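import Mathlib

/-!
Row A6: sectors of the plane. Let `ζ = exp (2 π i / p)`. Divide the circle into `2 p` half open
sectors of angle `π / p`, with the numbers `a : ℤ` modulo `2 p`; `a = 2 k` or `a = 2 k + 1` gives
the label `(k, true)` or `(k, false)`.
-/

namespace LW

open Complex

/-- `exp (2 π i / p)` -/
noncomputable def zeta (p : ℕ) : ℂ := Complex.exp (2 * Real.pi * Complex.I / p)

private theorem A6_shift (p : ℕ) (hp : 0 < p) (θ θ' : ℝ) (n : ℤ) (h : θ' - θ = 2 * Real.pi * n) :
    ⌊θ' * p / Real.pi⌋ = ⌊θ * p / Real.pi⌋ + 2 * p * n := by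
  have e : θ' * p / Real.pi = θ * p / Real.pi + ((2 * p * n : ℤ) : ℝ) := by
    have : θ' = θ + 2 * Real.pi * n := by linarith
    rw [this]
    have := Real.pi_ne_zero
    push_cast
    field_simp
  rw [e, Int.floor_add_intCast]

private theorem A6_div (p : ℕ) (a n : ℤ) :
    (((a + 2 * p * n) / 2 : ℤ) : ZMod p) = ((a / 2 : ℤ) : ZMod p) := by
  have : (a + 2 * p * n) / 2 = a / 2 + p * n := by
    rw [mul_assoc, Int.add_mul_ediv_left _ _ (by norm_num)]
  rw [this]
  simp

theorem exists_sector (p : ℕ) (hp : p.Prime) (h2 : p ≠ 2) :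
    ∃ sec : ℂ → ZMod p × Bool,
      (∀ z : ℂ, z ≠ 0 → sec (zeta p * z) = ((sec z).1 + 1, (sec z).2)) ∧
      ∀ δ : ℝ, 0 < δ → ∃ η : ℝ, 0 < η ∧ ∀ z z' : ℂ, δ ≤ ‖z‖ → δ ≤ ‖z'‖ → ‖z - z'‖ < η →
        (sec z).2 = (sec z').2 → (sec z).1 = (sec z').1 := by
  have hp0 : 0 < p := hp.pos
  have hpr : (0 : ℝ) < p := by exact_mod_cast hp0
  have hpi := Real.pi_pos
  refine ⟨fun z => (((⌊arg z * p / Real.pi⌋ / 2 : ℤ) : ZMod p),
    decide (⌊arg z * p / Real.pi⌋ % 2 = 0)), ?_, ?_⟩
  · intro z hz
    have hz1 : zeta p ≠ 0 := Complex.exp_ne_zero _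
    have h1 : (arg (zeta p * z) : Real.Angle) = ((2 * Real.pi / p + arg z : ℝ) : Real.Angle) := by
      rw [Complex.arg_mul_coe_angle hz1 hz, Real.Angle.coe_add]
      congr 1
      have : zeta p = Complex.exp (((2 * Real.pi / p : ℝ) : ℂ) * I) := by
        unfold zeta
        congr 1
        push_cast
        ring
      rw [this, Complex.exp_mul_I]
      have h := Complex.arg_cos_add_sin_mul_I_coe_angle ((2 * Real.pi / p : ℝ) : Real.Angle)
      rw [Real.Angle.cos_coe, Real.Angle.sin_coe, Complex.ofReal_cos, Complex.ofReal_sin] at h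
      exact h
    rw [Real.Angle.angle_eq_iff_two_pi_dvd_sub] at h1
    obtain ⟨n, hn⟩ := h1
    have h3 := A6_shift p hp0 _ _ n hn
    have h4 : ⌊(2 * Real.pi / p + arg z) * p / Real.pi⌋ = ⌊arg z * p / Real.pi⌋ + 2 := by
      have : (2 * Real.pi / p + arg z) * p / Real.pi = arg z * p / Real.pi + ((2 : ℤ) : ℝ) := by
        have := Real.pi_ne_zero
        push_cast
        field_simp
        ring
      rw [this, Int.floor_add_intCast]
    rw [h4] at h3
    simp only [h3]
    refine Prod.ext ?_ ?_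
    · simp only
      rw [A6_div]
      have : (⌊arg z * p / Real.pi⌋ + 2) / 2 = ⌊arg z * p / Real.pi⌋ / 2 + 1 := by omega
      rw [this]
      push_cast
      rfl
    · simp only
      congr 1
      rw [mul_assoc]
      apply propext
      constructor <;> intro h <;> omega
  · intro δ hδ
    have hcont : ContinuousAt arg (1 : ℂ) := Complex.continuousAt_arg Complex.one_mem_slitPlane
    rw [Metric.continuousAt_iff] at hcont
    obtain ⟨ε, hε, hε'⟩ := hcont (Real.pi / p) (by positivity)
    refine ⟨ε * δ, by positivity, ?_⟩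
    intro z z' hz hz' hzz hb
    have hz0 : z ≠ 0 := by
      intro h
      rw [h, norm_zero] at hz
      linarith
    have hz0' : z' ≠ 0 := by
      intro h
      rw [h, norm_zero] at hz'
      linarith
    have hw0 : z' / z ≠ 0 := div_ne_zero hz0' hz0
    have hd : dist (z' / z) 1 < ε := by
      rw [Complex.dist_eq]
      have : z' / z - 1 = (z' - z) / z := by field_simp
      rw [this, norm_div, div_lt_iff₀ (by positivity), norm_sub_rev]
      calc ‖z - z'‖ < ε * δ := hzz
        _ ≤ ε * ‖z‖ := by gcongr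
    have h1 := hε' hd
    rw [Complex.arg_one, Real.dist_eq, sub_zero] at h1
    have h5 : (arg z' : Real.Angle) = ((arg z + arg (z' / z) : ℝ) : Real.Angle) := by
      rw [Real.Angle.coe_add, ← Complex.arg_mul_coe_angle hz0 hw0]
      congr 2
      field_simp
    rw [Real.Angle.angle_eq_iff_two_pi_dvd_sub] at h5
    obtain ⟨n, hn⟩ := h5
    have h3 := A6_shift p hp0 _ _ n hn
    set a := ⌊arg z * p / Real.pi⌋ with ha
    set a'' := ⌊(arg z + arg (z' / z)) * p / Real.pi⌋ with ha''
    have hlt : |arg (z' / z) * p / Real.pi| < 1 := by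
      rw [abs_div, abs_mul, abs_of_pos hpr, abs_of_pos hpi, div_lt_one hpi]
      calc |arg (z' / z)| * p < Real.pi / p * p := by gcongr
        _ = Real.pi := by field_simp
    have hsum : (arg z + arg (z' / z)) * p / Real.pi =
        arg z * p / Real.pi + arg (z' / z) * p / Real.pi := by ring
    rw [abs_lt] at hlt
    have ha1 := Int.floor_le (arg z * p / Real.pi)
    have ha2 := Int.lt_floor_add_one (arg z * p / Real.pi)
    have hb1 := Int.floor_le ((arg z + arg (z' / z)) * p / Real.pi)
    have hb2 := Int.lt_floor_add_one ((arg z + arg (z' / z)) * p / Real.pi)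
    rw [← ha] at ha1 ha2
    rw [← ha''] at hb1 hb2
    have hc1 : a < a'' + 2 := by
      have : (a : ℝ) < ((a'' + 2 : ℤ) : ℝ) := by push_cast; linarith [hlt.1]
      exact_mod_cast this
    have hc2 : a'' < a + 2 := by
      have : (a'' : ℝ) < ((a + 2 : ℤ) : ℝ) := by push_cast; linarith [hlt.2]
      exact_mod_cast this
    simp only [h3] at hb ⊢
    rw [A6_div]
    have hb' : (a % 2 = 0) ↔ ((a'' + 2 * p * n) % 2 = 0) := by
      rw [Bool.eq_iff_iff] at hb
      simpa using hb
    rw [mul_assoc] at hb'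
    have : a = a'' := by omega
    rw [← ha, this]

end LW
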