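import Pool.Agent.Lib.LW.ChE
import Pool.Agent.Lib.LW.Sec

/-!
Row A7: the circle Borsuk-Ulam theorem.
Proof. Suppose that there is no zero. Let `M = card J` (if `M = 0`
take `v = 1`). Let `p` be an odd prime larger than all `|w j|`, `ζ = zeta p`, `T` = multiplication by
`ζ` on `ι → ℂ`, `m = 2 M`, `pt j` = the unit vector with index `j / 2` (`j ≤ 2 M`, so
`j / 2 ≤ M < card ι`),
`Q` = union over all `g` of the convex hulls of the points `ζ^(g j) pt j`. `Q` is compact,
and `0 ∉ Q` (a linear form is positive on the vertices, since `ζ^(b-a) ≠ -1`, `p` odd). On `Q` the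
maximum of the `‖G j x‖` is positive, so at least `δ > 0` (compactness). Label: `l` = an
index with `‖G l x‖ = max`; `(k, b) = sec (G l x)`; `lam x = ((w l)⁻¹ k, (l, b))`, with
`J × Bool` identified with `Fin (2 M)`. Since `G l (T x) = ζ^(w l) G l x` the sign increases by
`(w l)⁻¹ (w l) = 1`, and `l`, `b` do not change. `hsep`: uniform continuity of `G l` on `Q` and
`exists_sector`.
-/

namespace LW

private theorem A7_zeta_pow (p : ℕ) (hp : p.Prime) : zeta p ^ p = 1 :=
  (Complex.isPrimitiveRoot_exp p hp.ne_zero).pow_eq_one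

private theorem A7_zeta_norm (p : ℕ) (hp : p.Prime) : ‖zeta p‖ = 1 :=
  Complex.norm_eq_one_of_pow_eq_one (A7_zeta_pow p hp) hp.ne_zero

private theorem A7_re (p : ℕ) (hp : p.Prime) (h2 : p ≠ 2) (a b : ℕ) :
    -1 < (zeta p ^ a * (starRingEnd ℂ) (zeta p ^ b)).re := by
  set u : ℂ := zeta p ^ a * (starRingEnd ℂ) (zeta p ^ b) with hu
  have hn : ‖u‖ = 1 := by
    rw [hu, norm_mul, RCLike.norm_conj, norm_pow, norm_pow, A7_zeta_norm p hp]
    simp
  have hup : u ^ p = 1 := by
    rw [hu, mul_pow, ← map_pow, ← pow_mul, ← pow_mul, mul_comm a, mul_comm b, pow_mul, pow_mul,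
      A7_zeta_pow p hp]
    simp
  by_contra hcon
  push Not at hcon
  have h1 : u.re ^ 2 + u.im ^ 2 = 1 := by
    have := Complex.sq_norm u
    rw [hn, Complex.normSq_apply] at this
    nlinarith
  have h3 : u.im = 0 := by nlinarith [sq_nonneg u.im]
  have h4 : u.re = -1 := by
    have : -1 ≤ u.re := by nlinarith
    linarith
  have h5 : u = -1 := Complex.ext (by simp [h4]) (by simp [h3])
  rw [h5, Odd.neg_one_pow (hp.odd_of_ne_two h2)] at hup
  norm_num at hup

private theorem A7_sec (p : ℕ) (sec : ℂ → ZMod p × Bool)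
    (h : ∀ z : ℂ, z ≠ 0 → sec (zeta p * z) = ((sec z).1 + 1, (sec z).2)) (n : ℤ) (z : ℂ)
    (hz : z ≠ 0) : sec (zeta p ^ n * z) = ((sec z).1 + n, (sec z).2) := by
  have h0 : zeta p ≠ 0 := Complex.exp_ne_zero _
  induction n with
  | zero => simp
  | succ n ih =>
    rw [zpow_add_one₀ h0, mul_comm (zeta p ^ (n : ℤ)), mul_assoc, h _ (by positivity), ih]
    push_cast
    rw [add_assoc]
  | pred n ih =>
    have h1 := h (zeta p ^ (-(n : ℤ) - 1) * z) (mul_ne_zero (zpow_ne_zero _ h0) hz)
    rw [← mul_assoc, mul_comm (zeta p), ← zpow_add_one₀ h0, sub_add_cancel, ih] at h1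
    rw [Prod.ext_iff] at h1 ⊢
    obtain ⟨h2, h3⟩ := h1
    refine ⟨?_, h3.symm⟩
    simp only at h2 ⊢
    push_cast at h2 ⊢
    linear_combination -h2

theorem circle_BU {ι J : Type} [Fintype ι] [Fintype J]
    (h : Fintype.card J < Fintype.card ι) (G : J → (ι → ℂ) → ℂ) (hc : ∀ j, Continuous (G j))
    (w : J → ℤ) (hw : ∀ j, w j ≠ 0)
    (hG : ∀ j v (u : ℂ), ‖u‖ = 1 → G j (fun k => u * v k) = u ^ w j * G j v) :
    ∃ v, v ≠ 0 ∧ ∀ j, G j v = 0 := by
  classical
  rcases isEmpty_or_nonempty J with hJ | hJ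
  · have : Nonempty ι := Fintype.card_pos_iff.1 (by omega)
    exact ⟨1, one_ne_zero, fun j => (IsEmpty.false j).elim⟩
  by_contra hcon
  push Not at hcon
  obtain ⟨p, hpn, hp⟩ := Nat.exists_infinite_primes (3 + ∑ j, (w j).natAbs)
  have hp2 : p ≠ 2 := by omega
  have : Fact p.Prime := ⟨hp⟩
  have hwp : ∀ j, ((w j : ℤ) : ZMod p) ≠ 0 := by
    intro j hj
    rw [ZMod.intCast_zmod_eq_zero_iff_dvd] at hj
    have h1 := Int.natAbs_dvd_natAbs.2 hj
    have h2 := Nat.le_of_dvd (Int.natAbs_pos.2 (hw j)) h1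
    have h3 : (w j).natAbs ≤ ∑ j, (w j).natAbs :=
      Finset.single_le_sum (f := fun j => (w j).natAbs) (fun _ _ => Nat.zero_le _)
        (Finset.mem_univ j)
    simp at h2
    omega
  obtain ⟨sec, hs1, hs2⟩ := exists_sector p hp hp2
  set M := Fintype.card J with hM
  obtain ⟨e⟩ : Nonempty (Fin (M + 1) ↪ ι) := by
    rw [Function.Embedding.nonempty_iff_card_le]
    simp
    omega
  have eJ : J × Bool ≃ Fin (2 * M) := Fintype.equivFinOfCardEq (by simp [hM, mul_comm])
  let q : Fin (2 * M + 1) → ι := fun j => e ⟨(j : ℕ) / 2, by omega⟩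
  let T : (ι → ℂ) →ₗ[ℝ] (ι → ℂ) :=
    { toFun := fun v k => zeta p * v k
      map_add' := fun x y => by
        funext k
        simp [mul_add]
      map_smul' := fun r x => by
        funext k
        simp
        ring }
  have hTa : ∀ v k, T v k = zeta p * v k := fun v k => rfl
  have hTi : ∀ (n : ℕ) (v : ι → ℂ) (k : ι), T^[n] v k = zeta p ^ n * v k := by
    intro n
    induction n with
    | zero => intro v k; simp
    | succ n ih =>
      intro v k
      rw [Function.iterate_succ_apply', hTa, ih, pow_succ]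
      ring
  let pt : Fin (2 * M + 1) → ι → ℂ := fun j => Pi.single (q j) 1
  let Q : Set (ι → ℂ) := ⋃ g : Fin (2 * M + 1) → ZMod p,
    convexHull ℝ (Set.range fun j => T^[(g j).val] (pt j))
  have hQc : IsCompact Q := isCompact_iUnion fun g => Set.Finite.isCompact_convexHull (𝕜 := ℝ) (Set.finite_range _)
  have hQ0 : ∀ x ∈ Q, x ≠ 0 := by
    intro x hx hx0
    rw [Set.mem_iUnion] at hx
    obtain ⟨g, hg⟩ := hx
    let Φ : (ι → ℂ) →ₗ[ℝ] ℝ :=
      { toFun := fun x => ∑ j, (x (q j) * (starRingEnd ℂ) (zeta p ^ (g j).val)).re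
        map_add' := fun x y => by
          rw [← Finset.sum_add_distrib]
          refine Finset.sum_congr rfl fun j _ => ?_
          rw [Pi.add_apply, add_mul, Complex.add_re]
        map_smul' := fun r x => by
          rw [RingHom.id_apply, smul_eq_mul, Finset.mul_sum]
          refine Finset.sum_congr rfl fun j _ => ?_
          rw [Pi.smul_apply, smul_mul_assoc, Complex.smul_re, smul_eq_mul] }
    have hΦ : ∀ x, Φ x = ∑ j, (x (q j) * (starRingEnd ℂ) (zeta p ^ (g j).val)).re := fun _ => rfl
    have hsub : convexHull ℝ (Set.range fun j => T^[(g j).val] (pt j)) ⊆ {x | 0 < Φ x} := by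
      apply convexHull_min
      · rintro _ ⟨i, rfl⟩
        simp only [Set.mem_ofPred_eq]
        rw [hΦ]
        have h1 : ∀ j, (T^[(g i).val] (pt i) (q j) * (starRingEnd ℂ) (zeta p ^ (g j).val)).re =
            if q j = q i then (zeta p ^ (g i).val * (starRingEnd ℂ) (zeta p ^ (g j).val)).re
            else 0 := by
          intro j
          rw [hTi]
          split_ifs with hji
          · simp [pt, hji]
          · simp [pt, hji]
        rw [Finset.sum_congr rfl fun j _ => h1 j, ← Finset.sum_filter]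
        have hi : i ∈ Finset.univ.filter fun j => q j = q i := by simp
        rw [← Finset.add_sum_erase _ _ hi]
        have hii : (zeta p ^ (g i).val * (starRingEnd ℂ) (zeta p ^ (g i).val)).re = 1 := by
          rw [Complex.mul_conj, Complex.ofReal_re, Complex.normSq_eq_norm_sq, norm_pow,
            A7_zeta_norm p hp]
          simp
        rw [hii]
        have hcard : (((Finset.univ.filter fun j => q j = q i)).erase i).card ≤ 1 := by
          rw [Finset.card_le_one]
          intro a ha b hb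
          simp only [Finset.mem_erase, Finset.mem_filter, Finset.mem_univ, true_and] at ha hb
          have ha' := congrArg Fin.val (e.injective ha.2)
          have hb' := congrArg Fin.val (e.injective hb.2)
          simp only at ha' hb'
          have ha1 : (a : ℕ) ≠ i := fun h => ha.1 (Fin.ext h)
          have hb1 : (b : ℕ) ≠ i := fun h => hb.1 (Fin.ext h)
          apply Fin.ext
          omega
        rcases Nat.le_one_iff_eq_zero_or_eq_one.1 hcard with h0 | h0
        · rw [Finset.card_eq_zero] at h0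
          rw [h0]
          norm_num
        · rw [Finset.card_eq_one] at h0
          obtain ⟨a, ha⟩ := h0
          rw [ha, Finset.sum_singleton]
          linarith [A7_re p hp hp2 (g i).val (g a).val]
      · exact convex_halfSpace_gt Φ.isLinear 0
    have := hsub hg
    rw [hx0] at this
    simp at this
  have hF : Continuous fun x : ι → ℂ => fun j => G j x := continuous_pi hc
  obtain ⟨δ, hδ, hδ'⟩ : ∃ δ : ℝ, 0 < δ ∧ ∀ x ∈ Q, δ ≤ ‖fun j => G j x‖ := by
    rcases Q.eq_empty_or_nonempty with hQe | hQe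
    · exact ⟨1, one_pos, fun x hx => by rw [hQe] at hx; exact hx.elim⟩
    · obtain ⟨x, hx, hx'⟩ := hQc.exists_isMinOn hQe (hF.norm.continuousOn)
      refine ⟨‖fun j => G j x‖, ?_, fun y hy => hx' hy⟩
      rw [norm_pos_iff]
      intro h0
      obtain ⟨j, hj⟩ := hcon x (hQ0 x hx)
      exact hj (congrFun h0 j)
  have hmax : ∀ a : J → ℝ, ∃ i, ∀ j, a j ≤ a i := fun a => Finite.exists_max a
  choose L hL using hmax
  let l : (ι → ℂ) → J := fun x => L fun j => ‖G j x‖
  have hl : ∀ x ∈ Q, δ ≤ ‖G (l x) x‖ := by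
    intro x hx
    refine (hδ' x hx).trans ?_
    rw [pi_norm_le_iff_of_nonneg (norm_nonneg _)]
    exact fun j => hL (fun j => ‖G j x‖) j
  obtain ⟨η, hη, hη'⟩ := hs2 δ hδ
  have hu := hQc.uniformContinuousOn_of_continuous hF.continuousOn
  rw [Metric.uniformContinuousOn_iff] at hu
  obtain ⟨ε, hε, hε'⟩ := hu η hη
  refine tucker (2 * M) p T ?_ pt Q ?_
    (fun x => (((w (l x) : ℤ) : ZMod p)⁻¹ * (sec (G (l x) x)).1,
      eJ (l x, (sec (G (l x) x)).2))) ?_ ε hε ?_
  · intro x
    funext k
    rw [hTi, A7_zeta_pow p hp, one_mul]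
  · intro g
    exact Set.subset_iUnion (fun g : Fin (2 * M + 1) → ZMod p =>
      convexHull ℝ (Set.range fun j => T^[(g j).val] (pt j))) g
  · intro x hx
    have hTx : ∀ j, G j (T x) = zeta p ^ w j * G j x := fun j =>
      hG j x (zeta p) (A7_zeta_norm p hp)
    have hlT : l (T x) = l x := by
      simp only [l]
      congr 1
      funext j
      rw [hTx, norm_mul, norm_zpow, A7_zeta_norm p hp]
      simp
    have hne : G (l x) x ≠ 0 := by
      intro h0
      have := hl x hx
      rw [h0, norm_zero] at this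
      linarith
    simp only [hlT, hTx, A7_sec p sec hs1 _ _ hne]
    refine Prod.ext ?_ rfl
    simp only
    rw [mul_add, inv_mul_cancel₀ (hwp _)]
  · intro x hx y hy hxy h2
    simp only at h2 ⊢
    have h3 := eJ.injective h2
    rw [Prod.ext_iff] at h3
    obtain ⟨h4, h5⟩ := h3
    simp only at h4 h5
    have h6 : dist (G (l x) x) (G (l x) y) < η :=
      lt_of_le_of_lt (dist_le_pi_dist (fun j => G j x) (fun j => G j y) (l x)) (hε' x hx y hy hxy)
    rw [dist_eq_norm] at h6
    have h7 := hη' (G (l x) x) (G (l x) y) (hl x hx) (by rw [h4]; exact hl y hy) h6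
      (by rw [h5, h4])
    rw [h7, h4]

end LW
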