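import Mathlib

/-!
Row H1: Hilbert's identity. Row T1: two families with equal power sums except the first.
-/

namespace LW

open MeasureTheory in
private theorem H1_compact {V : Type} [NormedAddCommGroup V] [NormedSpace ℝ V]
    [FiniteDimensional ℝ V] {K : Set V} (hK : IsCompact K) : IsCompact (convexHull ℝ K) := by
  classical
  obtain ⟨n, hn⟩ : ∃ n, n = Module.finrank ℝ V := ⟨_, rfl⟩
  have hP : IsCompact ((stdSimplex ℝ (Fin (n + 1))) ×ˢ
      (Set.univ.pi fun _ : Fin (n + 1) => K)) :=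
    (isCompact_stdSimplex ℝ (Fin (n + 1))).prod (isCompact_univ_pi fun _ => hK)
  have hF : Continuous (fun q : (Fin (n + 1) → ℝ) × (Fin (n + 1) → V) =>
      ∑ i, q.1 i • q.2 i) := by
    fun_prop
  have himg := hP.image hF
  have e : convexHull ℝ K = (fun q : (Fin (n + 1) → ℝ) × (Fin (n + 1) → V) =>
      ∑ i, q.1 i • q.2 i) '' ((stdSimplex ℝ (Fin (n + 1))) ×ˢ
      (Set.univ.pi fun _ : Fin (n + 1) => K)) := by
    ext x
    constructor
    · intro hx
      obtain ⟨ι, hι, z, w, hz, hai, hw, hw1, hx⟩ := eq_pos_convex_span_of_mem_convexHull hx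
      have hcard : Fintype.card ι ≤ n + 1 := by
        have h1 := hai.card_le_finrank_succ
        refine h1.trans ?_
        rw [hn]
        exact Nat.add_le_add_right (Submodule.finrank_le _) 1
      have hne : Nonempty ι := by
        by_contra hcon
        rw [not_nonempty_iff] at hcon
        rw [Finset.univ_eq_empty, Finset.sum_empty] at hw1
        exact zero_ne_one hw1
      obtain ⟨i0⟩ := hne
      obtain ⟨g⟩ : Nonempty (ι ↪ Fin (n + 1)) := by
        apply Function.Embedding.nonempty_of_card_le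
        rw [Fintype.card_fin]
        exact hcard
      have hwext : ∀ j, j ∉ Set.range g → Function.extend g w 0 j = 0 := by
        intro j hj
        rw [Function.extend_apply' _ _ _ hj]
        rfl
      refine ⟨(Function.extend g w 0, Function.extend g z (fun _ => z i0)), ⟨⟨?_, ?_⟩, ?_⟩, ?_⟩
      · intro j
        show 0 ≤ Function.extend g w 0 j
        by_cases hj : j ∈ Set.range g
        · obtain ⟨i, rfl⟩ := hj
          rw [g.injective.extend_apply]
          exact (hw i).le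
        · rw [hwext j hj]
      · show ∑ j, Function.extend g w 0 j = 1
        rw [← hw1]
        exact (Fintype.sum_of_injective g g.injective w _ hwext
          (fun i => (g.injective.extend_apply _ _ i).symm)).symm
      · intro j _
        show Function.extend g z (fun _ => z i0) j ∈ K
        by_cases hj : j ∈ Set.range g
        · obtain ⟨i, rfl⟩ := hj
          rw [g.injective.extend_apply]
          exact hz ⟨i, rfl⟩
        · rw [Function.extend_apply' _ _ _ hj]
          exact hz ⟨i0, rfl⟩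
      · show ∑ j, Function.extend g w 0 j • Function.extend g z (fun _ => z i0) j = x
        rw [← hx]
        refine (Fintype.sum_of_injective g g.injective (fun i => w i • z i) _ ?_ ?_).symm
        · intro j hj
          rw [hwext j hj, zero_smul]
        · intro i
          rw [g.injective.extend_apply, g.injective.extend_apply]
    · rintro ⟨⟨w, z⟩, ⟨⟨hw0, hw1⟩, hz⟩, rfl⟩
      exact mem_convexHull_of_exists_fintype w z hw0 hw1 (fun i => hz i trivial) rfl
  rw [e]
  exact himg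

/-- the tensor power -/
private def H1_T {M : ℕ} (e : ℕ) (a : EuclideanSpace ℝ (Fin M)) :
    (Fin (2 * e) → Fin M) → ℝ := fun j => ∏ t, a (j t)

/-- evaluation of a tensor -/
private noncomputable def H1_ev {M : ℕ} (e : ℕ) (x : EuclideanSpace ℝ (Fin M)) :
    ((Fin (2 * e) → Fin M) → ℝ) →L[ℝ] ℝ :=
  ∑ j : Fin (2 * e) → Fin M, (∏ t, x (j t)) • ContinuousLinearMap.proj j

private theorem H1_ev_T {M : ℕ} (e : ℕ) (x a : EuclideanSpace ℝ (Fin M)) :
    H1_ev e x (H1_T e a) = (inner ℝ a x) ^ (2 * e) := by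
  have h1 : inner ℝ a x = ∑ i, x i * a i := by
    simp [PiLp.inner_apply]
  rw [h1, Fintype.sum_pow]
  unfold H1_ev H1_T
  simp [Finset.prod_mul_distrib]

private theorem H1_T_cont {M : ℕ} (e : ℕ) :
    Continuous (H1_T e : EuclideanSpace ℝ (Fin M) → (Fin (2 * e) → Fin M) → ℝ) := by
  unfold H1_T
  fun_prop

private theorem H1_inv {M : ℕ} (e : ℕ) (x y : EuclideanSpace ℝ (Fin M)) (h : ‖x‖ = ‖y‖) :
    ∫ a in Metric.closedBall (0 : EuclideanSpace ℝ (Fin M)) 1, (inner ℝ a x) ^ (2 * e) =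
      ∫ a in Metric.closedBall (0 : EuclideanSpace ℝ (Fin M)) 1, (inner ℝ a y) ^ (2 * e) := by
  obtain ⟨L, hL⟩ : ∃ L : EuclideanSpace ℝ (Fin M) ≃ₗᵢ[ℝ] EuclideanSpace ℝ (Fin M), L x = y :=
    ⟨_, Submodule.reflection_sub h⟩
  have h1 := (L.measurePreserving).setIntegral_preimage_emb
    L.toHomeomorph.measurableEmbedding
    (fun a => (inner ℝ a y) ^ (2 * e)) (Metric.closedBall 0 1)
  rw [← h1]
  have h2 : (L ⁻¹' Metric.closedBall 0 1) = Metric.closedBall (0 : EuclideanSpace ℝ (Fin M)) 1 := by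
    ext a
    simp [Metric.mem_closedBall, dist_zero_right]
  rw [h2]
  refine MeasureTheory.integral_congr_ae (Filter.Eventually.of_forall fun a => ?_)
  show (inner ℝ a x) ^ (2 * e) = (inner ℝ (L a) y) ^ (2 * e)
  rw [← hL, L.inner_map_map]

/-- Row H1: `(x_1² + ... + x_M²)^e` is a sum of `2e`-th powers of linear forms.
Proof. Let `B` be the closed unit ball of `EuclideanSpace ℝ (Fin M)`, `μ` the volume on `B`. The
function `I x = ∫ a in B, ⟪a, x⟫^(2e)` is invariant under linear isometries, which are transitive on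
spheres, so `I x = C ‖x‖^(2e)`, `C > 0` (for `M > 0`). The point `I`, as a vector of coefficients in a
finite dimensional space, is in the closed convex cone generated by the forms `⟪a, x⟫^(2e)`,
`a ∈ B`; more precisely the average is in the convex hull of the compact set of these forms
(`Convex.integral_mem`, `IsCompact.convexHull`), so it is a finite convex combination; absorb the
weights into `a` (they are `2e`-th powers of real numbers, for `e > 0`; for `e = 0` take one `a`). -/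
theorem hilbert_real (M e : ℕ) : ∃ (S : ℕ) (a : Fin S → Fin M → ℝ), ∀ x : Fin M → ℝ,
    ∑ k, (∑ i, a k i * x i) ^ (2 * e) = (∑ i, x i ^ 2) ^ e := by
  classical
  rcases Nat.eq_zero_or_pos e with he | he
  · subst he
    exact ⟨1, fun _ _ => 0, fun x => by simp⟩
  rcases Nat.eq_zero_or_pos M with hM | hM
  · subst hM
    refine ⟨0, fun _ _ => 0, fun x => ?_⟩
    simp [he.ne']
  obtain ⟨B, hBdef⟩ : ∃ B : Set (EuclideanSpace ℝ (Fin M)), B = Metric.closedBall 0 1 := ⟨_, rfl⟩
  have hBc : IsCompact B := by rw [hBdef]; exact isCompact_closedBall _ _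
  have hBm : MeasurableSet B := by rw [hBdef]; exact measurableSet_closedBall
  have hBpos : 0 < MeasureTheory.volume B := by
    rw [hBdef]; exact Metric.measure_closedBall_pos _ _ one_pos
  have hBfin : MeasureTheory.volume B ≠ ⊤ := hBc.measure_lt_top.ne
  have hTi : MeasureTheory.IntegrableOn (H1_T e) B MeasureTheory.volume :=
    (H1_T_cont e).continuousOn.integrableOn_compact hBc
  -- the average
  have hmem := (convex_convexHull ℝ (H1_T e '' B)).set_average_mem
    (H1_compact (hBc.image (H1_T_cont e))).isClosed hBpos.ne' hBfin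
    (MeasureTheory.ae_restrict_of_forall_mem hBm fun a ha =>
      subset_convexHull ℝ _ ⟨a, ha, rfl⟩) hTi
  obtain ⟨ι, hι, w, z, hw0, hw1, hz, hA⟩ := mem_convexHull_iff_exists_fintype.1 hmem
  choose b hb hbz using hz
  -- the integral
  have hI : ∀ x : EuclideanSpace ℝ (Fin M), ∑ k, w k * (inner ℝ (b k) x) ^ (2 * e) =
      (MeasureTheory.volume.real B)⁻¹ * ∫ a in B, (inner ℝ a x) ^ (2 * e) := by
    intro x
    have h1 := congrArg (H1_ev e x) hA
    rw [map_sum] at h1
    rw [MeasureTheory.setAverage_eq, map_smul, ← (H1_ev e x).integral_comp_comm hTi] at h1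
    simp only [H1_ev_T, map_smul, ← hbz, smul_eq_mul] at h1
    exact h1
  -- the unit vector
  obtain ⟨u, hu⟩ : ∃ u : EuclideanSpace ℝ (Fin M), ‖u‖ = 1 :=
    ⟨EuclideanSpace.single ⟨0, hM⟩ 1, by simp⟩
  have hpos : 0 < ∫ a in B, (inner ℝ a u) ^ (2 * e) := by
    have hcont : Continuous fun a : EuclideanSpace ℝ (Fin M) => (inner ℝ a u) ^ (2 * e) := by
      fun_prop
    rw [MeasureTheory.setIntegral_pos_iff_support_of_nonneg_ae
      (Filter.Eventually.of_forall fun a => by
        show (0 : ℝ) ≤ (inner ℝ a u) ^ (2 * e)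
        rw [pow_mul]
        positivity)
      (hcont.continuousOn.integrableOn_compact hBc)]
    have hopen : IsOpen ({a : EuclideanSpace ℝ (Fin M) | inner ℝ a u ≠ (0 : ℝ)} ∩
        Metric.ball 0 1) := by
      refine IsOpen.inter ?_ Metric.isOpen_ball
      exact isOpen_ne_fun (by fun_prop) continuous_const
    have hne : ({a : EuclideanSpace ℝ (Fin M) | inner ℝ a u ≠ (0 : ℝ)} ∩
        Metric.ball 0 1).Nonempty := by
      refine ⟨(1 / 2 : ℝ) • u, ?_, ?_⟩
      · show inner ℝ ((1 / 2 : ℝ) • u) u ≠ (0 : ℝ)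
        rw [real_inner_smul_left, real_inner_self_eq_norm_sq, hu]
        norm_num
      · rw [Metric.mem_ball, dist_zero_right, norm_smul, hu]
        norm_num
    refine (hopen.measure_pos MeasureTheory.volume hne).trans_le (MeasureTheory.measure_mono ?_)
    rintro a ⟨ha1, ha2⟩
    refine ⟨?_, ?_⟩
    · show (inner ℝ a u) ^ (2 * e) ≠ (0 : ℝ)
      exact pow_ne_zero _ ha1
    · rw [hBdef]
      exact Metric.ball_subset_closedBall ha2
  obtain ⟨c, hc⟩ : ∃ c, c = (MeasureTheory.volume.real B)⁻¹ *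
      ∫ a in B, (inner ℝ a u) ^ (2 * e) := ⟨_, rfl⟩
  have hvol : 0 < MeasureTheory.volume.real B := ENNReal.toReal_pos hBpos.ne' hBfin
  have hcpos : 0 < c := by rw [hc]; positivity
  have hhom : ∀ x : EuclideanSpace ℝ (Fin M), ∫ a in B, (inner ℝ a x) ^ (2 * e) =
      ‖x‖ ^ (2 * e) * ∫ a in B, (inner ℝ a u) ^ (2 * e) := by
    intro x
    have h1 := H1_inv e x (‖x‖ • u) (by rw [norm_smul, norm_norm, hu, mul_one])
    rw [← hBdef] at h1
    rw [h1, ← MeasureTheory.integral_const_mul]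
    refine MeasureTheory.integral_congr_ae (Filter.Eventually.of_forall fun a => ?_)
    show (inner ℝ a (‖x‖ • u)) ^ (2 * e) = ‖x‖ ^ (2 * e) * (inner ℝ a u) ^ (2 * e)
    rw [real_inner_smul_right, mul_pow]
  have hfin : ∀ x : EuclideanSpace ℝ (Fin M),
      ∑ k, (c⁻¹ * w k) * (inner ℝ (b k) x) ^ (2 * e) = (‖x‖ ^ 2) ^ e := by
    intro x
    have h1 := hI x
    rw [hhom x, mul_left_comm, ← hc] at h1
    have h2 : ∑ k, (c⁻¹ * w k) * (inner ℝ (b k) x) ^ (2 * e) =
        c⁻¹ * ∑ k, w k * (inner ℝ (b k) x) ^ (2 * e) := by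
      rw [Finset.mul_sum]
      exact Finset.sum_congr rfl fun k _ => by ring
    rw [h2, h1, ← pow_mul]
    field_simp
  -- roots
  have hroot : ∀ k, ∃ t : ℝ, t ^ (2 * e) = c⁻¹ * w k := by
    intro k
    refine ⟨(c⁻¹ * w k) ^ (((2 * e : ℕ) : ℝ)⁻¹), ?_⟩
    exact Real.rpow_inv_natCast_pow (mul_nonneg (inv_nonneg.2 hcpos.le) (hw0 k))
      (by omega)
  choose t ht using hroot
  let σ := Fintype.equivFin ι
  refine ⟨Fintype.card ι, fun k i => t (σ.symm k) * b (σ.symm k) i, fun x => ?_⟩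
  have h1 := hfin (WithLp.toLp 2 x)
  rw [EuclideanSpace.norm_sq_eq] at h1
  have h2 : ∑ i, ‖(WithLp.toLp 2 x : EuclideanSpace ℝ (Fin M)) i‖ ^ 2 = ∑ i, x i ^ 2 := by
    refine Finset.sum_congr rfl fun i _ => ?_
    rw [Real.norm_eq_abs, sq_abs]
  rw [h2] at h1
  rw [← h1, ← Equiv.sum_comp σ.symm]
  refine Finset.sum_congr rfl fun k _ => ?_
  rw [← ht, ← mul_pow]
  congr 1
  rw [PiLp.inner_apply, Finset.mul_sum]
  refine Finset.sum_congr rfl fun i _ => ?_
  simp
  ring

/-- Row H2: the same identity over every commutative `ℝ`-algebra (both sides are values of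
polynomials over the infinite field `ℝ`, so the polynomials are equal). -/
theorem hilbert (M e : ℕ) : ∃ (S : ℕ) (a : Fin S → Fin M → ℝ),
    ∀ (K : Type) [CommRing K] [Algebra ℝ K] (x : Fin M → K),
      ∑ k, (∑ i, algebraMap ℝ K (a k i) * x i) ^ (2 * e) = (∑ i, x i ^ 2) ^ e := by
  obtain ⟨S, a, ha⟩ := hilbert_real M e
  refine ⟨S, a, ?_⟩
  have h : (∑ k, (∑ i, MvPolynomial.C (a k i) * MvPolynomial.X i) ^ (2 * e) :
      MvPolynomial (Fin M) ℝ) = (∑ i, MvPolynomial.X i ^ 2) ^ e := by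
    refine MvPolynomial.funext fun x => ?_
    simp only [map_sum, map_pow, map_mul, MvPolynomial.eval_C, MvPolynomial.eval_X]
    exact ha x
  intro K _ _ x
  have h1 := congrArg (MvPolynomial.aeval x) h
  simp only [map_sum, map_pow, map_mul, MvPolynomial.aeval_X, MvPolynomial.aeval_C] at h1
  exact h1

/-- integral weights (row T1) -/
private theorem toggle_aux (e : ℕ) : ∃ (N : ℤ) (W : Fin (e + 1) → ℤ), N ≠ 0 ∧
    (∑ i, W i * ((i : ℕ) + 1 : ℤ) = N) ∧
    ∀ r, 2 ≤ r → r ≤ e + 1 → ∑ i, W i * ((i : ℕ) + 1 : ℤ) ^ r = 0 := by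
  classical
  let V : Matrix (Fin (e + 1)) (Fin (e + 1)) ℚ := Matrix.vandermonde fun i => ((i : ℕ) : ℚ) + 1
  have hV : V.det ≠ 0 := by
    refine Matrix.det_vandermonde_ne_zero_iff.2 fun i j hij => ?_
    have h1 : ((i : ℕ) : ℚ) = ((j : ℕ) : ℚ) := by
      have h2 : ((i : ℕ) : ℚ) + 1 = ((j : ℕ) : ℚ) + 1 := hij
      linarith
    exact Fin.ext (by exact_mod_cast h1)
  obtain ⟨w, hw⟩ : ∃ w : Fin (e + 1) → ℚ, Matrix.vecMul w V = Pi.single 0 1 := by
    refine ⟨Matrix.vecMul (Pi.single 0 1) V⁻¹, ?_⟩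
    rw [Matrix.vecMul_vecMul, Matrix.nonsing_inv_mul V (Ne.isUnit hV), Matrix.vecMul_one]
  obtain ⟨b, hb⟩ := IsLocalization.exist_integer_multiples_of_finite (nonZeroDivisors ℤ)
    (fun i : Fin (e + 1) => w i / (((i : ℕ) : ℚ) + 1))
  choose W hW using hb
  have hW' : ∀ i, (W i : ℚ) = ((b : ℤ) : ℚ) * (w i / (((i : ℕ) : ℚ) + 1)) := by
    intro i
    have h1 := hW i
    rw [zsmul_eq_mul] at h1
    exact h1
  have hi : ∀ i : Fin (e + 1), ((i : ℕ) : ℚ) + 1 ≠ 0 := fun i => by positivity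
  have key : ∀ r : Fin (e + 1), ∑ i, (W i : ℚ) * (((i : ℕ) : ℚ) + 1) ^ ((r : ℕ) + 1) =
      ((b : ℤ) : ℚ) * (Pi.single 0 1 : Fin (e + 1) → ℚ) r := by
    intro r
    rw [← hw, Matrix.vecMul, dotProduct, Finset.mul_sum]
    refine Finset.sum_congr rfl fun i _ => ?_
    have h1 : V i r = (((i : ℕ) : ℚ) + 1) ^ (r : ℕ) := rfl
    rw [hW', h1, pow_succ]
    field_simp [hi i]
  refine ⟨b, W, nonZeroDivisors.ne_zero b.2, ?_, ?_⟩
  · have h1 := key 0
    rw [Pi.single_eq_same, mul_one] at h1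
    have h2 : (∑ i, (W i : ℚ) * (((i : ℕ) : ℚ) + 1)) = ((b : ℤ) : ℚ) := by
      rw [← h1]
      simp
    exact_mod_cast h2
  · intro r hr1 hr2
    have h1 := key ⟨r - 1, by omega⟩
    rw [Pi.single_eq_of_ne (by
      intro h
      have := congrArg Fin.val h
      simp at this
      omega), mul_zero] at h1
    have h2 : (∑ i, (W i : ℚ) * (((i : ℕ) : ℚ) + 1) ^ r) = 0 := by
      rw [← h1]
      refine Finset.sum_congr rfl fun i _ => ?_
      rw [show ((⟨r - 1, by omega⟩ : Fin (e + 1)) : ℕ) + 1 = r by simp; omega]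
    exact_mod_cast h2

/-- Row T1: there are real families `v`, `v'` of the same length with equal sums of `2r`-th powers for
`2 ≤ r ≤ e`, and different sums of squares.
Proof. Let `e ≥ 1`. The Vandermonde matrix `(i^r)`, `1 ≤ i ≤ e`, `1 ≤ r ≤ e`, is invertible over
`ℚ`, so there are integers `W_i` with `∑ W_i i^r = 0` for `2 ≤ r ≤ e` and `∑ W_i i ≠ 0`. Let `v` consist
of `√i` with multiplicity `max(W_i, 0)` and `v'` of `√i` with multiplicity `max(-W_i, 0)`; fill the
shorter one with zeros. -/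
theorem toggle (e : ℕ) : ∃ (T : ℕ) (v v' : Fin T → ℝ),
    (∀ r, 2 ≤ r → r ≤ e → ∑ i, v i ^ (2 * r) = ∑ i, v' i ^ (2 * r)) ∧
    ∑ i, v i ^ 2 ≠ ∑ i, v' i ^ 2 := by
  classical
  obtain ⟨N, W, hN, hW1, hW2⟩ := toggle_aux e
  let ι : Type := (Σ i : Fin (e + 1), Fin (W i).toNat) ⊕ (Σ i : Fin (e + 1), Fin (-W i).toNat)
  let u : ι → ℝ := Sum.elim (fun p => √(((p.1 : ℕ) : ℝ) + 1)) (fun _ => 0)
  let u' : ι → ℝ := Sum.elim (fun _ => 0) (fun p => √(((p.1 : ℕ) : ℝ) + 1))
  have hs : ∀ (i : Fin (e + 1)) (r : ℕ), √(((i : ℕ) : ℝ) + 1) ^ (2 * r) =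
      (((i : ℕ) : ℝ) + 1) ^ r := by
    intro i r
    rw [pow_mul, Real.sq_sqrt (by positivity)]
  have hu : ∀ r, 1 ≤ r → ∑ x, u x ^ (2 * r) =
      ∑ i : Fin (e + 1), ((W i).toNat : ℝ) * (((i : ℕ) : ℝ) + 1) ^ r := by
    intro r hr
    rw [Fintype.sum_sum_type]
    simp only [u, Sum.elim_inl, Sum.elim_inr]
    rw [Finset.sum_eq_zero (s := (Finset.univ : Finset (Σ i : Fin (e + 1), Fin (-W i).toNat)))
      (fun _ _ => zero_pow (by omega)), add_zero, Fintype.sum_sigma]
    refine Finset.sum_congr rfl fun i _ => ?_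
    simp only [hs]
    rw [Finset.sum_const, Finset.card_univ, Fintype.card_fin, nsmul_eq_mul]
  have hu' : ∀ r, 1 ≤ r → ∑ x, u' x ^ (2 * r) =
      ∑ i : Fin (e + 1), ((-W i).toNat : ℝ) * (((i : ℕ) : ℝ) + 1) ^ r := by
    intro r hr
    rw [Fintype.sum_sum_type]
    simp only [u', Sum.elim_inl, Sum.elim_inr]
    rw [Finset.sum_eq_zero (s := (Finset.univ : Finset (Σ i : Fin (e + 1), Fin (W i).toNat)))
      (fun _ _ => zero_pow (by omega)), zero_add, Fintype.sum_sigma]
    refine Finset.sum_congr rfl fun i _ => ?_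
    simp only [hs]
    rw [Finset.sum_const, Finset.card_univ, Fintype.card_fin, nsmul_eq_mul]
  have hdiff : ∀ r, 1 ≤ r → ∑ x, u x ^ (2 * r) - ∑ x, u' x ^ (2 * r) =
      ((∑ i, W i * ((i : ℕ) + 1 : ℤ) ^ r : ℤ) : ℝ) := by
    intro r hr
    rw [hu r hr, hu' r hr, ← Finset.sum_sub_distrib]
    push_cast
    refine Finset.sum_congr rfl fun i _ => ?_
    rw [← sub_mul]
    congr 1
    have h1 : (((W i).toNat : ℤ) : ℝ) - (((-W i).toNat : ℤ) : ℝ) = (W i : ℝ) := by
      rw [← Int.cast_sub]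
      congr 1
      omega
    exact_mod_cast h1
  let E := Fintype.equivFin ι
  refine ⟨Fintype.card ι, fun k => u (E.symm k), fun k => u' (E.symm k), ?_, ?_⟩
  · intro r hr1 hr2
    rw [E.symm.sum_comp (fun x => u x ^ (2 * r)), E.symm.sum_comp (fun x => u' x ^ (2 * r)),
      ← sub_eq_zero, hdiff r (by omega), hW2 r hr1 (by omega), Int.cast_zero]
  · rw [E.symm.sum_comp (fun x => u x ^ 2), E.symm.sum_comp (fun x => u' x ^ 2), ← sub_ne_zero]
    have h1 := hdiff 1 le_rfl
    simp only [mul_one, pow_one] at h1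
    rw [h1, hW1]
    exact_mod_cast hN

end LW
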