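import Pool.Agent.Lib.LW.Defs
import Pool.Agent.Lib.LW.Hil

/-!
Row C1: the constants `b`.
-/

namespace LW

/-- Sums of powers of linear forms are forms. -/
private theorem ev_pow {K : Type*} [CommRing K] {ι κ : Type*} [Fintype ι] [Fintype κ]
    (A : κ → ι → K) (n : ℕ) (x : ι → K) :
    ev (fun τ : Fin n → ι => ∑ k, ∏ j, A k (τ j)) x = ∑ k, (∑ i, A k i * x i) ^ n := by
  classical
  unfold ev
  simp only [Finset.sum_mul]
  rw [Finset.sum_comm]
  refine Finset.sum_congr rfl fun k _ => ?_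
  rw [Fintype.sum_pow]
  refine Finset.sum_congr rfl fun τ _ => ?_
  rw [Finset.prod_mul_distrib]

/-- A real matrix which is injective on real vectors is injective on vectors over `K`. -/
private theorem inj_ext {S M : ℕ} (a : Fin S → Fin M → ℝ)
    (ha : ∀ x : Fin M → ℝ, (∀ k, ∑ i, a k i * x i = 0) → x = 0) (K : Type) [Field K]
    [Algebra ℝ K] (x : Fin M → K) (hx : ∀ k, ∑ i, algebraMap ℝ K (a k i) * x i = 0) :
    x = 0 := by
  classical
  let A : Matrix (Fin S) (Fin M) ℝ := Matrix.of a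
  have hker : LinearMap.ker (Matrix.toLin' A) = ⊥ := by
    rw [LinearMap.ker_eq_bot']
    intro y hy
    refine ha y fun k => ?_
    have h1 := congrFun hy k
    rw [Matrix.toLin'_apply] at h1
    exact h1
  obtain ⟨g, hg⟩ := (Matrix.toLin' A).exists_leftInverse_of_injective hker
  have hGA : LinearMap.toMatrix' g * A = 1 := by
    have h1 : LinearMap.toMatrix' (g.comp (Matrix.toLin' A)) = 1 := by
      rw [hg, LinearMap.toMatrix'_id]
    rwa [LinearMap.toMatrix'_comp, LinearMap.toMatrix'_toLin'] at h1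
  have hGA' : (LinearMap.toMatrix' g).map (algebraMap ℝ K) * A.map (algebraMap ℝ K) = 1 := by
    rw [← Matrix.map_mul, hGA, Matrix.map_one _ (map_zero _) (map_one _)]
  have h2 : (A.map (algebraMap ℝ K)).mulVec x = 0 := by
    funext k
    exact hx k
  have h3 : (1 : Matrix (Fin M) (Fin M) K).mulVec x = 0 := by
    rw [← hGA', ← Matrix.mulVec_mulVec, h2, Matrix.mulVec_zero]
  rwa [Matrix.one_mulVec] at h3

/-- If all systems of `e` forms of degrees at most `2e - 1` in `N` variables have nontrivial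
zeros, there are `b_1, ..., b_S` in `K` (`S` depends only on `e`, `N`) with `∑ b² ≠ 0` and
`∑ b^(2r) = 0` for `2 ≤ r ≤ e`.
Proof. `e = 1`: `S = 1`, `b = 1`. Let `e ≥ 2`, `M = N` (and at least 1), `a` from `hilbert M e`. The
forms `∑ x_i²` (degree 2) and `Q_r x = ∑_k (∑_i a k i x_i)^(2r)`, `2 ≤ r ≤ e - 1` (degree
`2 r ≤ 2 e - 2`), at most `e` forms (fill up with copies of `∑ x_i²`), have a common zero `x ≠ 0`.
Let `b_k = ∑_i a k i x_i`. Then `∑ b^(2r) = 0` for `2 ≤ r ≤ e` (for `r = e` by `hilbert`). `b ≠ 0`: the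
matrix `a` is injective on `ℝ^M` (by the identity), so has a real left inverse, so is injective on
`K^M`. Let `v, v'` be from `toggle e`. The families `(v_i b_k)_(i,k)` and the same with `v` replaced by
`v'` for one index `k₀` with `b_(k₀) ≠ 0` both satisfy `∑ = 0` for `2 ≤ r ≤ e`; their sums of squares
differ by `(∑ v'² - ∑ v²) b_(k₀)² ≠ 0`, so one of them is `≠ 0`. `S = T * (number of k)`. -/
theorem exists_const (e N : ℕ) (he : 1 ≤ e) : ∃ S : ℕ, ∀ (K : Type) [Field K] [Algebra ℝ K],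
    Iso K (2 * e - 1) e N → ∃ b : Fin S → K, ∑ k, b k ^ 2 ≠ 0 ∧
      ∀ r, 2 ≤ r → r ≤ e → ∑ k, b k ^ (2 * r) = 0 := by
  rcases Nat.lt_or_ge e 2 with he2 | he2
  · refine ⟨1, fun K _ _ _ => ⟨fun _ => 1, by simp, fun r h2 h3 => ?_⟩⟩
    omega
  obtain ⟨S₀, a, ha⟩ := hilbert (N + 1) e
  obtain ⟨T, v, v', hv, hne⟩ := toggle e
  refine ⟨T * S₀, fun K _ _ hK => ?_⟩
  have hinj : ∀ x : Fin (N + 1) → ℝ, (∀ k, ∑ i, a k i * x i = 0) → x = 0 := by
    intro x hx
    have h1 := ha ℝ x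
    simp only [Algebra.algebraMap_self, RingHom.id_apply] at h1
    have h2 : ∑ k, (∑ i, a k i * x i) ^ (2 * e) = 0 := by
      refine Finset.sum_eq_zero fun k _ => ?_
      rw [hx k, zero_pow (by omega)]
    rw [h2] at h1
    have h3 : ∑ i, x i ^ 2 = 0 := eq_zero_of_pow_eq_zero h1.symm
    have h4 := (Finset.sum_eq_zero_iff_of_nonneg fun i _ => sq_nonneg (x i)).1 h3
    funext i
    exact eq_zero_of_pow_eq_zero (h4 i (Finset.mem_univ i))
  let A : Fin S₀ → Fin (N + 1) → K := fun k i => algebraMap ℝ K (a k i)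
  let I : Fin (N + 1) → Fin (N + 1) → K := fun k i => if k = i then 1 else 0
  let deg : Fin e → ℕ := fun ρ => if ρ.val ≤ 1 then 2 else 2 * ρ.val
  let c : ∀ ρ : Fin e, (Fin (deg ρ) → Fin (N + 1)) → K := fun ρ τ =>
    if ρ.val ≤ 1 then ∑ k, ∏ j, I k (τ j) else ∑ k, ∏ j, A k (τ j)
  obtain ⟨x, hx0, hx⟩ := hK (N + 1) (by omega) deg c (by
    intro ρ
    have h1 := ρ.2
    show 1 ≤ (if ρ.val ≤ 1 then 2 else 2 * ρ.val) ∧ (if ρ.val ≤ 1 then 2 else 2 * ρ.val) ≤ 2 * e - 1
    split_ifs <;> omega)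
  let b₀ : Fin S₀ → K := fun k => ∑ i, algebraMap ℝ K (a k i) * x i
  have hsq : ∑ i, x i ^ 2 = 0 := by
    have h1 := hx ⟨0, by omega⟩
    have h2 : c ⟨0, by omega⟩ = fun τ => ∑ k, ∏ j, I k (τ j) := by
      funext τ
      exact if_pos (by simp)
    rw [h2, ev_pow] at h1
    have h3 : deg ⟨0, by omega⟩ = 2 := if_pos (by simp)
    rw [h3] at h1
    rw [← h1]
    refine Finset.sum_congr rfl fun k _ => ?_
    congr 1
    simp [I]
  have hpow : ∀ r, 2 ≤ r → r ≤ e → ∑ k, b₀ k ^ (2 * r) = 0 := by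
    intro r h2 h3
    rcases Nat.lt_or_ge r e with h4 | h4
    · have h5 := hx ⟨r, h4⟩
      have h6 : c ⟨r, h4⟩ = fun τ => ∑ k, ∏ j, A k (τ j) := by
        funext τ
        exact if_neg (by show ¬ r ≤ 1; omega)
      rw [h6, ev_pow] at h5
      have h7 : deg ⟨r, h4⟩ = 2 * r := if_neg (by show ¬ r ≤ 1; omega)
      rw [h7] at h5
      exact h5
    · have h5 : r = e := le_antisymm h3 h4
      rw [h5]
      have h6 := ha K x
      rw [hsq, zero_pow (by omega)] at h6
      exact h6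
  obtain ⟨k₀, hk₀⟩ : ∃ k, b₀ k ≠ 0 := by
    by_contra hcon
    push Not at hcon
    exact hx0 (inj_ext a hinj K x hcon)
  let w : Fin S₀ → Fin T → ℝ := fun k i => if k = k₀ then v' i else v i
  have hsum : ∀ (u : Fin S₀ → Fin T → ℝ) (n : ℕ),
      ∑ l : Fin (T * S₀), (algebraMap ℝ K (u (finProdFinEquiv.symm l).2
        (finProdFinEquiv.symm l).1) * b₀ (finProdFinEquiv.symm l).2) ^ n =
      ∑ k, algebraMap ℝ K (∑ i, u k i ^ n) * b₀ k ^ n := by
    intro u n
    rw [Equiv.sum_comp finProdFinEquiv.symm fun q : Fin T × Fin S₀ =>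
      (algebraMap ℝ K (u q.2 q.1) * b₀ q.2) ^ n, Fintype.sum_prod_type_right]
    refine Finset.sum_congr rfl fun k _ => ?_
    rw [map_sum, Finset.sum_mul]
    refine Finset.sum_congr rfl fun i _ => ?_
    rw [mul_pow, map_pow]
  have hv0 : ∀ u : Fin S₀ → Fin T → ℝ,
      (∀ k r, 2 ≤ r → r ≤ e → ∑ i, u k i ^ (2 * r) = ∑ i, v i ^ (2 * r)) →
      ∀ r, 2 ≤ r → r ≤ e → ∑ k, algebraMap ℝ K (∑ i, u k i ^ (2 * r)) * b₀ k ^ (2 * r) = 0 := by
    intro u hu r h2 h3
    have h4 : ∀ k, algebraMap ℝ K (∑ i, u k i ^ (2 * r)) * b₀ k ^ (2 * r) =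
        algebraMap ℝ K (∑ i, v i ^ (2 * r)) * b₀ k ^ (2 * r) := by
      intro k
      rw [hu k r h2 h3]
    simp only [h4]
    rw [← Finset.mul_sum, hpow r h2 h3, mul_zero]
  by_cases h1 : ∑ k, algebraMap ℝ K (∑ i, v i ^ 2) * b₀ k ^ 2 = 0
  · refine ⟨fun l => algebraMap ℝ K (w (finProdFinEquiv.symm l).2
      (finProdFinEquiv.symm l).1) * b₀ (finProdFinEquiv.symm l).2, ?_, fun r h2 h3 => ?_⟩
    · rw [hsum w 2]
      have h2 : ∑ k, algebraMap ℝ K (∑ i, w k i ^ 2) * b₀ k ^ 2 =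
          ∑ k, (algebraMap ℝ K (∑ i, v i ^ 2) * b₀ k ^ 2 +
            if k = k₀ then algebraMap ℝ K (∑ i, v' i ^ 2 - ∑ i, v i ^ 2) * b₀ k ^ 2 else 0) := by
        refine Finset.sum_congr rfl fun k _ => ?_
        by_cases hk : k = k₀
        · have h3 : w k = v' := by
            funext i
            exact if_pos hk
          rw [h3, if_pos hk, ← add_mul, ← map_add]
          congr 2
          ring
        · have h3 : w k = v := by
            funext i
            exact if_neg hk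
          rw [h3, if_neg hk, add_zero]
      rw [h2, Finset.sum_add_distrib, h1, zero_add, Finset.sum_ite_eq' Finset.univ k₀,
        if_pos (Finset.mem_univ _)]
      refine mul_ne_zero ?_ (pow_ne_zero 2 hk₀)
      rw [Ne, map_eq_zero_iff _ (algebraMap ℝ K).injective, sub_eq_zero]
      exact fun h => hne h.symm
    · rw [hsum w (2 * r)]
      refine hv0 w (fun k r h2 h3 => ?_) r h2 h3
      by_cases hk : k = k₀
      · have h3' : w k = v' := by
          funext i
          exact if_pos hk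
        rw [h3']
        exact (hv r h2 h3).symm
      · have h3' : w k = v := by
          funext i
          exact if_neg hk
        rw [h3']
  · refine ⟨fun l => algebraMap ℝ K (v (finProdFinEquiv.symm l).1) *
      b₀ (finProdFinEquiv.symm l).2, ?_, fun r h2 h3 => ?_⟩
    · rw [hsum (fun _ => v) 2]
      exact h1
    · rw [hsum (fun _ => v) (2 * r)]
      exact hv0 (fun _ => v) (fun _ _ _ _ => rfl) r h2 h3

end LW
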