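import Pool.Agent.Lib.LW.Defs

/-!
Rows G1 (generating function) and L1 (lacunary frequencies).
-/

namespace LW

open Finset

/-- The moments of a sum of independent cosines, up to a constant. -/
noncomputable def He {K : Type*} [Field K] {S : ℕ} (e : ℕ) (ρ : Fin S → K) : K :=
  ∑ α ∈ Finset.piAntidiag (Finset.univ : Finset (Fin S)) e,
    ∏ j, ρ j ^ α j / ((α j).factorial : K) ^ 2

section G1

open PowerSeries

/-- The series `∑ t^k / (k!)²`. -/
private noncomputable def heJ (K : Type*) [Field K] : PowerSeries K :=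
  PowerSeries.mk fun k => ((k.factorial : K) ^ 2)⁻¹

private lemma he_coeff {K : Type*} [Field K] {S : ℕ} (e : ℕ) (ρ : Fin S → K) :
    He e ρ = coeff e (∏ j, rescale (ρ j) (heJ K)) := by
  rw [PowerSeries.coeff_prod, He]
  refine Finset.sum_bij' (fun α _ => Finsupp.equivFunOnFinite.symm α) (fun l _ => ⇑l) ?_ ?_ ?_ ?_ ?_
  · intro α hα
    rw [Finset.mem_piAntidiag] at hα
    rw [Finset.mem_finsuppAntidiag]
    refine ⟨?_, Finset.subset_univ _⟩
    simpa using hα.1
  · intro l hl
    rw [Finset.mem_finsuppAntidiag] at hl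
    rw [Finset.mem_piAntidiag]
    exact ⟨hl.1, fun i _ => Finset.mem_univ i⟩
  · intro α _
    simp
  · intro l _
    simp
  · intro α _
    refine Finset.prod_congr rfl fun j _ => ?_
    rw [coeff_rescale]
    simp [heJ, div_eq_mul_inv]

private lemma he_derivative_rescale {K : Type*} [Field K] (a : K) (f : PowerSeries K) :
    derivative K (rescale a f) = C a * rescale a (derivative K f) := by
  ext n
  rw [coeff_derivative, coeff_rescale, coeff_C_mul, coeff_rescale, coeff_derivative]
  ring

private lemma he_logder {K : Type*} [Field K] {ι : Type*} [DecidableEq ι] (s : Finset ι)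
    (ρ : ι → K) (J B : PowerSeries K) (hB : derivative K J = J * B) :
    derivative K (∏ j ∈ s, rescale (ρ j) J) =
      (∏ j ∈ s, rescale (ρ j) J) * ∑ j ∈ s, C (ρ j) * rescale (ρ j) B := by
  induction s using Finset.induction_on with
  | empty => simp
  | insert i s hi ih =>
    rw [Finset.prod_insert hi, Finset.sum_insert hi, Derivation.leibniz, ih,
      he_derivative_rescale, hB, map_mul]
    simp only [smul_eq_mul]
    ring

/-- Row G1: if the power sums of `ρ` of degrees `2, ..., e` vanish then
`He e ρ = (∑ ρ)^e / e!`.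
Proof. In power series over `K`: `H(t) = ∏ j, J(ρ_j t)`, `J(t) = ∑ t^k / (k!)²`; the coefficient
of `t^k` of `H` is `He k ρ`. `J' = J B` with `B = ∑ b_r t^r`, `b_0 = 1`. So
`H' = H ∑_j ρ_j B(ρ_j t) = H ∑_r b_r p_(r+1) t^r`, where `p_r` = power sum of `ρ`, i.e.
`(k+1) H_(k+1) = ∑_(r ≤ k) b_r p_(r+1) H_(k-r)`, which is `p_1 H_k` for `k + 1 ≤ e`. Induction. -/
theorem He_eq {K : Type*} [Field K] [CharZero K] {S : ℕ} (e : ℕ) (ρ : Fin S → K)
    (h : ∀ r, 2 ≤ r → r ≤ e → ∑ j, ρ j ^ r = 0) :
    He e ρ = (∑ j, ρ j) ^ e / (e.factorial : K) := by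
  classical
  have hJ0 : constantCoeff (heJ K) ≠ 0 := by
    rw [← coeff_zero_eq_constantCoeff_apply]
    simp [heJ]
  set B : PowerSeries K := (heJ K)⁻¹ * derivative K (heJ K) with hBdef
  have hB : derivative K (heJ K) = heJ K * B := by
    rw [hBdef, ← mul_assoc, PowerSeries.mul_inv_cancel _ hJ0, one_mul]
  have hb0 : coeff 0 B = 1 := by
    have h1 := congrArg (coeff 0) hB
    rw [coeff_derivative, coeff_mul] at h1
    simp [heJ] at h1
    simpa using h1.symm
  have key : ∀ k, k + 1 ≤ e → ((k : K) + 1) * He (k + 1) ρ = (∑ j, ρ j) * He k ρ := by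
    intro k hk
    have h1 := congrArg (coeff k) (he_logder Finset.univ ρ (heJ K) B hB)
    rw [coeff_derivative, ← he_coeff, coeff_mul] at h1
    rw [mul_comm, h1, Finset.sum_eq_single (k, 0)]
    · rw [← he_coeff, map_sum]
      simp only [coeff_C_mul, coeff_rescale, pow_zero, hb0, mul_one]
      ring
    · rintro ⟨i, r⟩ hir hne
      rw [Finset.HasAntidiagonal.mem_antidiagonal] at hir
      simp only at hir
      have hr : r ≠ 0 := by
        rintro rfl
        exact hne (by simp [← hir])
      have : coeff r (∑ j, C (ρ j) * rescale (ρ j) B) = 0 := by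
        rw [map_sum]
        simp only [coeff_C_mul, coeff_rescale]
        have h2 : ∀ j, ρ j * (ρ j ^ r * coeff r B) = ρ j ^ (r + 1) * coeff r B := fun j => by ring
        simp only [h2]
        rw [← Finset.sum_mul, h (r + 1) (by omega) (by omega), zero_mul]
      simp [this]
    · intro hh
      exact absurd (Finset.HasAntidiagonal.mem_antidiagonal.2 (by simp)) hh
  have main : ∀ k, k ≤ e → He k ρ = (∑ j, ρ j) ^ k / (k.factorial : K) := by
    intro k
    induction k with
    | zero =>
      intro _
      simp [He]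
    | succ k ih =>
      intro hk
      have h1 := key k hk
      rw [ih (by omega)] at h1
      have hk0 : (k : K) + 1 ≠ 0 := by exact_mod_cast Nat.succ_ne_zero k
      have hf : (k.factorial : K) ≠ 0 := by exact_mod_cast k.factorial_ne_zero
      rw [Nat.factorial_succ]
      push_cast
      field_simp
      field_simp at h1
      linear_combination h1
  exact main e le_rfl

end G1

/-- the frequency `(4e+1)^j` and the degree `q = (4e+1)^S`; both odd -/
def lam (e j : ℕ) : ℕ := (4 * e + 1) ^ j

/-- `Re (w^((q+λ)/2) conj(w)^((q-λ)/2))`, homogeneous of degree `q` in `w` -/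
noncomputable def gre {K : Type*} [Field K] (q l : ℕ) (w : Cx K) : K :=
  (w ^ ((q + l) / 2) * star w ^ ((q - l) / 2)).re

private theorem lac_odd (e j : ℕ) : lam e j % 2 = 1 := by
  have h : Odd (lam e j) := by
    unfold lam
    apply Odd.pow
    exact ⟨2 * e, by ring⟩
  exact Nat.odd_iff.mp h

private theorem lac_mono (e : ℕ) {j S : ℕ} (h : j ≤ S) : lam e j ≤ lam e S := by
  unfold lam
  exact Nat.pow_le_pow_right (by omega) h

/-- uniqueness of the digits in base `b` -/
private theorem lac_digits (b : ℕ) : ∀ (S : ℕ) (f g : Fin S → ℕ), (∀ j, f j < b) → (∀ j, g j < b) →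
    ∑ j : Fin S, b ^ (j : ℕ) * f j = ∑ j : Fin S, b ^ (j : ℕ) * g j → f = g := by
  intro S
  induction S with
  | zero => intro f g _ _ _; funext j; exact j.elim0
  | succ S ih =>
    intro f g hf hg h
    rw [Fin.sum_univ_succ, Fin.sum_univ_succ] at h
    simp only [Fin.val_zero, pow_zero, one_mul, Fin.val_succ] at h
    have e1 : ∀ u : Fin (S + 1) → ℕ, ∑ j : Fin S, b ^ ((j : ℕ) + 1) * u j.succ =
        b * ∑ j : Fin S, b ^ (j : ℕ) * u j.succ := by
      intro u
      rw [Finset.mul_sum]
      refine Finset.sum_congr rfl fun j _ => ?_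
      rw [pow_succ]; ring
    rw [e1, e1] at h
    have hb : 0 < b := lt_of_le_of_lt (Nat.zero_le _) (hf 0)
    have h0 : f 0 = g 0 := by
      have := congrArg (· % b) h
      simp only [Nat.add_mul_mod_self_left] at this
      rwa [Nat.mod_eq_of_lt (hf 0), Nat.mod_eq_of_lt (hg 0)] at this
    rw [h0] at h
    have h1 := Nat.eq_of_mul_eq_mul_left hb (Nat.add_left_cancel h)
    have h2 := ih (fun j => f j.succ) (fun j => g j.succ) (fun j => hf _) (fun j => hg _) h1
    funext j
    refine Fin.cases h0 (fun j => ?_) j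
    exact congrFun h2 j

/-- the monomials in `w`, `star w` -/
private noncomputable def lacM {K : Type*} [Field K] (e S : ℕ) (w : Cx K) (p : Fin S × Bool) :
    Cx K :=
  if p.2 then w ^ ((lam e S + lam e p.1) / 2) * star w ^ ((lam e S - lam e p.1) / 2)
  else w ^ ((lam e S - lam e p.1) / 2) * star w ^ ((lam e S + lam e p.1) / 2)

private theorem lac_gre {K : Type*} [Field K] (e S : ℕ) (w : Cx K) (j : Fin S) :
    algebraMap K (Cx K) (2 * gre (lam e S) (lam e j) w) =
      lacM e S w (j, true) + lacM e S w (j, false) := by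
  have h1 : ∀ z : Cx K, algebraMap K (Cx K) (2 * z.re) = z + star z := by
    intro z
    ext
    · simp [two_mul]
    · simp
  rw [gre, h1, star_mul, star_pow, star_pow, star_star]
  simp [lacM]

/-- exponent of `w` in the product -/
private def lacA (e S : ℕ) (k : Fin S × Bool → ℕ) : ℕ :=
  ∑ p : Fin S × Bool, (if p.2 then (lam e S + lam e p.1) / 2 else (lam e S - lam e p.1) / 2) * k p

private def lacB (e S : ℕ) (k : Fin S × Bool → ℕ) : ℕ :=
  ∑ p : Fin S × Bool, (if p.2 then (lam e S - lam e p.1) / 2 else (lam e S + lam e p.1) / 2) * k p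

private theorem lac_prod {K : Type*} [Field K] (e S : ℕ) (w : Cx K) (k : Fin S × Bool → ℕ) :
    ∏ p, lacM e S w p ^ k p = w ^ lacA e S k * star w ^ lacB e S k := by
  rw [lacA, lacB, ← Finset.prod_pow_eq_pow_sum, ← Finset.prod_pow_eq_pow_sum,
    ← Finset.prod_mul_distrib]
  refine Finset.prod_congr rfl fun p _ => ?_
  obtain ⟨j, c⟩ := p
  cases c <;> simp [lacM, mul_pow, ← pow_mul]

private theorem lac_add (e S : ℕ) (k : Fin S × Bool → ℕ) (hk : ∑ p, k p = 2 * e) :
    lacA e S k + lacB e S k = 2 * e * lam e S := by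
  rw [lacA, lacB, ← Finset.sum_add_distrib, ← hk, Finset.sum_mul]
  refine Finset.sum_congr rfl fun p _ => ?_
  obtain ⟨j, c⟩ := p
  have h1 := lac_odd e S
  have h2 := lac_odd e j
  have h3 : lam e j ≤ lam e S := lac_mono e j.2.le
  have h4 : (lam e S + lam e j) / 2 + (lam e S - lam e j) / 2 = lam e S := by omega
  cases c
  · simp only [Bool.false_eq_true, if_false]
    rw [← add_mul, add_comm ((lam e S - lam e j) / 2), h4]; ring
  · simp only [if_true]
    rw [← add_mul, h4]; ring

private theorem lac_bal (e S : ℕ) (k : Fin S × Bool → ℕ) (hk : ∑ p, k p = 2 * e) :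
    lacA e S k = lacB e S k ↔ ∀ j, k (j, true) = k (j, false) := by
  have key : lacA e S k + ∑ j : Fin S, lam e j * k (j, false) =
      lacB e S k + ∑ j : Fin S, lam e j * k (j, true) := by
    rw [lacA, lacB, Fintype.sum_prod_type, Fintype.sum_prod_type, ← Finset.sum_add_distrib,
      ← Finset.sum_add_distrib]
    refine Finset.sum_congr rfl fun j _ => ?_
    simp only [Fintype.sum_bool, if_true, Bool.false_eq_true, if_false]
    have h1 := lac_odd e S
    have h2 := lac_odd e j
    have h3 : lam e j ≤ lam e S := lac_mono e j.2.le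
    have h4 : (lam e S + lam e j) / 2 = (lam e S - lam e j) / 2 + lam e j := by omega
    rw [h4]; ring
  constructor
  · intro h
    rw [h] at key
    have key2 := (Nat.add_left_cancel key).symm
    have hle : ∀ p, k p < 4 * e + 1 := by
      intro p
      have := Finset.single_le_sum (f := k) (fun _ _ => Nat.zero_le _) (Finset.mem_univ p)
      omega
    have := lac_digits (4 * e + 1) S (fun j => k (j, true)) (fun j => k (j, false))
      (fun j => hle _) (fun j => hle _) key2
    exact fun j => congrFun this j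
  · intro h
    have : ∑ j : Fin S, lam e j * k (j, false) = ∑ j : Fin S, lam e j * k (j, true) :=
      Finset.sum_congr rfl fun j _ => by rw [h j]
    rw [this] at key
    exact Nat.add_right_cancel key

/-- the coefficient of the term `k` -/
private noncomputable def lacC {K : Type*} [Field K] {S : ℕ} (x : Fin S → K)
    (k : Fin S × Bool → ℕ) : K :=
  (Nat.multinomial Finset.univ k : K) * ∏ p : Fin S × Bool, x p.1 ^ k p

private theorem lac_expand {K : Type*} [Field K] (e S : ℕ) (w : Cx K) (x : Fin S → K) :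
    algebraMap K (Cx K) ((2 * ∑ j : Fin S, x j * gre (lam e S) (lam e j) w) ^ (2 * e)) =
      ∑ k ∈ Finset.piAntidiag (Finset.univ : Finset (Fin S × Bool)) (2 * e),
        lacC x k • (w ^ lacA e S k * star w ^ lacB e S k) := by
  have h1 : algebraMap K (Cx K) (2 * ∑ j : Fin S, x j * gre (lam e S) (lam e j) w) =
      ∑ p : Fin S × Bool, algebraMap K (Cx K) (x p.1) * lacM e S w p := by
    rw [Fintype.sum_prod_type, Finset.mul_sum, map_sum]
    refine Finset.sum_congr rfl fun j _ => ?_
    rw [Fintype.sum_bool, ← mul_add, ← lac_gre, ← map_mul]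
    congr 1
    ring
  rw [map_pow, h1, Finset.sum_pow_eq_sum_piAntidiag]
  refine Finset.sum_congr rfl fun k _ => ?_
  rw [← lac_prod, lacC, Algebra.smul_def, map_mul, map_natCast, map_prod, mul_assoc,
    ← Finset.prod_mul_distrib]
  congr 1
  refine Finset.prod_congr rfl fun p _ => ?_
  rw [mul_pow, map_pow]

private theorem lac_coef {K : Type*} [Field K] [CharZero K] (e S : ℕ) (x : Fin S → K)
    (α : Fin S → ℕ) (hα : ∑ j, α j = e) :
    lacC x (fun p : Fin S × Bool => α p.1) =
      ((2 * e).factorial : K) * ∏ j, (x j ^ 2) ^ α j / ((α j).factorial : K) ^ 2 := by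
  have h1 : (∏ p : Fin S × Bool, (α p.1).factorial) *
      Nat.multinomial Finset.univ (fun p : Fin S × Bool => α p.1) = (2 * e).factorial := by
    have := Nat.multinomial_spec (Finset.univ : Finset (Fin S × Bool)) (fun p => α p.1)
    rw [this]
    congr 1
    rw [Fintype.sum_prod_type]
    simp only [Fintype.sum_bool]
    rw [Finset.sum_add_distrib, hα]; ring
  have h2 : (∏ p : Fin S × Bool, (α p.1).factorial) = ∏ j, (α j).factorial ^ 2 := by
    rw [Fintype.prod_prod_type]
    refine Finset.prod_congr rfl fun j _ => ?_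
    simp only [Fintype.prod_bool]
    rw [sq]
  have h3 : ∏ p : Fin S × Bool, x p.1 ^ α p.1 = ∏ j, (x j ^ 2) ^ α j := by
    rw [Fintype.prod_prod_type]
    refine Finset.prod_congr rfl fun j _ => ?_
    simp only [Fintype.prod_bool]
    ring
  have h4 : (∏ j, ((α j).factorial : K) ^ 2) ≠ 0 := by
    refine Finset.prod_ne_zero_iff.2 fun j _ => ?_
    exact pow_ne_zero _ (Nat.cast_ne_zero.2 (Nat.factorial_ne_zero _))
  rw [lacC, h3, ← h1, h2, Finset.prod_div_distrib]
  push_cast
  field_simp

/-- Row L1: only the balanced terms survive.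
Proof. `gre q l w = (w^((q+l)/2) conj(w)^((q-l)/2) + conj) / 2`. Expand
`(∑_j x_j (A_j + B_j))^(2e)` by the multinomial and the binomial theorem:
`∑_κ multinomial(κ) ∏ x_j^(κ_j) ∏_j ∑_(i_j) C(κ_j, i_j) A_j^(i_j) B_j^(κ_j - i_j)`, where the product of
the `A`, `B` is `w^a conj(w)^b`, `a + b = 2 e q`, `a - b = ∑_j (2 i_j - κ_j) λ_j`. By `h` only terms
with `a = b` survive; `|2 i_j - κ_j| ≤ 2 e` and `λ_j = (4e+1)^j` give `2 i_j = κ_j` for all `j`. For
`κ = 2 α` the coefficient is `(2e)! / ∏ (2α_j)! * ∏ C(2α_j, α_j) = (2e)! / ∏ (α_j!)²`. -/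
theorem lac {K : Type*} [Field K] [CharZero K] (e S s : ℕ) (γ : Fin s → K) (w : Fin s → Cx K)
    (h : ∀ a b, a + b = 2 * e * lam e S → a ≠ b →
      ∑ l, γ l • (w l ^ a * star (w l) ^ b) = 0) (x : Fin S → K) :
    ∑ l, γ l * (∑ j : Fin S, x j * gre (lam e S) (lam e j) (w l)) ^ (2 * e) =
      ((2 * e).factorial : K) / 4 ^ e *
        (∑ l, γ l * (w l).norm ^ (e * lam e S)) * He e (fun j => x j ^ 2) := by
  have h4 : (4 : K) ^ e ≠ 0 := pow_ne_zero _ (by norm_num)
  have hinj : Function.Injective (algebraMap K (Cx K)) := by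
    intro a b hab
    have := congrArg QuadraticAlgebra.re hab
    simpa using this
  have main : (4 : K) ^ e * ∑ l, γ l * (∑ j : Fin S, x j * gre (lam e S) (lam e j) (w l)) ^ (2 * e) =
      ((2 * e).factorial : K) * (∑ l, γ l * (w l).norm ^ (e * lam e S)) *
        He e (fun j => x j ^ 2) := by
    apply hinj
    have e1 : algebraMap K (Cx K) ((4 : K) ^ e *
        ∑ l, γ l * (∑ j : Fin S, x j * gre (lam e S) (lam e j) (w l)) ^ (2 * e)) =
        ∑ l, γ l • algebraMap K (Cx K)
          ((2 * ∑ j : Fin S, x j * gre (lam e S) (lam e j) (w l)) ^ (2 * e)) := by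
      rw [Finset.mul_sum, map_sum]
      refine Finset.sum_congr rfl fun l _ => ?_
      rw [Algebra.smul_def, ← map_mul, mul_pow, pow_mul 2 2 e]
      congr 1
      norm_num
      ring
    rw [e1]
    simp only [lac_expand, Finset.smul_sum]
    rw [Finset.sum_comm]
    have e2 : ∀ k ∈ Finset.piAntidiag (Finset.univ : Finset (Fin S × Bool)) (2 * e),
        ∑ l, γ l • lacC x k • (w l ^ lacA e S k * star (w l) ^ lacB e S k) =
        if (∀ j, k (j, true) = k (j, false)) then
          algebraMap K (Cx K) (lacC x k * ∑ l, γ l * (w l).norm ^ (e * lam e S)) else 0 := by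
      intro k hk
      rw [Finset.mem_piAntidiag] at hk
      have hk1 : ∑ p, k p = 2 * e := hk.1
      have hc : ∑ l, γ l • lacC x k • (w l ^ lacA e S k * star (w l) ^ lacB e S k) =
          lacC x k • ∑ l, γ l • (w l ^ lacA e S k * star (w l) ^ lacB e S k) := by
        rw [Finset.smul_sum]
        refine Finset.sum_congr rfl fun l _ => ?_
        rw [smul_comm]
      rw [hc]
      split_ifs with hb
      · have hAB := (lac_bal e S k hk1).2 hb
        have hA : lacA e S k = e * lam e S := by
          have := lac_add e S k hk1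
          rw [← hAB] at this
          have h2 : 2 * lacA e S k = 2 * (e * lam e S) := by rw [two_mul, this]; ring
          omega
        rw [← hAB, hA, Algebra.smul_def, map_mul, map_sum]
        congr 1
        refine Finset.sum_congr rfl fun l _ => ?_
        rw [Algebra.smul_def, map_mul, map_pow, QuadraticAlgebra.algebraMap_norm_eq_mul_star,
          mul_pow]
      · have hAB : lacA e S k ≠ lacB e S k := fun hh => hb ((lac_bal e S k hk1).1 hh)
        rw [h _ _ (lac_add e S k hk1) hAB, smul_zero]
    rw [Finset.sum_congr rfl e2, ← Finset.sum_filter, ← map_sum, ← Finset.sum_mul]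
    congr 1
    have e3 : ∑ k ∈ (Finset.piAntidiag (Finset.univ : Finset (Fin S × Bool)) (2 * e)).filter
        (fun k => ∀ j, k (j, true) = k (j, false)), lacC x k =
        ((2 * e).factorial : K) * He e (fun j => x j ^ 2) := by
      rw [He, Finset.mul_sum]
      symm
      refine Finset.sum_bij (fun α _ => fun p : Fin S × Bool => α p.1) ?_ ?_ ?_ ?_
      · intro α hα
        rw [Finset.mem_piAntidiag] at hα
        rw [Finset.mem_filter, Finset.mem_piAntidiag]
        refine ⟨⟨?_, fun _ _ => Finset.mem_univ _⟩, fun j => rfl⟩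
        rw [Fintype.sum_prod_type]
        simp only [Fintype.sum_bool]
        rw [Finset.sum_add_distrib, hα.1]; ring
      · intro α _ β _ hab
        funext j
        exact congrFun hab (j, true)
      · intro k hk
        rw [Finset.mem_filter, Finset.mem_piAntidiag] at hk
        refine ⟨fun j => k (j, true), ?_, ?_⟩
        · rw [Finset.mem_piAntidiag]
          refine ⟨?_, fun _ _ => Finset.mem_univ _⟩
          have h5 := hk.1.1
          rw [Fintype.sum_prod_type] at h5
          simp only [Fintype.sum_bool] at h5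
          rw [Finset.sum_add_distrib] at h5
          have h6 : ∑ j : Fin S, k (j, false) = ∑ j : Fin S, k (j, true) :=
            Finset.sum_congr rfl fun j _ => (hk.2 j).symm
          rw [h6] at h5
          omega
        · funext p
          obtain ⟨j, c⟩ := p
          cases c
          · exact hk.2 j
          · rfl
      · intro α hα
        rw [Finset.mem_piAntidiag] at hα
        exact (lac_coef e S x α hα.1).symm
    rw [e3]; ring
  field_simp
  rw [mul_comm _ ((4 : K) ^ e)] 
  linear_combination main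

end LW
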