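import Pool.Agent.Lib.LW.Odd
import Pool.Agent.Lib.LW.Gen
import Pool.Agent.Lib.LW.Cst

/-!
Row E1 (block lemma), row E2 (even degrees).
-/

namespace LW

/-- Row E1: block lemma. `s = r (D + 1) D^n + 1` with `D = 2 e lam e (m S)`.
Proof. `Circ` for `γ` gives `w`. Let `γ' ρ = ∑ l, γ l ρ N(w l)^(D/2)`. If `γ' = 0` then all moments
vanish (also the middle ones), and `re_im_of_moments` gives a zero: `z l = (re w l)^q` or
`(im w l)^q`, `q = lam e (m S)`, `D = 2 e q`; one of them is `≠ 0`. If `γ' ≠ 0` take for `y`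
the vector `x` indexed by `Fin (m * S) ≃ Fin m × Fin S`, `x (i, k) = y_i b_k`, and
`z l = ∑ j, x j gre ... (w l)`. By `lac` and `He_eq`
(power sums of `x²`: `∑_i y_i^(2r) ∑_k b_k^(2r)`) the value is
`(2e)!/4^e γ' (β ∑ y_i²)^e / e!`, `β = ∑ b_k²`; `γ'' = (2e)!/(4^e e!) β^e γ' ≠ 0`. -/
theorem block (n e r S m : ℕ) (he : 1 ≤ e) : ∃ s : ℕ, ∀ (K : Type) [Field K] [CharZero K],
    Circ K n → (∃ b : Fin S → K, ∑ k, b k ^ 2 ≠ 0 ∧
      ∀ r, 2 ≤ r → r ≤ e → ∑ k, b k ^ (2 * r) = 0) →
    ∀ γ : Fin s → Fin r → K,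
      (∃ z : Fin s → K, z ≠ 0 ∧ ∀ ρ, ∑ l, γ l ρ * z l ^ (2 * e) = 0) ∨
      ∃ γ'' : Fin r → K, γ'' ≠ 0 ∧ ∀ y : Fin m → K, ∃ z : Fin s → K,
        ∀ ρ, ∑ l, γ l ρ * z l ^ (2 * e) = γ'' ρ * (∑ i, y i ^ 2) ^ e := by
  refine ⟨r * (2 * e * lam e (m * S) + 1) * (2 * e * lam e (m * S)) ^ n + 1, ?_⟩
  intro K _ _ hC hb γ
  obtain ⟨b, hb1, hb2⟩ := hb
  obtain ⟨w, hw, h⟩ := hC (2 * e * lam e (m * S)) r _ γ (Nat.lt_succ_self _)
  by_cases hγ : (fun ρ => ∑ l, γ l ρ * (w l).norm ^ (e * lam e (m * S))) = 0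
  · left
    have hm : ∀ ρ, ∀ a b, a + b = 2 * e * lam e (m * S) →
        ∑ l, γ l ρ • (w l ^ a * star (w l) ^ b) = 0 := by
      intro ρ a b hab
      by_cases hne : a = b
      · subst hne
        have ha : a = e * lam e (m * S) := by
          have h2 : 2 * a = 2 * (e * lam e (m * S)) := by rw [two_mul, hab]; ring
          omega
        have h3 : ∑ l, γ l ρ • (w l ^ a * star (w l) ^ a) =
            algebraMap K (Cx K) (∑ l, γ l ρ * (w l).norm ^ (e * lam e (m * S))) := by
          rw [map_sum]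
          refine Finset.sum_congr rfl fun l _ => ?_
          rw [Algebra.smul_def, map_mul, map_pow, QuadraticAlgebra.algebraMap_norm_eq_mul_star,
            mul_pow, ha]
        have h4 := congrFun hγ ρ
        simp only [Pi.zero_apply] at h4
        rw [h3, h4, map_zero]
      · exact h ρ a b hab hne
    have hri := fun ρ => re_im_of_moments (2 * e * lam e (m * S)) (fun l => γ l ρ) w (hm ρ)
    have hq : lam e (m * S) ≠ 0 := by
      unfold lam
      exact pow_ne_zero _ (by omega)
    obtain ⟨l₀, hl₀⟩ := Function.ne_iff.1 hw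
    have hpw : ∀ u : K, (u ^ lam e (m * S)) ^ (2 * e) = u ^ (2 * e * lam e (m * S)) := by
      intro u
      rw [← pow_mul, mul_comm]
    by_cases hre : (w l₀).re = 0
    · have him : (w l₀).im ≠ 0 := by
        intro him
        apply hl₀
        ext
        · simpa using hre
        · simpa using him
      refine ⟨fun l => (w l).im ^ lam e (m * S), ?_, fun ρ => ?_⟩
      · intro h0
        exact him (pow_eq_zero_iff hq |>.1 (congrFun h0 l₀))
      · simp only [hpw]
        exact (hri ρ).2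
    · refine ⟨fun l => (w l).re ^ lam e (m * S), ?_, fun ρ => ?_⟩
      · intro h0
        exact hre (pow_eq_zero_iff hq |>.1 (congrFun h0 l₀))
      · simp only [hpw]
        exact (hri ρ).1
  · right
    refine ⟨fun ρ => (((2 * e).factorial : K) / 4 ^ e / (e.factorial : K) * (∑ k, b k ^ 2) ^ e) *
      ∑ l, γ l ρ * (w l).norm ^ (e * lam e (m * S)), ?_, ?_⟩
    · intro h0
      apply hγ
      funext ρ
      have h1 := congrFun h0 ρ
      simp only [Pi.zero_apply] at h1 ⊢
      rcases mul_eq_zero.1 h1 with h2 | h2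
      · exfalso
        have h3 : ((2 * e).factorial : K) ≠ 0 := Nat.cast_ne_zero.2 (Nat.factorial_ne_zero _)
        have h4 : (e.factorial : K) ≠ 0 := Nat.cast_ne_zero.2 (Nat.factorial_ne_zero _)
        have h5 : (4 : K) ^ e ≠ 0 := pow_ne_zero _ (by norm_num)
        exact (mul_ne_zero (div_ne_zero (div_ne_zero h3 h5) h4) (pow_ne_zero _ hb1)) h2
      · exact h2
    · intro y
      have hsum : ∀ t : ℕ, ∑ j : Fin (m * S),
          (y (finProdFinEquiv.symm j).1 * b (finProdFinEquiv.symm j).2) ^ t =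
          (∑ i, y i ^ t) * ∑ k, b k ^ t := by
        intro t
        rw [← Equiv.sum_comp (finProdFinEquiv (m := m) (n := S))
          (fun j : Fin (m * S) =>
            (y (finProdFinEquiv.symm j).1 * b (finProdFinEquiv.symm j).2) ^ t)]
        simp only [Equiv.symm_apply_apply]
        rw [Fintype.sum_prod_type, Finset.sum_mul]
        refine Finset.sum_congr rfl fun i _ => ?_
        rw [Finset.mul_sum]
        refine Finset.sum_congr rfl fun k _ => ?_
        rw [mul_pow]
      refine ⟨fun l => ∑ j : Fin (m * S),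
        (y (finProdFinEquiv.symm j).1 * b (finProdFinEquiv.symm j).2) *
          gre (lam e (m * S)) (lam e j) (w l), fun ρ => ?_⟩
      simp only
      rw [lac e (m * S) _ (fun l => γ l ρ) w (h ρ), He_eq]
      · have h2 := hsum 2
        rw [h2]
        generalize (∑ l, γ l ρ * (w l).norm ^ (e * lam e (m * S))) = G
        rw [mul_pow (∑ i, y i ^ 2)]
        ring
      · intro t ht hte
        have h3 := hsum (2 * t)
        rw [hb2 t ht hte, mul_zero] at h3
        rw [← h3]
        refine Finset.sum_congr rfl fun j _ => ?_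
        rw [← pow_mul]

private theorem E2_ev {K : Type*} [CommRing K] {R : ℕ} (g : Fin R → K) (e : ℕ)
    (x : Fin R → K) :
    ev (fun τ : Fin e → Fin R => ∑ j, g j * ∏ i, (if τ i = j then (1 : K) else 0)) x =
      ∑ j, g j * x j ^ e := by
  unfold ev
  simp only [Finset.sum_mul]
  rw [Finset.sum_comm]
  refine Finset.sum_congr rfl fun j _ => ?_
  have h1 : x j = ∑ i, (if i = j then (1 : K) else 0) * x i := by
    simp
  rw [h1, Fintype.sum_pow, Finset.mul_sum]
  refine Finset.sum_congr rfl fun τ _ => ?_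
  rw [Finset.prod_mul_distrib, mul_assoc]

private theorem E2_sum {K : Type*} [CommRing K] {R s₁ r : ℕ} (γ : Fin (R * s₁) → Fin r → K)
    (ρ : Fin r) (z : Fin R → Fin s₁ → K) (d : ℕ) :
    ∑ i, γ i ρ * z (finProdFinEquiv.symm i).1 (finProdFinEquiv.symm i).2 ^ d =
      ∑ j, ∑ l, γ (finProdFinEquiv (j, l)) ρ * z j l ^ d := by
  rw [← finProdFinEquiv.sum_comp, Fintype.sum_prod_type]
  refine Finset.sum_congr rfl fun j _ => Finset.sum_congr rfl fun l _ => ?_
  rw [Equiv.symm_apply_apply]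

/-- Row E2: even degrees. `s = R * s₁`, `s₁` from `block` with `m = s₀ + 1`.
Proof. Cut the variables into `R` blocks of length `s₁`. If one block has a zero, done (other
coordinates 0). Otherwise block `j` gives `γ''_j ≠ 0`. By `Iso K e r R` there are `n_j`, not all
`0`, with `∑_j γ''_j ρ n_j^e = 0` for all `ρ`. By `sum_sq_univ` choose `y_j` with `∑ (y_j)_i² = n_j`, and
`z` in block `j` from `y_j`. The value is `∑_j γ''_j n_j^e = 0`, and `z ≠ 0`: for `j` with
`n_j ≠ 0` the contribution of block `j` is `γ''_j n_j^e ≠ 0`. -/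
theorem even_diag (n s₀ e r N R : ℕ) (he : 1 ≤ e) : ∃ s : ℕ, ∀ (K : Type) [Field K]
    [Algebra ℝ K], Circ K n → Lev K s₀ → Iso K (2 * e - 1) e N → Iso K e r R →
      DiagIso K (2 * e) r s := by
  classical
  obtain ⟨S, hS⟩ := exists_const e N he
  obtain ⟨s₁, h₁⟩ := block n e r S (s₀ + 1) he
  refine ⟨R * s₁, ?_⟩
  intro K _ _ hC hL hN hR γ
  have hK : CharZero K := charZero_of_injective_algebraMap (algebraMap ℝ K).injective
  have hb := hS K hN
  have h2e : 2 * e ≠ 0 := by omega
  by_cases hz : ∃ j : Fin R, ∃ z : Fin s₁ → K, z ≠ 0 ∧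
      ∀ ρ, ∑ l, γ (finProdFinEquiv (j, l)) ρ * z l ^ (2 * e) = 0
  · obtain ⟨j, z, hz0, hz1⟩ := hz
    obtain ⟨l, hl⟩ := Function.ne_iff.1 hz0
    let Z : Fin R → Fin s₁ → K := fun j' l => if j' = j then z l else 0
    refine ⟨fun i => Z (finProdFinEquiv.symm i).1 (finProdFinEquiv.symm i).2, ?_, ?_⟩
    · intro h0
      apply hl
      have := congrFun h0 (finProdFinEquiv (j, l))
      simp only [Equiv.symm_apply_apply, Z, if_true] at this
      exact this
    · intro ρ
      rw [E2_sum γ ρ Z (2 * e)]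
      refine Finset.sum_eq_zero fun j' _ => ?_
      by_cases hj : j' = j
      · subst hj
        simp only [Z, if_true]
        exact hz1 ρ
      · simp only [Z, if_neg hj]
        refine Finset.sum_eq_zero fun l _ => ?_
        rw [zero_pow h2e, mul_zero]
  · push Not at hz
    have hblk : ∀ j : Fin R, ∃ γ'' : Fin r → K, γ'' ≠ 0 ∧ ∀ y : Fin (s₀ + 1) → K,
        ∃ z : Fin s₁ → K, ∀ ρ, ∑ l, γ (finProdFinEquiv (j, l)) ρ * z l ^ (2 * e) =
          γ'' ρ * (∑ i, y i ^ 2) ^ e := by
      intro j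
      rcases h₁ K hC hb (fun l => γ (finProdFinEquiv (j, l))) with ⟨z, hz0, hz1⟩ | h
      · obtain ⟨ρ, hρ⟩ := hz j z hz0
        exact absurd (hz1 ρ) hρ
      · exact h
    choose g hg0 hg using hblk
    obtain ⟨ν, hν0, hν⟩ := hR R le_rfl (fun _ => e)
      (fun ρ τ => ∑ j, g j ρ * ∏ i, (if τ i = j then (1 : K) else 0)) (fun _ => ⟨he, le_rfl⟩)
    have hν' : ∀ ρ, ∑ j, g j ρ * ν j ^ e = 0 := by
      intro ρ
      rw [← E2_ev (fun j => g j ρ) e ν]
      exact hν ρ
    choose y hy using fun j => sum_sq_univ hL (ν j)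
    choose z hz' using fun j => hg j (y j)
    refine ⟨fun i => z (finProdFinEquiv.symm i).1 (finProdFinEquiv.symm i).2, ?_, ?_⟩
    · intro h0
      apply hν0
      funext j
      by_contra hj
      apply hg0 j
      funext ρ
      have h1 := hz' j ρ
      have h2 : ∀ l, z j l = 0 := by
        intro l
        have := congrFun h0 (finProdFinEquiv (j, l))
        simp only [Equiv.symm_apply_apply] at this
        exact this
      rw [hy j] at h1
      have h3 : ∑ l, γ (finProdFinEquiv (j, l)) ρ * z j l ^ (2 * e) = 0 :=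
        Finset.sum_eq_zero fun l _ => by rw [h2 l, zero_pow h2e, mul_zero]
      rw [h3] at h1
      rcases mul_eq_zero.1 h1.symm with h4 | h4
      · exact h4
      · exact absurd ((pow_eq_zero_iff (by omega)).1 h4) hj
    · intro ρ
      rw [E2_sum γ ρ z (2 * e), ← hν' ρ]
      refine Finset.sum_congr rfl fun j _ => ?_
      rw [hz' j ρ, hy j]

end LW
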