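import Pool.Agent.Lib.LW.Defs

/-!
Row P1 (polar forms), row P2 (Brauer's diagonalisation).
-/

namespace LW

/-- Row P1: a multilinear expression in which the argument `x` occurs at the places `A` and other
fixed vectors `y i` at the other places is a form of degree `A.card` in `x`; at the same time the
vector `x` is extended by zero from the variables `Fin B` along `f`.
Proof. `c' τ' = ∑ τ, (if ∀ i ∈ A, τ i = f (τ' (index of i in A)) then c τ * ∏ i ∉ A, y i (τ i) else 0)`,
with the order isomorphism `A.orderIsoOfFin rfl : Fin A.card ≃o A`. -/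
theorem polar {K : Type*} [Field K] {m B d : ℕ} (c : (Fin d → Fin m) → K)
    (A : Finset (Fin d)) (y : Fin d → Fin m → K) (f : Fin B → Fin m)
    (hf : Function.Injective f) :
    ∃ c' : (Fin A.card → Fin B) → K, ∀ (x : Fin B → K) (X : Fin m → K),
      (∀ i, X (f i) = x i) → (∀ k, (∀ i, f i ≠ k) → X k = 0) →
      ∑ τ : Fin d → Fin m, c τ * ∏ i, (if i ∈ A then X (τ i) else y i (τ i)) = ev c' x := by
  classical
  let o : Fin A.card ≃ A := (A.orderIsoOfFin rfl).toEquiv
  refine ⟨fun τ' => ∑ τ : Fin d → Fin m, if (∀ j, τ (o j) = f (τ' j)) then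
    c τ * ∏ i ∈ Aᶜ, y i (τ i) else 0, fun x X h1 h2 => ?_⟩
  have hX : ∀ k, ∑ b, (if k = f b then x b else 0) = X k := by
    intro k
    by_cases hk : ∃ b, f b = k
    · obtain ⟨b, rfl⟩ := hk
      rw [Finset.sum_eq_single b]
      · rw [if_pos rfl, h1]
      · intro b' _ hb'
        rw [if_neg]
        intro h
        exact hb' (hf h).symm
      · intro h
        exact absurd (Finset.mem_univ b) h
    · push Not at hk
      rw [h2 k hk, Finset.sum_eq_zero]
      intro b _
      exact if_neg fun h => hk b h.symm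
  unfold ev
  simp only [Finset.sum_mul]
  rw [Finset.sum_comm]
  refine Finset.sum_congr rfl fun τ _ => ?_
  have e1 : ∏ i, (if i ∈ A then X (τ i) else y i (τ i)) =
      (∏ i ∈ A, X (τ i)) * ∏ i ∈ Aᶜ, y i (τ i) := by
    rw [← Finset.prod_mul_prod_compl A]
    congr 1
    · exact Finset.prod_congr rfl fun i hi => if_pos hi
    · exact Finset.prod_congr rfl fun i hi => if_neg (Finset.mem_compl.1 hi)
  have e2 : ∏ i ∈ A, X (τ i) = ∑ τ' : Fin A.card → Fin B,
      if (∀ j, τ (o j) = f (τ' j)) then ∏ j, x (τ' j) else 0 := by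
    rw [← Finset.prod_coe_sort A fun i => X (τ i), ← Equiv.prod_comp o]
    simp only [← hX]
    rw [Finset.prod_univ_sum, Fintype.piFinset_univ]
    refine Finset.sum_congr rfl fun τ' _ => ?_
    rw [Finset.prod_ite_zero]
    simp
  rw [e1, e2, Finset.sum_mul, Finset.mul_sum]
  refine Finset.sum_congr rfl fun τ' _ => ?_
  split_ifs
  · ring
  · ring

/-- The coefficient of `∏ i, z (κ i)` in the value of the form `c` at `∑ j, z j * E j`. -/
private def P2F {K : Type} [Field K] {m e s : ℕ} (c : (Fin e → Fin m) → K)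
    (E : Fin s → Fin m → K) (κ : Fin e → Fin s) : K :=
  ∑ τ : Fin e → Fin m, c τ * ∏ i, E (κ i) (τ i)

private theorem P2_ev {K : Type} [Field K] {m e s : ℕ} (c : (Fin e → Fin m) → K)
    (E : Fin s → Fin m → K) (z : Fin s → K) :
    ev c (fun k => ∑ j, z j * E j k) = ∑ κ : Fin e → Fin s, (∏ i, z (κ i)) * P2F c E κ := by
  unfold ev P2F
  have h1 : ∀ τ : Fin e → Fin m, c τ * ∏ i, ∑ j, z j * E j (τ i) =
      ∑ κ : Fin e → Fin s, (∏ i, z (κ i)) * (c τ * ∏ i, E (κ i) (τ i)) := by
    intro τ
    rw [Finset.prod_univ_sum, Fintype.piFinset_univ, Finset.mul_sum]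
    refine Finset.sum_congr rfl fun κ _ => ?_
    rw [Finset.prod_mul_distrib]
    ring
  rw [Finset.sum_congr rfl fun τ _ => h1 τ, Finset.sum_comm]
  refine Finset.sum_congr rfl fun κ _ => ?_
  rw [Finset.mul_sum]

private theorem P2_step {K : Type} [Field K] {m B d r s R : ℕ}
    (hB : ∀ r' ≤ R, Iso K (d - 1) r' B) (deg : Fin r → ℕ)
    (c : ∀ ρ, (Fin (deg ρ) → Fin m) → K) (hdeg : ∀ ρ, 1 ≤ deg ρ ∧ deg ρ ≤ d)
    (f : Fin s → Fin B → Fin m) (hf : ∀ j, Function.Injective (f j)) (hR : r * (s + 1) ^ d ≤ R)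
    (j : ℕ) (hj : j ≤ s) :
    ∃ E : Fin s → Fin m → K,
      (∀ i : Fin s, (i : ℕ) < j → E i ≠ 0 ∧ ∀ k, (∀ b, f i b ≠ k) → E i k = 0) ∧
      ∀ ρ (κ : Fin (deg ρ) → Fin s), (∀ i, (κ i : ℕ) < j) →
        ¬ (deg ρ = d ∧ ∀ i i', κ i = κ i') → P2F (c ρ) E κ = 0 := by
  classical
  induction j with
  | zero =>
    refine ⟨0, fun i hi => absurd hi (Nat.not_lt_zero _), fun ρ κ hκ => ?_⟩
    exact absurd (hκ ⟨0, (hdeg ρ).1⟩) (Nat.not_lt_zero _)
  | succ j ih =>
    obtain ⟨E, hE1, hE2⟩ := ih (by omega)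
    set J : Fin s := ⟨j, by omega⟩ with hJ
    let Cond : Type := {q : Σ ρ : Fin r, (Fin (deg ρ) → Fin s) //
      (∀ i, (q.2 i : ℕ) < j + 1) ∧ (∃ i, q.2 i = J) ∧ ¬ (deg q.1 = d ∧ ∀ i i', q.2 i = q.2 i')}
    have hcard : Fintype.card Cond ≤ R := by
      refine (Fintype.card_subtype_le _).trans (le_trans ?_ hR)
      rw [Fintype.card_sigma]
      calc ∑ ρ : Fin r, Fintype.card (Fin (deg ρ) → Fin s)
          ≤ ∑ _ρ : Fin r, (s + 1) ^ d := by
            refine Finset.sum_le_sum fun ρ _ => ?_
            rw [Fintype.card_fun, Fintype.card_fin, Fintype.card_fin]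
            exact (Nat.pow_le_pow_left (Nat.le_succ s) _).trans
              (Nat.pow_le_pow_right (Nat.succ_pos s) (hdeg ρ).2)
        _ = r * (s + 1) ^ d := by
            rw [Finset.sum_const, Finset.card_univ, Fintype.card_fin, smul_eq_mul]
    let A : ∀ q : Cond, Finset (Fin (deg q.1.1)) := fun q => Finset.univ.filter fun i => q.1.2 i = J
    have hpol := fun q : Cond => polar (c q.1.1) (A q) (fun i => E (q.1.2 i)) (f J) (hf J)
    choose c' hc' using hpol
    let e := Fintype.equivFin Cond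
    have hA : ∀ q : Cond, 1 ≤ (A q).card ∧ (A q).card ≤ d - 1 := by
      intro q
      obtain ⟨i, hi⟩ := q.2.2.1
      refine ⟨Finset.card_pos.2 ⟨i, by simp [A, hi]⟩, ?_⟩
      have h1 : (A q).card ≤ deg q.1.1 := by
        simpa using Finset.card_le_univ (A q)
      have h2 := (hdeg q.1.1).2
      by_contra hcon
      have h3 : (A q).card = deg q.1.1 := by omega
      have h4 : A q = Finset.univ := by
        rw [← Finset.card_eq_iff_eq_univ, h3, Fintype.card_fin]
      have h5 : ∀ i, q.1.2 i = J := by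
        intro i
        have : i ∈ A q := by rw [h4]; exact Finset.mem_univ i
        simpa [A] using this
      exact q.2.2.2 ⟨by omega, fun i i' => by rw [h5 i, h5 i']⟩
    obtain ⟨x, hx, hx0⟩ := hB _ hcard B le_rfl (fun t => (A (e.symm t)).card)
      (fun t => c' (e.symm t)) (fun t => hA _)
    set X : Fin m → K := Function.extend (f J) x 0 with hX
    have hX1 : ∀ b, X (f J b) = x b := fun b => (hf J).extend_apply _ _ _
    have hX2 : ∀ k, (∀ b, f J b ≠ k) → X k = 0 := fun k hk => by
      rw [hX, Function.extend_apply' _ _ _ (by rintro ⟨b, hb⟩; exact hk b hb)]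
      rfl
    refine ⟨Function.update E J X, fun i hi => ?_, fun ρ κ hκ hn => ?_⟩
    · by_cases hiJ : i = J
      · subst hiJ
        rw [Function.update_self]
        refine ⟨fun h0 => hx ?_, hX2⟩
        funext b
        rw [← hX1 b, h0]
        rfl
      · rw [Function.update_of_ne hiJ]
        refine hE1 i ?_
        have : (i : ℕ) ≠ j := fun h => hiJ (Fin.ext h)
        omega
    · by_cases hex : ∃ i, κ i = J
      · have h1 := hc' ⟨⟨ρ, κ⟩, hκ, hex, hn⟩ x X hX1 hX2
        have h2 := hx0 (e ⟨⟨ρ, κ⟩, hκ, hex, hn⟩)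
        rw [Equiv.symm_apply_apply] at h2
        rw [h2] at h1
        rw [← h1]
        unfold P2F
        refine Finset.sum_congr rfl fun τ _ => ?_
        congr 1
        refine Finset.prod_congr rfl fun i _ => ?_
        by_cases hi : κ i = J
        · rw [hi, Function.update_self, if_pos (by simp [A, hi])]
        · rw [Function.update_of_ne hi, if_neg (by simp [A, hi])]
      · push Not at hex
        rw [← hE2 ρ κ (fun i => by
          have h1 := hκ i
          have h2 : (κ i : ℕ) ≠ j := fun h => hex i (Fin.ext h)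
          omega) hn]
        unfold P2F
        refine Finset.sum_congr rfl fun τ _ => ?_
        congr 1
        refine Finset.prod_congr rfl fun i _ => ?_
        rw [Function.update_of_ne (hex i)]

/-- Row P2: Brauer's diagonalisation. If systems of forms of degree `< d` have nontrivial zeros
(`Nd r'` variables suffice for `r'` forms), and diagonal systems of degree `d` in `s` variables,
then systems of forms of degree `≤ d` in `N` variables have nontrivial zeros.
Proof. `d = 1`: linear forms are diagonal, `N = s`. Let `d ≥ 2`, `r' = r (s + 1)^d`,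
`B = Nd r'`, `N = s B`. Let `f_j : Fin B → Fin m`, `j < s`, be injective with disjoint
images. Choose `E_0, ..., E_(s-1) : Fin m → K` successively, `E_j ≠ 0` supported on the image of `f_j`,
such that for all `ρ` and all `κ : Fin (deg ρ) → Fin s` with values `≤ j`, value `j` occurring,
and not (`deg ρ = d` and `κ` constant): `F ρ κ := ∑ τ, c ρ τ ∏ i, E_(κ i) (τ i) = 0`. This is a form of
degree `#{i | κ i = j}` in `E_j` (row P1), between `1` and `d - 1`; there are at most `r s^d`
pairs, number them by `Fin r'` and fill up with zero forms. Then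
`ev (c ρ) (∑ j, z_j E_j) = ∑ κ, ∏ i, z (κ i) * F ρ κ` is `∑ j, z_j^d F ρ (const j)` if
`deg ρ = d` and `0` otherwise. A nontrivial zero `z` of the diagonal system (coefficient `0` for
the `ρ` with `deg ρ < d`) gives `x = ∑ z_j E_j ≠ 0`. -/
theorem brauer (d r s : ℕ) (hd : 1 ≤ d) (Nd : ℕ → ℕ) : ∃ N : ℕ, ∀ (K : Type) [Field K],
    (∀ r', Iso K (d - 1) r' (Nd r')) → DiagIso K d r s → Iso K d r N := by
  classical
  set R : ℕ := r * (s + 1) ^ d with hR
  set B : ℕ := (Finset.range (R + 1)).sup Nd with hB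
  refine ⟨s * B, fun K _ hN hD m hm deg c hdeg => ?_⟩
  have hB' : ∀ r' ≤ R, Iso K (d - 1) r' B := by
    intro r' hr' m' hm' 
    refine hN r' m' (le_trans ?_ hm')
    exact Finset.le_sup (f := Nd) (Finset.mem_range.2 (Nat.lt_succ_of_le hr'))
  let f : Fin s → Fin B → Fin m := fun j b => Fin.castLE hm (finProdFinEquiv (j, b))
  have hf : ∀ j j' b b', f j b = f j' b' → j = j' ∧ b = b' := by
    intro j j' b b' h
    have h1 := finProdFinEquiv.injective (Fin.castLE_injective hm h)
    exact ⟨congrArg Prod.fst h1, congrArg Prod.snd h1⟩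
  obtain ⟨E, hE1, hE2⟩ := P2_step hB' deg c hdeg f (fun j b b' h => (hf j j b b' h).2) le_rfl s
    le_rfl
  obtain ⟨z, hz, hz0⟩ := hD fun l ρ => if deg ρ = d then P2F (c ρ) E (fun _ => l) else 0
  refine ⟨fun k => ∑ j, z j * E j k, fun h0 => ?_, fun ρ => ?_⟩
  · obtain ⟨j, hj⟩ := Function.ne_iff.1 hz
    obtain ⟨k, hk⟩ := Function.ne_iff.1 (hE1 j j.2).1
    have h1 : ∃ b, f j b = k := by
      by_contra hcon
      push Not at hcon
      exact hk ((hE1 j j.2).2 k hcon)
    obtain ⟨b, rfl⟩ := h1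
    have h2 := congrFun h0 (f j b)
    have h3 : ∑ j', z j' * E j' (f j b) = z j * E j (f j b) := by
      refine Finset.sum_eq_single j (fun j' _ hj' => ?_) (fun h => absurd (Finset.mem_univ j) h)
      rw [(hE1 j' j'.2).2 (f j b) (fun b' h => hj' (hf _ _ _ _ h).1), mul_zero]
    simp only [Pi.zero_apply] at h2 hj hk
    rw [h3] at h2
    exact (mul_ne_zero hj hk) h2
  · rw [P2_ev]
    by_cases hρ : deg ρ = d
    · have h1 := hz0 ρ
      simp only [if_pos hρ] at h1
      rw [← h1]
      have hpos : 0 < deg ρ := (hdeg ρ).1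
      have hinj : Function.Injective (fun (l : Fin s) (_ : Fin (deg ρ)) => l) := fun l l' h =>
        congrFun h ⟨0, hpos⟩
      have h2 : ∑ κ : Fin (deg ρ) → Fin s, (∏ i, z (κ i)) * P2F (c ρ) E κ =
          ∑ κ ∈ Finset.univ.map ⟨fun (l : Fin s) (_ : Fin (deg ρ)) => l, hinj⟩,
            (∏ i, z (κ i)) * P2F (c ρ) E κ := by
        symm
        refine Finset.sum_subset (Finset.subset_univ _) fun κ _ hκ => ?_
        rw [hE2 ρ κ (fun i => (κ i).2) (fun h => hκ ?_), mul_zero]
        rw [Finset.mem_map]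
        exact ⟨κ ⟨0, hpos⟩, Finset.mem_univ _, funext fun i => h.2 _ _⟩
      rw [h2, Finset.sum_map]
      refine Finset.sum_congr rfl fun l _ => ?_
      simp only [Function.Embedding.coeFn_mk, Finset.prod_const, Finset.card_univ,
        Fintype.card_fin, hρ]
      rw [mul_comm]
    · refine Finset.sum_eq_zero fun κ _ => ?_
      rw [hE2 ρ κ (fun i => (κ i).2) (fun h => hρ h.1), mul_zero]

end LW
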