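import Mathlib

/-!
Chains of lists: boundary, cone, subdivision; cochains: the operators `th`.
-/

namespace LW

section chains

variable (R : Type*) [CommRing R] {α : Type*}

/-- Put `y` in front of every list. -/
noncomputable def cone (y : α) : (List α →₀ R) →ₗ[R] (List α →₀ R) :=
  Finsupp.lmapDomain R R (List.cons y)

/-- The boundary of a list: the alternating sum of the lists with one entry removed. -/
noncomputable def bdL : List α → (List α →₀ R)
  | [] => 0
  | y :: ys => Finsupp.single ys 1 - cone R y (bdL ys)

/-- The boundary of a chain. -/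
noncomputable def bd : (List α →₀ R) →ₗ[R] (List α →₀ R) :=
  Finsupp.linearCombination R (bdL R)

/-- Chains of lists of length `n`. -/
def lenC (α : Type*) (n : ℕ) : Submodule R (List α →₀ R) :=
  Finsupp.supported R R {L : List α | L.length = n}

variable {Y : Type*} [AddCommGroup Y] [Module ℝ Y]

/-- The barycentre of a list of points. -/
noncomputable def bary (L : List Y) : Y := (L.length : ℝ)⁻¹ • L.sum

/-- The barycentric subdivision of chains of lists of length `n`. -/
noncomputable def Sd : ℕ → (List Y →₀ R) →ₗ[R] (List Y →₀ R)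
  | 0 => LinearMap.id
  | n + 1 => Finsupp.linearCombination R (fun L => cone R (bary L) (Sd n (bdL R L)))

end chains

section cochains

variable {R : Type*} [CommRing R] {V : Type*} [DecidableEq V]

/-- Exterior multiplication by `u` on cochains. -/
def th (u : V) : (List V → R) → List V → R
  | _, [] => 0
  | F, y :: ys => (if y = u then F ys else 0) - th u (fun zs => F (y :: zs)) ys

/-- The cochain of the list `U`. -/
def DU (U : List V) : List V → R :=
  U.foldr (fun u F => th u F) (fun L => if L = [] then 1 else 0)

end cochains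

/-- Simplices of the join of `m + 1` copies of `ZMod p`. -/
abbrev PF (m p : ℕ) := Fin (m + 1) → Option (ZMod p)

/-- The list of vertices of a simplex. -/
def vt {m p : ℕ} (s : PF m p) : List (Fin (m + 1) × ZMod p) :=
  (List.finRange (m + 1)).filterMap (fun j => (s j).map (fun g => (j, g)))

/-- The generator of `ZMod p` acts on vertices. -/
def shV {m p : ℕ} (u : Fin (m + 1) × ZMod p) : Fin (m + 1) × ZMod p := (u.1, u.2 + 1)

/-- The generator of `ZMod p` acts on simplices. -/
def shS {m p : ℕ} (s : PF m p) : PF m p := fun j => (s j).map (fun g => g + 1)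

/-- The boundary matrix. -/
noncomputable def bdM (R : Type*) [CommRing R] (m p : ℕ) : Matrix (PF m p) (PF m p) R :=
  fun s s' => (bdL R (vt s')) (vt s)

/-- A list of vertices without two vertices `(j, g)`, `(j, g')`, `g ≠ g'`. -/
def Compat {m p : ℕ} (L : List (Fin (m + 1) × ZMod p)) : Prop :=
  ∀ a ∈ L, ∀ b ∈ L, a.1 = b.1 → a = b

/-- Small lists in a set. -/
def Small {Y : Type*} [PseudoMetricSpace Y] (C : Set Y) (δ : ℝ) (L : List Y) : Prop :=
  (∀ y ∈ L, y ∈ C) ∧ ∀ y ∈ L, ∀ z ∈ L, dist y z ≤ δ

end LW
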