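import Pool.Agent.Lib.LW.Ch

/-!
Row A1: the algebra of chains of lists. Everything is by induction on lists and linearity
(`Finsupp.induction_linear` / `Finsupp.lhom_ext`). All statements are easy.
-/

namespace LW

variable {R : Type*} [CommRing R] {α : Type*}

private theorem A1_cone_single (y : α) (L : List α) (r : R) :
    cone R y (Finsupp.single L r) = Finsupp.single (y :: L) r := by
  simp [cone, Finsupp.lmapDomain_apply, Finsupp.mapDomain_single]

/-- every list in the boundary of `L` is a sublist of `L` of length one less -/
theorem bdL_support (L : List α) : ∀ L' ∈ (bdL R L).support, L'.Sublist L ∧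
    L'.length + 1 = L.length := by
  classical
  induction L with
  | nil => intro L' h; simp [bdL] at h
  | cons y ys ih =>
    intro L' h
    rw [bdL] at h
    have h1 := Finsupp.support_sub h
    rcases Finset.mem_union.mp h1 with h2 | h2
    · have h3 := Finsupp.support_single_subset h2
      rw [Finset.mem_singleton] at h3
      subst h3
      exact ⟨List.sublist_cons_self _ _, by simp⟩
    · rw [cone, Finsupp.lmapDomain_apply] at h2
      have h3 := Finsupp.mapDomain_support h2
      rcases Finset.mem_image.mp h3 with ⟨Z, hZ, rfl⟩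
      obtain ⟨h4, h5⟩ := ih Z hZ
      exact ⟨h4.cons_cons y, by simp [h5]⟩

theorem bd_single (L : List α) (r : R) : bd R (Finsupp.single L r) = r • bdL R L := by
  rw [bd, Finsupp.linearCombination_single]

theorem bd_cone (y : α) (c : List α →₀ R) : bd R (cone R y c) = c - cone R y (bd R c) := by
  induction c using Finsupp.induction_linear with
  | zero => simp
  | add f g hf hg => rw [map_add, map_add, hf, hg, map_add, map_add]; abel
  | single L r =>
    rw [A1_cone_single, bd_single, bd_single, bdL, smul_sub, map_smul, Finsupp.smul_single,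
      smul_eq_mul, mul_one]

private theorem A1_bd_bdL (L : List α) : bd R (bdL R L) = 0 := by
  induction L with
  | nil => simp [bdL]
  | cons y ys ih =>
    rw [bdL, map_sub, bd_single, one_smul, bd_cone, ih, map_zero, sub_zero, sub_self]

theorem bd_bd (c : List α →₀ R) : bd R (bd R c) = 0 := by
  induction c using Finsupp.induction_linear with
  | zero => simp
  | add f g hf hg => rw [map_add, map_add, hf, hg, add_zero]
  | single L r => rw [bd_single, map_smul, A1_bd_bdL, smul_zero]

private theorem A1_bdL_lenC (n : ℕ) (L : List α) (hL : L.length = n + 1) :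
    bdL R L ∈ lenC R α n := by
  rw [lenC, Finsupp.mem_supported]
  intro L' h
  have := (bdL_support L L' h).2
  show L'.length = n
  omega

/-- a linear map which sends every list of length `n` into a submodule sends `lenC n` to it -/
private theorem A1_lin {M : Type*} [AddCommGroup M] [Module R M] (f : (List α →₀ R) →ₗ[R] M)
    (n : ℕ) (S : Submodule R M) (h : ∀ L : List α, L.length = n → f (Finsupp.single L 1) ∈ S)
    (c : List α →₀ R) (hc : c ∈ lenC R α n) : f c ∈ S := by
  rw [lenC, Finsupp.supported_eq_span_single] at hc
  have : Submodule.span R ((fun i => Finsupp.single i (1 : R)) '' {L : List α | L.length = n}) ≤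
      S.comap f := by
    rw [Submodule.span_le]
    rintro _ ⟨L, hL, rfl⟩
    exact h L hL
  exact this hc

/-- two linear maps which agree on lists of length `n` agree on `lenC n` -/
private theorem A1_eq {M : Type*} [AddCommGroup M] [Module R M] (f g : (List α →₀ R) →ₗ[R] M)
    (n : ℕ) (h : ∀ L : List α, L.length = n → f (Finsupp.single L 1) = g (Finsupp.single L 1))
    (c : List α →₀ R) (hc : c ∈ lenC R α n) : f c = g c := by
  have := A1_lin (f - g) n ⊥ (fun L hL => by simp [h L hL]) c hc
  rw [Submodule.mem_bot, LinearMap.sub_apply] at this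
  exact sub_eq_zero.mp this

theorem bd_lenC (n : ℕ) (c : List α →₀ R) (hc : c ∈ lenC R α (n + 1)) :
    bd R c ∈ lenC R α n := by
  refine A1_lin (bd R) (n + 1) _ (fun L hL => ?_) c hc
  rw [bd_single, one_smul]
  exact A1_bdL_lenC n L hL

private theorem A1_bdL_map {β : Type*} (f : α → β) (L : List α) :
    bdL R (L.map f) = Finsupp.mapDomain (List.map f) (bdL R L) := by
  induction L with
  | nil => simp [bdL]
  | cons y ys ih =>
    rw [List.map_cons, bdL, bdL, Finsupp.mapDomain_sub, Finsupp.mapDomain_single, ih, cone, cone,
      Finsupp.lmapDomain_apply, Finsupp.lmapDomain_apply, ← Finsupp.mapDomain_comp,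
      ← Finsupp.mapDomain_comp]
    rfl

theorem bd_map {β : Type*} (f : α → β) (c : List α →₀ R) :
    bd R (Finsupp.mapDomain (List.map f) c) = Finsupp.mapDomain (List.map f) (bd R c) := by
  induction c using Finsupp.induction_linear with
  | zero => simp
  | add f g hf hg => rw [Finsupp.mapDomain_add, map_add, hf, hg, map_add, Finsupp.mapDomain_add]
  | single L r =>
    rw [Finsupp.mapDomain_single, bd_single, bd_single, A1_bdL_map, Finsupp.mapDomain_smul]

variable {Y : Type*} [AddCommGroup Y] [Module ℝ Y]

private theorem A1_Sd_single (n : ℕ) (L : List Y) (r : R) :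
    Sd R (n + 1) (Finsupp.single L r) = r • cone R (bary L) (Sd R n (bdL R L)) := by
  rw [Sd, Finsupp.linearCombination_single]

theorem Sd_lenC (n : ℕ) (c : List Y →₀ R) (hc : c ∈ lenC R Y n) : Sd R n c ∈ lenC R Y n := by
  induction n generalizing c with
  | zero => exact hc
  | succ n ih =>
    refine A1_lin (Sd R (n + 1)) (n + 1) _ (fun L hL => ?_) c hc
    rw [A1_Sd_single, one_smul]
    refine A1_lin (cone R (bary L)) n _ (fun L' hL' => ?_) _ (ih _ (A1_bdL_lenC n L hL))
    rw [A1_cone_single, lenC]
    exact Finsupp.single_mem_supported R 1 (by simp [hL'])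

private theorem A1_Sd_bd (n : ℕ) (c : List Y →₀ R) (hc : c ∈ lenC R Y (n + 1))
    (H : ∀ L : List Y, L.length = n + 1 → bd R (Sd R n (bdL R L)) = 0) :
    bd R (Sd R (n + 1) c) = Sd R n (bd R c) := by
  have h := A1_eq (LinearMap.comp (bd R) (Sd R (n + 1))) (LinearMap.comp (Sd R n) (bd R)) (n + 1)
    (fun L hL => by
      rw [LinearMap.comp_apply, LinearMap.comp_apply, A1_Sd_single, one_smul, bd_cone, bd_single,
        one_smul, H L hL, map_zero, sub_zero]) c hc
  rw [LinearMap.comp_apply, LinearMap.comp_apply] at h
  exact h

/-- the subdivision commutes with the boundary (induction on `n`; use `bd_cone` and `bd_bd`) -/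
theorem Sd_bd (n : ℕ) (c : List Y →₀ R) (hc : c ∈ lenC R Y (n + 1)) :
    bd R (Sd R (n + 1) c) = Sd R n (bd R c) := by
  induction n generalizing c with
  | zero =>
    refine A1_Sd_bd 0 c hc (fun L hL => ?_)
    rw [Sd]
    exact A1_bd_bdL L
  | succ n ih =>
    refine A1_Sd_bd (n + 1) c hc (fun L hL => ?_)
    rw [ih _ (A1_bdL_lenC (n + 1) L hL), A1_bd_bdL, map_zero]

/-- the subdivision commutes with linear maps -/
theorem Sd_map (T : Y →ₗ[ℝ] Y) (n : ℕ) (c : List Y →₀ R) :
    Sd R n (Finsupp.mapDomain (List.map T) c) = Finsupp.mapDomain (List.map T) (Sd R n c) := by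
  induction n generalizing c with
  | zero => rfl
  | succ n ih =>
    induction c using Finsupp.induction_linear with
    | zero => simp
    | add f g hf hg => rw [Finsupp.mapDomain_add, map_add, hf, hg, map_add, Finsupp.mapDomain_add]
    | single L r =>
      have hb : bary (L.map T) = T (bary L) := by
        simp [bary, map_list_sum]
      rw [Finsupp.mapDomain_single, A1_Sd_single, A1_Sd_single, A1_bdL_map, ih, hb,
        Finsupp.mapDomain_smul, cone, cone, Finsupp.lmapDomain_apply, Finsupp.lmapDomain_apply,
        ← Finsupp.mapDomain_comp, ← Finsupp.mapDomain_comp]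
      rfl

end LW
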