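import Pool.Agent.Lib.LW.ChA

/-!
Row A2: the barycentric subdivision makes simplices smaller by the factor `m / (m + 1)`.
Proof. Induction on `n`, for lists `L` of length `n ≤ m + 1` with points in the convex set `C`.
A list in the support of `Sd R (n+1) [L]` is `bary L :: L''` where `L''` is in the support of
`Sd R n [L']`, `L'` a sublist of `L` of length `n`, so `L''` is small (by induction the factor
for `L''` is `m / (m+1)`, as `n ≤ m + 1`), and the distance of `bary L` to a point of `L''`, which
is in the convex hull of the points of `L'`, hence of `L`, is at most the largest distance of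
`bary L` to a point `x` of `L`, which is at most `(n / (n+1)) δ ≤ (m / (m+1)) δ` where `n + 1` is
the length of `L`: `bary L - x = (n+1)⁻¹ ∑ (y - x)`, one summand is `0`, each other summand has
norm at most `δ`. (Apply the induction hypothesis twice: once with `C`, and once with the convex
hull of the points of `L'` to know that the points of `L''` are in it.)
-/

namespace LW

variable {R : Type*} [CommRing R] {Y : Type*} [NormedAddCommGroup Y] [NormedSpace ℝ Y]

/-- a list in the support of a linear combination -/
private theorem A2_supp {α β : Type*} (f : α → (β →₀ R)) (c : α →₀ R) (x : β)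
    (hx : x ∈ (Finsupp.linearCombination R f c).support) : ∃ a ∈ c.support, x ∈ (f a).support := by
  classical
  by_contra hcon
  push Not at hcon
  rw [Finsupp.mem_support_iff] at hx
  apply hx
  rw [Finsupp.linearCombination_apply, Finsupp.sum, Finsupp.finsetSum_apply]
  refine Finset.sum_eq_zero fun a ha => ?_
  have h1 := hcon a ha
  rw [Finsupp.notMem_support_iff] at h1
  rw [Finsupp.smul_apply, h1, smul_zero]

private theorem A2_lin {α β : Type*} (f : (α →₀ R) →ₗ[R] (β →₀ R)) (c : α →₀ R) (x : β)
    (hx : x ∈ (f c).support) : ∃ a ∈ c.support, x ∈ (f (Finsupp.single a 1)).support := by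
  have h1 : f c = Finsupp.linearCombination R (fun a => f (Finsupp.single a 1)) c := by
    rw [Finsupp.linearCombination_apply]
    conv_lhs => rw [← Finsupp.sum_single c]
    rw [Finsupp.sum, map_sum, Finsupp.sum]
    refine Finset.sum_congr rfl fun a _ => ?_
    rw [← map_smul, Finsupp.smul_single, smul_eq_mul, mul_one]
  rw [h1] at hx
  exact A2_supp _ _ _ hx

private theorem A2_cone {α : Type*} (y : α) (c : List α →₀ R) (L : List α)
    (hL : L ∈ (cone R y c).support) : ∃ L' ∈ c.support, L = y :: L' := by
  classical
  unfold cone at hL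
  have h1 : L ∈ (Finsupp.mapDomain (List.cons y) c).support := hL
  have h2 := Finsupp.mapDomain_support h1
  rw [Finset.mem_image] at h2
  obtain ⟨L', h3, h4⟩ := h2
  exact ⟨L', h3, h4.symm⟩

/-- the structure of the lists in the subdivision -/
private theorem A2_struct (n : ℕ) (L : List Y) (hL : L.length = n + 1) (L1 : List Y)
    (h : L1 ∈ (Sd R (n + 1) (Finsupp.single L 1)).support) :
    ∃ L' L'' : List Y, L'.Sublist L ∧ L'.length = n ∧
      L'' ∈ (Sd R n (Finsupp.single L' 1)).support ∧ L1 = bary L :: L'' := by
  have h1 : Sd R (n + 1) (Finsupp.single L 1) = cone R (bary L) (Sd R n (bdL R L)) := by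
    show Finsupp.linearCombination R _ _ = _
    rw [Finsupp.linearCombination_single, one_smul]
  rw [h1] at h
  obtain ⟨L'', h2, h3⟩ := A2_cone _ _ _ h
  obtain ⟨L', h4, h5⟩ := A2_lin (Sd R n) _ _ h2
  obtain ⟨h6, h7⟩ := bdL_support L L' h4
  exact ⟨L', L'', h6, by omega, h5, h3⟩

/-- the distance of the barycentre to a member -/
private theorem A2_bary (n : ℕ) (L : List Y) (hL : L.length = n + 1) (δ : ℝ)
    (hs : ∀ y ∈ L, ∀ z ∈ L, dist y z ≤ δ) (x : Y) (hx : x ∈ L) :
    dist (bary L) x ≤ (n : ℝ) / (n + 1) * δ := by
  classical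
  have h1 : ∀ (K : List Y), (∀ y ∈ K, dist y x ≤ δ) → ‖(K.map fun y => y - x).sum‖ ≤ K.length * δ := by
    intro K
    induction K with
    | nil => simp
    | cons y K ih =>
      intro hK
      rw [List.map_cons, List.sum_cons, List.length_cons]
      push_cast
      have h2 := ih fun z hz => hK z (List.mem_cons_of_mem _ hz)
      have h3 := hK y List.mem_cons_self
      rw [dist_eq_norm] at h3
      calc ‖(y - x) + (K.map fun y => y - x).sum‖ ≤ ‖y - x‖ + ‖(K.map fun y => y - x).sum‖ :=
            norm_add_le _ _
        _ ≤ δ + K.length * δ := add_le_add h3 h2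
        _ = (K.length + 1) * δ := by ring
  have h2 : ∀ K : List Y, (K.map fun y => y - x).sum = K.sum - (K.length : ℝ) • x := by
    intro K
    induction K with
    | nil => simp
    | cons y K ih =>
      rw [List.map_cons, List.sum_cons, ih, List.sum_cons, List.length_cons]
      push_cast
      rw [add_smul, one_smul]
      abel
  obtain ⟨A, B, rfl⟩ := List.append_of_mem hx
  have h3 : ((A ++ x :: B).map fun y => y - x).sum = ((A ++ B).map fun y => y - x).sum := by
    simp
  have h4 : (A ++ B).length = n := by
    rw [List.length_append, List.length_cons] at hL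
    rw [List.length_append]
    omega
  have h5 := h1 (A ++ B) (by
    intro y hy
    refine hs y ?_ x hx
    rw [List.mem_append] at hy
    rw [List.mem_append, List.mem_cons]
    tauto)
  rw [h4] at h5
  have h6 : bary (A ++ x :: B) - x = ((n : ℝ) + 1)⁻¹ • ((A ++ B).map fun y => y - x).sum := by
    rw [← h3, h2]
    unfold bary
    rw [hL, smul_sub, smul_smul]
    push_cast
    rw [inv_mul_cancel₀ (by positivity), one_smul]
  rw [dist_eq_norm, h6, norm_smul, Real.norm_of_nonneg (by positivity)]
  calc ((n : ℝ) + 1)⁻¹ * ‖((A ++ B).map fun y => y - x).sum‖ ≤ ((n : ℝ) + 1)⁻¹ * (n * δ) :=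
        mul_le_mul_of_nonneg_left h5 (by positivity)
    _ = (n : ℝ) / (n + 1) * δ := by
        field_simp

private theorem A2_bary_mem (L : List Y) (hL : L ≠ []) (C : Set Y) (hC : Convex ℝ C)
    (hs : ∀ y ∈ L, y ∈ C) : bary L ∈ C := by
  have h1 : bary L = ∑ i : Fin L.length, ((L.length : ℝ)⁻¹) • L.get i := by
    unfold bary
    rw [← Finset.smul_sum]
    congr 1
    rw [← List.sum_ofFn]
    congr 1
    exact (List.ofFn_get L).symm
  rw [h1]
  have h0 : 0 < L.length := List.length_pos_of_ne_nil hL
  have h2 : (0 : ℝ) < L.length := by exact_mod_cast h0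
  refine hC.sum_mem (fun _ _ => by positivity) ?_ fun i _ => hs _ (List.get_mem _ _)
  rw [Finset.sum_const, Finset.card_univ, Fintype.card_fin, nsmul_eq_mul,
    mul_inv_cancel₀ h2.ne']

theorem Sd_small (m n : ℕ) (hn : n ≤ m + 1) (C : Set Y) (hC : Convex ℝ C) (δ : ℝ) (hδ : 0 ≤ δ)
    (L : List Y) (hL : L.length = n) (hs : Small C δ L) :
    ∀ L' ∈ (Sd R n (Finsupp.single L 1)).support, Small C ((m : ℝ) / (m + 1) * δ) L' := by
  have hm0 : (0 : ℝ) ≤ (m : ℝ) / (m + 1) * δ := by positivity
  induction n generalizing L C with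
  | zero =>
    intro L' hL'
    have h1 : L = [] := List.length_eq_zero_iff.1 hL
    subst h1
    have h2 : L' ∈ (Finsupp.single ([] : List Y) (1 : R)).support := hL'
    have h3 := Finsupp.support_single_subset h2
    rw [Finset.mem_singleton] at h3
    subst h3
    exact ⟨by simp, by simp⟩
  | succ n ih =>
    intro L1 h1
    obtain ⟨L', L'', hsub, hlen, hL'', rfl⟩ := A2_struct n L hL L1 h1
    have h2 : Small C δ L' := ⟨fun y hy => hs.1 y (hsub.subset hy),
      fun y hy z hz => hs.2 y (hsub.subset hy) z (hsub.subset hz)⟩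
    have h3 := ih (by omega) C hC L' hlen h2 L'' hL''
    have h4 : Small (convexHull ℝ {y | y ∈ L}) δ L' :=
      ⟨fun y hy => subset_convexHull ℝ _ (hsub.subset hy), h2.2⟩
    have h5 := ih (by omega) (convexHull ℝ {y | y ∈ L}) (convex_convexHull ℝ _) L' hlen h4 L'' hL''
    have hne : L ≠ [] := by
      rintro rfl
      simp at hL
    have h6 : ∀ y ∈ L'', dist (bary L) y ≤ (m : ℝ) / (m + 1) * δ := by
      intro y hy
      have h7 : {y | y ∈ L} ⊆ Metric.closedBall (bary L) ((n : ℝ) / (n + 1) * δ) := by
        intro z hz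
        rw [Metric.mem_closedBall, dist_comm]
        exact A2_bary n L hL δ hs.2 z hz
      have h8 := convexHull_min h7 (convex_closedBall _ _) (h5.1 y hy)
      rw [Metric.mem_closedBall, dist_comm] at h8
      refine h8.trans (mul_le_mul_of_nonneg_right ?_ hδ)
      rw [div_le_div_iff₀ (by positivity) (by positivity)]
      have h9 : (n : ℝ) ≤ m := by
        have : n ≤ m := by omega
        exact_mod_cast this
      nlinarith
    refine ⟨?_, ?_⟩
    · intro y hy
      rw [List.mem_cons] at hy
      rcases hy with rfl | hy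
      · exact A2_bary_mem L hne C hC hs.1
      · exact h3.1 y hy
    · intro y hy z hz
      rw [List.mem_cons] at hy hz
      rcases hy with rfl | hy
      · rcases hz with rfl | hz
        · rw [dist_self]
          exact hm0
        · exact h6 z hz
      · rcases hz with rfl | hz
        · rw [dist_comm]
          exact h6 y hy
        · exact h3.2 y hy z hz

/-- the iterate: `t`-fold subdivision of a list of length `n ≤ m + 1` -/
theorem Sd_small_iter (m n : ℕ) (hn : n ≤ m + 1) (C : Set Y) (hC : Convex ℝ C) (δ : ℝ)
    (hδ : 0 ≤ δ) (L : List Y) (hL : L.length = n) (hs : Small C δ L) (t : ℕ) :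
    ∀ L' ∈ (((Sd R n) ^ t) (Finsupp.single L 1)).support,
      L'.length = n ∧ Small C (((m : ℝ) / (m + 1)) ^ t * δ) L' := by
  induction t with
  | zero =>
    intro L' hL'
    have h2 : L' ∈ (Finsupp.single L (1 : R)).support := hL'
    have h3 := Finsupp.support_single_subset h2
    rw [Finset.mem_singleton] at h3
    subst h3
    refine ⟨hL, ?_⟩
    rw [pow_zero, one_mul]
    exact hs
  | succ t ih =>
    intro L' hL'
    rw [pow_succ', Module.End.mul_apply] at hL'
    obtain ⟨L1, h1, h2⟩ := A2_lin (Sd R n) _ _ hL'
    obtain ⟨h3, h4⟩ := ih L1 h1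
    have h5 := Sd_small (R := R) m n hn C hC _ (by positivity) L1 h3 h4 L' h2
    refine ⟨?_, ?_⟩
    · have h6 : Finsupp.single L1 (1 : R) ∈ lenC R Y n := Finsupp.single_mem_supported _ _ h3
      have h7 := Sd_lenC n _ h6
      exact (Finsupp.mem_supported _ _).1 h7 h2
    · rw [pow_succ', mul_assoc]
      exact h5

end LW
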