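import Pool.Agent.Lib.LW.ChA

/-!
Row A3: cochains. `th u` is exterior multiplication by `u`; `DU U` is the determinant-like
cochain of the list `U`.
-/

namespace LW

variable {R : Type*} [CommRing R] {V : Type*} [DecidableEq V]

private theorem th_nil (u : V) (F : List V → R) : th u F [] = 0 := by
  rw [th]

private theorem th_cons (u : V) (F : List V → R) (y : V) (ys : List V) :
    th u F (y :: ys) = (if y = u then F ys else 0) - th u (fun zs => F (y :: zs)) ys := by
  rw [th]

private theorem th_sub (u : V) (F G : List V → R) (L : List V) :
    th u (fun zs => F zs - G zs) L = th u F L - th u G L := by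
  induction L generalizing F G with
  | nil => rw [th_nil, th_nil, th_nil, sub_zero]
  | cons y ys ih =>
    rw [th_cons, th_cons, th_cons, ih (fun zs => F (y :: zs)) (fun zs => G (y :: zs))]
    split_ifs <;> ring

private theorem th_neg (u : V) (F : List V → R) (L : List V) :
    th u (fun zs => - F zs) L = - th u F L := by
  induction L generalizing F with
  | nil => rw [th_nil, th_nil, neg_zero]
  | cons y ys ih =>
    rw [th_cons, th_cons, ih (fun zs => F (y :: zs))]
    split_ifs <;> ring

private theorem th_zero (u : V) (L : List V) : th u (fun _ => (0 : R)) L = 0 := by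
  induction L with
  | nil => exact th_nil _ _
  | cons y ys ih =>
    rw [th_cons, ih]
    simp

private theorem th_ite (u : V) (p : Prop) [Decidable p] (F : List V → R) (L : List V) :
    th u (fun zs => if p then F zs else 0) L = if p then th u F L else 0 := by
  by_cases h : p
  · simp only [if_pos h]
  · simp only [if_neg h]
    exact th_zero u L

private theorem th_th_cons (u w : V) (F : List V → R) (y : V) (ys : List V) :
    th u (th w F) (y :: ys) = (if y = u then th w F ys else 0) -
      (if y = w then th u F ys else 0) + th u (th w (fun zs => F (y :: zs))) ys := by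
  rw [th_cons]
  have h : (fun zs => th w F (y :: zs)) = fun zs => (fun zs => if y = w then F zs else 0) zs -
      (th w (fun zs => F (y :: zs))) zs := by
    funext zs
    exact th_cons w F y zs
  rw [h, th_sub, th_ite]
  ring

/-- anticommutation (induction on the list, `F` general) -/
theorem th_anti (u w : V) (F : List V → R) (L : List V) :
    th u (th w F) L + th w (th u F) L = 0 := by
  induction L generalizing F with
  | nil => rw [th_nil, th_nil, add_zero]
  | cons y ys ih =>
    rw [th_th_cons, th_th_cons]
    have h := ih (fun zs => F (y :: zs))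
    linear_combination h

theorem th_th (u : V) (F : List V → R) (L : List V) : th u (th u F) L = 0 := by
  induction L generalizing F with
  | nil => exact th_nil _ _
  | cons y ys ih => rw [th_th_cons, ih, sub_self, add_zero]

/-- the coboundary is the sum of all `th u` (induction on the list) -/
theorem sum_th [Fintype V] (F : List V → R) (L : List V) :
    ∑ u, th u F L = Finsupp.linearCombination R F (bdL R L) := by
  induction L generalizing F with
  | nil =>
    rw [Finset.sum_eq_zero fun u _ => th_nil u F]
    simp [bdL]
  | cons y ys ih =>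
    simp only [th_cons, Finset.sum_sub_distrib, ih]
    rw [bdL, map_sub, Finsupp.linearCombination_single, one_smul, Finset.sum_ite_eq,
      if_pos (Finset.mem_univ y)]
    congr 1
    rw [cone, Finsupp.lmapDomain_apply, Finsupp.linearCombination_mapDomain]
    rfl

private theorem th_eq_zero (u : V) (F : List V → R) (L : List V)
    (h : ∀ L' : List V, L'.length + 1 = L.length → F L' = 0) : th u F L = 0 := by
  induction L generalizing F with
  | nil => exact th_nil _ _
  | cons y ys ih =>
    rw [th_cons, h ys rfl, ih (fun zs => F (y :: zs)) fun L' hL' => h _ (by simp [← hL'])]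
    simp

private theorem DU_nil (L : List V) : (DU [] : List V → R) L = if L = [] then 1 else 0 := rfl

private theorem DU_cons (u : V) (U : List V) :
    (DU (u :: U) : List V → R) = th u (DU U) := rfl

theorem DU_length (U L : List V) (h : U.length ≠ L.length) : (DU U : List V → R) L = 0 := by
  induction U generalizing L with
  | nil =>
    rw [DU_nil, if_neg]
    rintro rfl
    exact h rfl
  | cons u U ih =>
    rw [DU_cons]
    refine th_eq_zero u _ L fun L' hL' => ih L' fun h' => h ?_
    rw [List.length_cons, h', hL']

private theorem th_mem (u : V) (F : List V → R) (L : List V) (h : th u F L ≠ 0) :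
    u ∈ L ∧ ∃ L' : List V, (∀ x ∈ L', x ∈ L) ∧ F L' ≠ 0 := by
  induction L generalizing F with
  | nil => exact absurd (th_nil u F) h
  | cons y ys ih =>
    rw [th_cons] at h
    by_cases h1 : th u (fun zs => F (y :: zs)) ys = 0
    · rw [h1, sub_zero] at h
      by_cases h2 : y = u
      · rw [if_pos h2] at h
        exact ⟨by rw [h2]; exact List.mem_cons_self, ys, fun x hx => List.mem_cons_of_mem _ hx, h⟩
      · exact absurd (if_neg h2) h
    · obtain ⟨h2, L', h3, h4⟩ := ih _ h1
      refine ⟨List.mem_cons_of_mem _ h2, y :: L', fun x hx => ?_, h4⟩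
      rcases List.mem_cons.1 hx with rfl | hx
      · exact List.mem_cons_self
      · exact List.mem_cons_of_mem _ (h3 x hx)

/-- if `DU U L ≠ 0` then all entries of `U` occur in `L` -/
theorem DU_mem (U L : List V) (h : (DU U : List V → R) L ≠ 0) : ∀ u ∈ U, u ∈ L := by
  induction U generalizing L with
  | nil =>
    intro u hu
    exact absurd hu List.not_mem_nil
  | cons u U ih =>
    rw [DU_cons] at h
    obtain ⟨h1, L', h2, h3⟩ := th_mem u _ L h
    intro w hw
    rcases List.mem_cons.1 hw with rfl | hw
    · exact h1
    · exact h2 w (ih L' h3 w hw)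

private theorem th_map {W : Type*} [DecidableEq W] (f : V → W) (hf : Function.Injective f)
    (u : V) (G : List W → R) (L : List V) :
    th (f u) G (L.map f) = th u (fun L => G (L.map f)) L := by
  induction L generalizing G with
  | nil => rw [List.map_nil, th_nil, th_nil]
  | cons y ys ih =>
    rw [List.map_cons, th_cons, th_cons, ih (fun zs => G (f y :: zs))]
    simp only [hf.eq_iff, List.map_cons]

/-- equivariance -/
theorem DU_map {W : Type*} [DecidableEq W] (f : V → W) (hf : Function.Injective f)
    (U L : List V) : (DU (U.map f) : List W → R) (L.map f) = DU U L := by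
  induction U generalizing L with
  | nil =>
    rw [List.map_nil, DU_nil, DU_nil]
    simp only [List.map_eq_nil_iff]
  | cons u U ih =>
    rw [List.map_cons, DU_cons, DU_cons, th_map f hf]
    congr 1
    funext L
    exact ih L

private theorem mem_vt {m p : ℕ} (s : PF m p) (j : Fin (m + 1)) (g : ZMod p) :
    (j, g) ∈ vt s ↔ s j = some g := by
  unfold vt
  rw [List.mem_filterMap]
  constructor
  · rintro ⟨k, -, hk⟩
    rw [Option.map_eq_some_iff] at hk
    obtain ⟨g', h1, h2⟩ := hk
    rw [Prod.mk.injEq] at h2
    rw [← h2.1, ← h2.2]
    exact h1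
  · intro h
    exact ⟨j, List.mem_finRange j, by rw [h]; rfl⟩

private theorem vt_inj {m p : ℕ} {s t : PF m p} (h : vt s = vt t) : s = t := by
  funext j
  refine Option.ext fun g => ?_
  rw [← mem_vt, ← mem_vt, h]

private theorem filterMap_mono {α β : Type*} {f g : α → Option β}
    (h : ∀ a b, f a = some b → g a = some b) (l : List α) :
    (l.filterMap f).Sublist (l.filterMap g) := by
  induction l with
  | nil => exact List.Sublist.refl _
  | cons a l ih =>
    rw [List.filterMap_cons, List.filterMap_cons]
    cases hf : f a with
    | none =>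
      cases g a with
      | none => exact ih
      | some b => exact ih.trans (List.sublist_cons_self _ _)
    | some b =>
      rw [h a b hf]
      exact ih.cons_cons b

private theorem sublist_vt {α β : Type*} (f : α → Option β) (l : List α) (hl : l.Nodup)
    (L : List β) (h : L.Sublist (l.filterMap f)) :
    ∃ g : α → Option β, (∀ a, g a = none ∨ g a = f a) ∧ l.filterMap g = L := by
  classical
  induction l generalizing L with
  | nil =>
    rw [List.filterMap_nil, List.sublist_nil] at h
    exact ⟨f, fun a => Or.inr rfl, by rw [List.filterMap_nil, h]⟩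
  | cons a l ih =>
    rw [List.nodup_cons] at hl
    have key : ∀ (L' : List β) (o : Option β), o = none ∨ o = f a → L'.Sublist (l.filterMap f) →
        ∃ g : α → Option β, (∀ a, g a = none ∨ g a = f a) ∧
          (a :: l).filterMap g = o.toList ++ L' := by
      intro L' o ho hL'
      obtain ⟨g, hgf, hg⟩ := ih hl.2 L' hL'
      refine ⟨fun x => if x = a then o else g x, fun x => ?_, ?_⟩
      · by_cases hx : x = a
        · simp only [if_pos hx]
          rw [hx]
          exact ho
        · simp only [if_neg hx]
          exact hgf x
      have h1 : l.filterMap (fun x => if x = a then o else g x) = l.filterMap g := by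
        refine List.filterMap_congr fun x hx => ?_
        rw [if_neg]
        rintro rfl
        exact hl.1 hx
      rw [List.filterMap_cons, h1, hg, if_pos rfl]
      cases o <;> rfl
    rw [List.filterMap_cons] at h
    cases hf : f a with
    | none =>
      rw [hf] at h
      obtain ⟨g, hgf, hg⟩ := key L none (Or.inl rfl) h
      exact ⟨g, hgf, hg⟩
    | some b =>
      rw [hf] at h
      have h : L.Sublist (b :: l.filterMap f) := h
      rcases List.sublist_cons_iff.1 h with h | ⟨L', rfl, h⟩
      · obtain ⟨g, hgf, hg⟩ := key L none (Or.inl rfl) h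
        exact ⟨g, hgf, hg⟩
      · obtain ⟨g, hgf, hg⟩ := key L' (some b) (Or.inr hf.symm) (List.cons_sublist_cons.1 h)
        exact ⟨g, hgf, hg⟩

private theorem exists_vt {m p : ℕ} (s : PF m p) (L : List (Fin (m + 1) × ZMod p))
    (h : L.Sublist (vt s)) : ∃ t : PF m p, vt t = L := by
  classical
  obtain ⟨g, hgf, hg⟩ := sublist_vt (fun j => (s j).map (fun g => (j, g)))
    (List.finRange (m + 1)) (List.nodup_finRange _) L h
  refine ⟨fun j => if g j = none then none else s j, ?_⟩
  rw [← hg]
  unfold vt
  refine List.filterMap_congr fun j _ => ?_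
  show (if g j = none then none else s j).map (fun g => (j, g)) = g j
  by_cases hj : g j = none
  · rw [if_pos hj, hj]
    rfl
  · rw [if_neg hj]
    rcases hgf j with h1 | h1
    · exact absurd h1 hj
    · exact h1.symm

/-- the boundary of the simplex `s` is a combination of simplices (removing an entry of
`vt s` gives `vt` of the simplex with this coordinate deleted) -/
theorem bdL_vt {m p : ℕ} [NeZero p] (s : PF m p) :
    bdL R (vt s) = ∑ t, bdM R m p t s • Finsupp.single (vt t) (1 : R) := by
  classical
  ext L
  rw [Finsupp.finsetSum_apply]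
  by_cases h : ∃ t : PF m p, vt t = L
  · obtain ⟨t, rfl⟩ := h
    rw [Finset.sum_eq_single t]
    · rw [Finsupp.smul_apply, Finsupp.single_eq_same, smul_eq_mul, mul_one]
      rfl
    · intro t' _ ht'
      rw [Finsupp.smul_apply, Finsupp.single_eq_of_ne (fun h' => ht' (vt_inj h'.symm)), smul_zero]
    · intro h'
      exact absurd (Finset.mem_univ t) h'
  · rw [Finset.sum_eq_zero]
    · by_contra h1
      have h2 := bdL_support (R := R) (vt s) L (Finsupp.mem_support_iff.2 h1)
      exact h (exists_vt s L h2.1)
    · intro t _
      rw [Finsupp.smul_apply, Finsupp.single_eq_of_ne (fun h' => h ⟨t, h'.symm⟩), smul_zero]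

private theorem vt_split {m p : ℕ} (t : PF m p) (j : Fin (m + 1)) (hj : t j = none) :
    ∃ A B : List (Fin (m + 1) × ZMod p), vt t = A ++ B ∧
      ∀ g : ZMod p, vt (Function.update t j (some g)) = A ++ (j, g) :: B := by
  obtain ⟨L1, L2, hL⟩ := List.append_of_mem (List.mem_finRange j)
  have hnd := List.nodup_finRange (m + 1)
  rw [hL, List.nodup_append] at hnd
  obtain ⟨h1, h2, h3⟩ := hnd
  rw [List.nodup_cons] at h2
  have hj1 : ∀ k ∈ L1, k ≠ j := fun k hk => h3 k hk j List.mem_cons_self
  have hj2 : ∀ k ∈ L2, k ≠ j := by
    rintro k hk rfl
    exact h2.1 hk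
  refine ⟨L1.filterMap (fun j => (t j).map (fun g => (j, g))),
    L2.filterMap (fun j => (t j).map (fun g => (j, g))), ?_, fun g => ?_⟩
  · unfold vt
    rw [hL, List.filterMap_append, List.filterMap_cons, hj]
    rfl
  · unfold vt
    rw [hL, List.filterMap_append, List.filterMap_cons, Function.update_self]
    congr 1
    · refine List.filterMap_congr fun k hk => ?_
      rw [Function.update_of_ne (hj1 k hk)]
    · show (j, g) :: _ = _
      congr 1
      refine List.filterMap_congr fun k hk => ?_
      rw [Function.update_of_ne (hj2 k hk)]

private theorem th_smul (u : V) (c : R) (F : List V → R) (L : List V) :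
    th u (fun zs => c * F zs) L = c * th u F L := by
  induction L generalizing F with
  | nil => rw [th_nil, th_nil, mul_zero]
  | cons y ys ih =>
    rw [th_cons, th_cons, ih (fun zs => F (y :: zs))]
    split_ifs <;> ring

private theorem DU_swap (u : V) (A B L : List V) :
    (DU (u :: (A ++ B)) : List V → R) L = (-1) ^ A.length * DU (A ++ u :: B) L := by
  induction A generalizing L with
  | nil => simp
  | cons a A ih =>
    have h1 : (DU (u :: (A ++ B)) : List V → R) =
        fun L => (-1) ^ A.length * DU (A ++ u :: B) L := funext ih
    rw [DU_cons] at h1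
    have h2 := th_anti u a (DU (A ++ B) : List V → R) L
    rw [h1, th_smul] at h2
    rw [List.cons_append, List.cons_append, DU_cons, DU_cons, DU_cons, List.length_cons, pow_succ]
    linear_combination h2

omit [DecidableEq V] in
private theorem bdL_swap (u : V) (A B : List V) (hA : u ∉ A) (hB : u ∉ B) :
    (bdL R (A ++ u :: B)) (A ++ B) = (-1) ^ A.length := by
  induction A with
  | nil =>
    rw [List.nil_append, List.nil_append, bdL, Finsupp.sub_apply, Finsupp.single_eq_same,
      List.length_nil, pow_zero, cone, Finsupp.lmapDomain_apply, Finsupp.mapDomain_of_notMem_range,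
      sub_zero]
    rintro ⟨L, hL⟩
    exact hB (hL ▸ List.mem_cons_self)
  | cons a A ih =>
    have hA' : u ∉ A := fun h => hA (List.mem_cons_of_mem _ h)
    rw [List.cons_append, List.cons_append, bdL, Finsupp.sub_apply, Finsupp.single_eq_of_ne,
      cone, Finsupp.lmapDomain_apply, Finsupp.mapDomain_apply (List.cons_injective),
      ih hA', List.length_cons, pow_succ]
    · ring
    · intro h
      have h1 : u ∈ a :: (A ++ B) := by
        rw [h]
        exact List.mem_append_right _ List.mem_cons_self
      rcases List.mem_cons.1 h1 with rfl | h1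
      · exact hA List.mem_cons_self
      · rcases List.mem_append.1 h1 with h1 | h1
        · exact hA' h1
        · exact hB h1

private theorem vt_mono {m p : ℕ} (t s : PF m p) (h : ∀ j g, t j = some g → s j = some g) :
    (vt t).Sublist (vt s) := by
  unfold vt
  refine filterMap_mono (fun j x hx => ?_) _
  rw [Option.map_eq_some_iff] at hx ⊢
  obtain ⟨g, h1, h2⟩ := hx
  exact ⟨g, h j g h1, h2⟩

private theorem bdM_ne {m p : ℕ} (t s : PF m p) (h : bdM R m p t s ≠ 0) :
    ∃ (j : Fin (m + 1)) (g : ZMod p), t j = none ∧ s = Function.update t j (some g) := by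
  classical
  have h1 := bdL_support (R := R) (vt s) (vt t) (Finsupp.mem_support_iff.2 h)
  have h2 : ∀ j g, t j = some g → s j = some g := by
    intro j g hj
    rw [← mem_vt] at hj ⊢
    exact h1.1.subset hj
  by_cases h3 : ∀ j, t j = none → s j = none
  · have h4 : s = t := by
      funext j
      cases hj : t j with
      | none => exact h3 j hj
      | some g => exact h2 j g hj
    rw [h4] at h1
    omega
  · push Not at h3
    obtain ⟨j, hj, hj2⟩ := h3
    obtain ⟨g, hg⟩ := Option.ne_none_iff_exists'.1 hj2
    refine ⟨j, g, hj, ?_⟩
    obtain ⟨A, B, hAB, hAB2⟩ := vt_split t j hj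
    have h5 : (vt (Function.update t j (some g))).Sublist (vt s) := by
      refine vt_mono _ _ fun k g' hk => ?_
      by_cases hkj : k = j
      · subst hkj
        rw [Function.update_self] at hk
        rw [hg, hk]
      · rw [Function.update_of_ne hkj] at hk
        exact h2 k g' hk
    have h6 : (vt (Function.update t j (some g))).length = (vt s).length := by
      rw [← h1.2, hAB, hAB2 g]
      simp only [List.length_append, List.length_cons]
      omega
    exact (vt_inj (h5.eq_of_length h6)).symm

/-- The chain map property. For a compatible list `L`: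
`δ (D_t) (L) = ∑ s, ∂(t, s) D_s (L)`. Proof. By `sum_th` the left side is the sum over all
vertices `u` of `th u (D_t) L = D_(u :: t) L`. If `u` is in `t` this is `0` by `th_anti`, `th_th`.
If `u = (j, g)` is not in `t`, but some `(j, g')` is in `t`, it is `0` by `DU_mem`, as `L` is
compatible. Otherwise let `s` be `t` with `u` inserted; by anticommutation
`D_(u :: t) = ± D_s`, and the same sign is the coefficient of `t` in the boundary of `s`
(the number of entries of `t` before `j`); all other `s` have coefficient `0`. -/
theorem DU_coboundary {m p : ℕ} [NeZero p] (t : PF m p) (L : List (Fin (m + 1) × ZMod p))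
    (hL : Compat L) :
    Finsupp.linearCombination R (DU (vt t) : List (Fin (m + 1) × ZMod p) → R) (bdL R L) =
      ∑ s, bdM R m p t s * DU (vt s) L := by
  classical
  rw [← sum_th]
  have hz : ∀ u : Fin (m + 1) × ZMod p, t u.1 ≠ none →
      th u (DU (vt t) : List (Fin (m + 1) × ZMod p) → R) L = 0 := by
    rintro ⟨j, g⟩ hu
    obtain ⟨g', hg'⟩ := Option.ne_none_iff_exists'.1 hu
    have hmem : (j, g') ∈ vt t := (mem_vt t j g').2 hg'
    by_contra hne
    rw [← DU_cons] at hne
    have h1 := DU_mem _ _ hne (j, g) List.mem_cons_self
    have h2 := DU_mem _ _ hne (j, g') (List.mem_cons_of_mem _ hmem)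
    have h3 := hL _ h1 _ h2 rfl
    rw [h3] at hne
    obtain ⟨A, B, hAB⟩ := List.append_of_mem hmem
    apply hne
    rw [hAB, DU_swap]
    have h4 : (DU (A ++ (j, g') :: (j, g') :: B) : List (Fin (m + 1) × ZMod p) → R) L = 0 := by
      have h5 : ∀ L : List (Fin (m + 1) × ZMod p),
          (DU (A ++ (j, g') :: (j, g') :: B) : List (Fin (m + 1) × ZMod p) → R) L = 0 := by
        clear hAB hne h1 h2
        induction A with
        | nil => exact fun L => th_th _ _ L
        | cons a A ih =>
          intro L
          rw [List.cons_append, DU_cons, funext ih]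
          exact th_zero a L
      exact h5 L
    rw [h4, mul_zero]
  have hval : ∀ u : Fin (m + 1) × ZMod p, t u.1 = none →
      th u (DU (vt t) : List (Fin (m + 1) × ZMod p) → R) L =
        bdM R m p t (Function.update t u.1 (some u.2)) *
          DU (vt (Function.update t u.1 (some u.2))) L := by
    rintro ⟨j, g⟩ hu
    obtain ⟨A, B, h1, h2⟩ := vt_split t j hu
    have hnot : (j, g) ∉ A ++ B := by
      rw [← h1, mem_vt, show t j = none from hu]
      exact fun h => by cases h
    rw [List.mem_append, not_or] at hnot
    show _ = (bdL R (vt (Function.update t j (some g)))) (vt t) *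
      DU (vt (Function.update t j (some g))) L
    rw [← DU_cons, h1, h2 g, DU_swap, bdL_swap _ _ _ hnot.1 hnot.2]
  have hinj : Set.InjOn (fun u : Fin (m + 1) × ZMod p => Function.update t u.1 (some u.2))
      ((Finset.univ.filter fun u : Fin (m + 1) × ZMod p => t u.1 = none : Finset _) : Set _) := by
    rintro ⟨j, g⟩ hu ⟨k, g'⟩ hv huv
    have hu' : t j = none := (Finset.mem_filter.1 hu).2
    have huv' : Function.update t j (some g) = Function.update t k (some g') := huv
    have h1 := congrFun huv' j
    rw [Function.update_self] at h1
    by_cases hjk : j = k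
    · subst hjk
      rw [Function.update_self] at h1
      rw [Option.some.inj h1]
    · rw [Function.update_of_ne hjk, hu'] at h1
      cases h1
  rw [← Finset.sum_filter_add_sum_filter_not Finset.univ
    (fun u : Fin (m + 1) × ZMod p => t u.1 = none)]
  rw [Finset.sum_eq_zero (s := Finset.univ.filter fun u : Fin (m + 1) × ZMod p => ¬ t u.1 = none)
    (fun u hu => hz u (Finset.mem_filter.1 hu).2), add_zero,
    Finset.sum_congr rfl (fun u hu => hval u (Finset.mem_filter.1 hu).2)]
  rw [← Finset.sum_image (g := fun u : Fin (m + 1) × ZMod p => Function.update t u.1 (some u.2))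
    (f := fun s => bdM R m p t s * DU (vt s) L) hinj]
  refine Finset.sum_subset (Finset.subset_univ _) fun s _ hs => ?_
  by_contra hne
  have h1 : bdM R m p t s ≠ 0 := fun h => hne (by rw [h, zero_mul])
  obtain ⟨j, g, hj, rfl⟩ := bdM_ne t s h1
  exact hs (Finset.mem_image.2 ⟨(j, g), Finset.mem_filter.2 ⟨Finset.mem_univ _, hj⟩, rfl⟩)

end LW
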