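import Pool.Agent.Lib.LW.ChA

/-!
Row A4: the trace argument. There is no equivariant chain map of the join of `m + 1` copies of
`ZMod p` which is the identity on the empty simplex and `0` on the top simplices.

Proof. Let `C` be the space of functions on `PF m p` (all simplices with the empty one), `∂` the
boundary matrix. It is the tensor product of `m + 1` copies of the complex
`A = (span of [g], g in ZMod p) -> (span of the empty simplex)`, which has the homotopy
`h(empty) = [0]`, `h [g] = 0` with `∂h + h∂ = 1 - π`, `π(empty) = 0`, `π [g] = [g] - [0]`.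
Recursively one gets `H` on `C` with `∂H + H∂ = 1 - Π`, where
`Π` kills all simplices which are not top. Supertrace `str X = ∑ s, (-1)^(length s) X s s`.
`ψ = ψ(∂H + H∂) + ψΠ = ∂(ψH) + (ψH)∂ + ψΠ`; the supertrace of `∂X + X∂` is `0`
for every `X` (`∂` lowers the length by one), and `ψΠ = 0`. So `str ψ = 0`. On the other hand
`ψ s s` is invariant under `shS`, which acts without fixed points on the nonempty simplices, so
`str ψ = ψ(empty, empty) = 1`.
-/

namespace LW

open Matrix Kronecker

private def A4vt {k p : ℕ} (s : Fin k → Option (ZMod p)) : List (Fin k × ZMod p) :=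
  (List.finRange k).filterMap (fun j => (s j).map (fun g => (j, g)))

private noncomputable def A4B (k p : ℕ) :
    Matrix (Fin k → Option (ZMod p)) (Fin k → Option (ZMod p)) (ZMod p) :=
  fun s s' => (bdL (ZMod p) (A4vt s')) (A4vt s)

private def A4f {k p : ℕ} (u : Fin k × ZMod p) : Fin (k + 1) × ZMod p := (u.1.succ, u.2)

private lemma A4f_inj {k p : ℕ} : Function.Injective (A4f : Fin k × ZMod p → _) := by
  rintro ⟨a, g⟩ ⟨b, g'⟩ h
  simp only [A4f, Prod.mk.injEq, Fin.succ_inj] at h
  simp [h.1, h.2]

private lemma A4cases {k : ℕ} {X : Type*} (s : Fin (k + 1) → X) :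
    ∃ (a : X) (s' : Fin k → X), s = Fin.cons a s' :=
  ⟨s 0, Fin.tail s, (Fin.cons_self_tail s).symm⟩

private lemma A4vt_none {k p : ℕ} (s : Fin k → Option (ZMod p)) :
    A4vt (Fin.cons none s : Fin (k + 1) → Option (ZMod p)) = (A4vt s).map A4f := by
  simp only [A4vt, List.finRange_succ, List.filterMap_cons, Fin.cons_zero, Option.map_none,
    List.filterMap_map, List.map_filterMap]
  congr 1
  funext j
  simp only [Function.comp_apply, Fin.cons_succ]
  cases s j <;> rfl

private lemma A4vt_some {k p : ℕ} (g : ZMod p) (s : Fin k → Option (ZMod p)) :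
    A4vt (Fin.cons (some g) s : Fin (k + 1) → Option (ZMod p)) = (0, g) :: (A4vt s).map A4f := by
  simp only [A4vt, List.finRange_succ, List.filterMap_cons, Fin.cons_zero, Option.map_some,
    List.filterMap_map, List.map_filterMap]
  congr 2
  funext j
  simp only [Function.comp_apply, Fin.cons_succ]
  cases s j <;> rfl

private lemma A4vt_inj {k p : ℕ} : Function.Injective
    (A4vt : (Fin k → Option (ZMod p)) → List (Fin k × ZMod p)) := by
  induction k with
  | zero => intro s t _; exact Subsingleton.elim _ _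
  | succ k ih =>
    intro s t h
    obtain ⟨a, s, rfl⟩ := A4cases s
    obtain ⟨b, t, rfl⟩ := A4cases t
    rcases a with _ | a <;> rcases b with _ | b
    · rw [A4vt_none, A4vt_none] at h
      rw [ih (List.map_injective_iff.mpr A4f_inj h)]
    · rw [A4vt_none, A4vt_some] at h
      rcases hs : A4vt s with _ | ⟨x, xs⟩
      · rw [hs] at h; simp at h
      · rw [hs] at h
        simp only [List.map_cons, List.cons.injEq] at h
        have := congrArg Prod.fst h.1
        exact absurd this (Fin.succ_ne_zero _)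
    · rw [A4vt_none, A4vt_some] at h
      rcases hs : A4vt t with _ | ⟨x, xs⟩
      · rw [hs] at h; simp at h
      · rw [hs] at h
        simp only [List.map_cons, List.cons.injEq] at h
        have := congrArg Prod.fst h.1
        exact absurd this.symm (Fin.succ_ne_zero _)
    · rw [A4vt_some, A4vt_some] at h
      simp only [List.cons.injEq, Prod.mk.injEq, true_and] at h
      rw [ih (List.map_injective_iff.mpr A4f_inj h.2), h.1]

/-- lists not starting with a successor vertex are not in the image of `map A4f` -/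
private lemma A4_mapDomain_zero {k p : ℕ} (c : List (Fin k × ZMod p) →₀ ZMod p)
    (g : ZMod p) (L : List (Fin (k + 1) × ZMod p)) :
    Finsupp.mapDomain (List.map A4f) c ((0, g) :: L) = 0 := by
  apply Finsupp.mapDomain_of_notMem_range
  rintro ⟨L', hL'⟩
  rcases L' with _ | ⟨x, xs⟩
  · simp at hL'
  · simp only [List.map_cons, List.cons.injEq] at hL'
    exact absurd (congrArg Prod.fst hL'.1) (Fin.succ_ne_zero _)

private lemma A4_map {k p : ℕ} (L : List (Fin k × ZMod p)) :
    bdL (ZMod p) (L.map A4f) = Finsupp.mapDomain (List.map A4f) (bdL (ZMod p) L) := by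
  have h := bd_map (R := ZMod p) (A4f (k := k) (p := p)) (Finsupp.single L 1)
  rw [Finsupp.mapDomain_single, bd_single, bd_single, one_smul, one_smul] at h
  exact h

private lemma A4_cone_zero {k p : ℕ} (g : ZMod p) (c : List (Fin (k + 1) × ZMod p) →₀ ZMod p)
    (L : List (Fin k × ZMod p)) : cone (ZMod p) ((0 : Fin (k + 1)), g) c (L.map A4f) = 0 := by
  apply Finsupp.mapDomain_of_notMem_range
  rintro ⟨L', hL'⟩
  rcases L with _ | ⟨x, xs⟩
  · simp at hL'
  · simp only [List.map_cons, List.cons.injEq] at hL'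
    exact absurd (congrArg Prod.fst hL'.1).symm (Fin.succ_ne_zero _)

private lemma A4_cone_cons {k p : ℕ} (g g' : ZMod p)
    (c : List (Fin (k + 1) × ZMod p) →₀ ZMod p) (L : List (Fin (k + 1) × ZMod p)) :
    cone (ZMod p) ((0 : Fin (k + 1)), g) c ((0, g') :: L) = if g' = g then c L else 0 := by
  split_ifs with h
  · subst h
    exact Finsupp.mapDomain_apply (List.cons_injective) _ _
  · apply Finsupp.mapDomain_of_notMem_range
    rintro ⟨L', hL'⟩
    simp only [List.cons.injEq, Prod.mk.injEq, true_and] at hL'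
    exact h hL'.1.symm

private lemma A4B_nn {k p : ℕ} (s t : Fin k → Option (ZMod p)) :
    A4B (k + 1) p (Fin.cons none s) (Fin.cons none t) = A4B k p s t := by
  simp only [A4B]
  rw [A4vt_none, A4vt_none, A4_map,
    Finsupp.mapDomain_apply (List.map_injective_iff.mpr A4f_inj)]

private lemma A4B_sn {k p : ℕ} (g : ZMod p) (s t : Fin k → Option (ZMod p)) :
    A4B (k + 1) p (Fin.cons (some g) s) (Fin.cons none t) = 0 := by
  simp only [A4B]
  rw [A4vt_none, A4vt_some, A4_map, A4_mapDomain_zero]

private lemma A4B_ns {k p : ℕ} (g : ZMod p) (s t : Fin k → Option (ZMod p)) :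
    A4B (k + 1) p (Fin.cons none s) (Fin.cons (some g) t) = if s = t then 1 else 0 := by
  simp only [A4B]
  rw [A4vt_none, A4vt_some, bdL, Finsupp.sub_apply, A4_cone_zero, sub_zero,
    Finsupp.single_apply]
  congr 1
  rw [(List.map_injective_iff.mpr A4f_inj).eq_iff, A4vt_inj.eq_iff]
  exact propext eq_comm

private lemma A4B_ss {k p : ℕ} (g g' : ZMod p) (s t : Fin k → Option (ZMod p)) :
    A4B (k + 1) p (Fin.cons (some g) s) (Fin.cons (some g') t) =
      if g = g' then - A4B k p s t else 0 := by
  simp only [A4B]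
  rw [A4vt_some, A4vt_some, bdL, Finsupp.sub_apply, A4_cone_cons, Finsupp.single_apply]
  have h1 : ¬ ((A4vt t).map A4f = (0, g) :: (A4vt s).map A4f) := by
    intro h
    rcases ht : A4vt t with _ | ⟨x, xs⟩
    · rw [ht] at h; simp at h
    · rw [ht] at h
      simp only [List.map_cons, List.cons.injEq] at h
      exact absurd (congrArg Prod.fst h.1) (Fin.succ_ne_zero _)
  rw [if_neg h1, zero_sub]
  split_ifs with h
  · rw [A4_map, Finsupp.mapDomain_apply (List.map_injective_iff.mpr A4f_inj)]
  · simp

/-! the small matrices -/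

private def mb (p : ℕ) : Matrix (Option (ZMod p)) (Option (ZMod p)) (ZMod p)
  | none, some _ => 1
  | _, _ => 0

private def ms (p : ℕ) : Matrix (Option (ZMod p)) (Option (ZMod p)) (ZMod p) :=
  Matrix.diagonal (fun a => match a with | none => 1 | some _ => -1)

private def mh (p : ℕ) : Matrix (Option (ZMod p)) (Option (ZMod p)) (ZMod p) :=
  fun a b => if a = some 0 ∧ b = none then 1 else 0

private def mpi (p : ℕ) : Matrix (Option (ZMod p)) (Option (ZMod p)) (ZMod p) :=
  fun a b => match b with
    | none => 0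
    | some g => (if a = some g then 1 else 0) - (if a = some 0 then 1 else 0)

private def A4e (k p : ℕ) : (Fin (k + 1) → Option (ZMod p)) ≃
    Option (ZMod p) × (Fin k → Option (ZMod p)) :=
  (Fin.consEquiv (fun _ => Option (ZMod p))).symm

private lemma A4e_cons {k p : ℕ} (a : Option (ZMod p)) (s : Fin k → Option (ZMod p)) :
    A4e k p (Fin.cons a s) = (a, s) := by
  simp [A4e, Fin.consEquiv]

private lemma A4B_succ (k p : ℕ) : A4B (k + 1) p =
    (mb p ⊗ₖ (1 : Matrix (Fin k → Option (ZMod p)) (Fin k → Option (ZMod p)) (ZMod p)) +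
      ms p ⊗ₖ A4B k p).submatrix (A4e k p) (A4e k p) := by
  ext s t
  obtain ⟨a, s, rfl⟩ := A4cases s
  obtain ⟨b, t, rfl⟩ := A4cases t
  simp only [Matrix.submatrix_apply, A4e_cons, Matrix.add_apply, Matrix.kroneckerMap_apply]
  rcases a with _ | a <;> rcases b with _ | b
  · rw [A4B_nn]; simp [mb, ms]
  · rw [A4B_ns]; simp [mb, ms, Matrix.one_apply]
  · rw [A4B_sn]; simp [mb, ms]
  · rw [A4B_ss]
    simp only [mb, ms, Matrix.diagonal_apply, zero_mul, zero_add, Option.some.injEq]
    split_ifs <;> simp

private lemma small1 (p : ℕ) [NeZero p] : mb p * mh p + mh p * mb p = 1 - mpi p := by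
  ext a b
  simp only [Matrix.add_apply, Matrix.sub_apply, Matrix.mul_apply, Fintype.sum_option,
    Matrix.one_apply]
  rcases a with _ | a <;> rcases b with _ | b <;> simp [mb, mh, mpi]

private lemma small2 (p : ℕ) [NeZero p] : mb p * mpi p = 0 := by
  ext a b
  simp only [Matrix.mul_apply, Fintype.sum_option, Matrix.zero_apply]
  rcases a with _ | a <;> rcases b with _ | b <;> simp [mb, mpi]

private lemma small3 (p : ℕ) [NeZero p] : mpi p * mb p = 0 := by
  ext a b
  simp only [Matrix.mul_apply, Fintype.sum_option, Matrix.zero_apply]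
  rcases a with _ | a <;> rcases b with _ | b <;> simp [mb, mpi]

private lemma small4 (p : ℕ) [NeZero p] : ms p * mh p + mh p * ms p = 0 := by
  ext a b
  simp only [ms, Matrix.add_apply, Matrix.diagonal_mul, Matrix.mul_diagonal, Matrix.zero_apply]
  rcases a with _ | a <;> rcases b with _ | b <;> simp [mh]
  split_ifs <;> simp

private lemma small5 (p : ℕ) [NeZero p] : ms p * mpi p = - mpi p := by
  ext a b
  simp only [ms, Matrix.diagonal_mul, Matrix.neg_apply]
  rcases a with _ | a <;> rcases b with _ | b <;> simp [mpi]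

private lemma small6 (p : ℕ) [NeZero p] : mpi p * ms p = - mpi p := by
  ext a b
  simp only [ms, Matrix.mul_diagonal, Matrix.neg_apply]
  rcases a with _ | a <;> rcases b with _ | b <;> simp [mpi]

private lemma A4_neg_kron {R' : Type*} [CommRing R'] {a b : Type*} (A : Matrix a a R')
    (B : Matrix b b R') :
    (-A) ⊗ₖ B = -(A ⊗ₖ B) := by
  ext ⟨i, j⟩ ⟨k, l⟩
  simp [Matrix.kroneckerMap_apply]

private noncomputable def A4H (p : ℕ) [NeZero p] : (k : ℕ) →
    Matrix (Fin k → Option (ZMod p)) (Fin k → Option (ZMod p)) (ZMod p)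
  | 0 => 0
  | k + 1 => (mh p ⊗ₖ (1 : Matrix (Fin k → Option (ZMod p)) (Fin k → Option (ZMod p)) (ZMod p)) -
      mpi p ⊗ₖ A4H p k).submatrix (A4e k p) (A4e k p)

private noncomputable def A4P (p : ℕ) [NeZero p] : (k : ℕ) →
    Matrix (Fin k → Option (ZMod p)) (Fin k → Option (ZMod p)) (ZMod p)
  | 0 => 1
  | k + 1 => (mpi p ⊗ₖ A4P p k).submatrix (A4e k p) (A4e k p)

private lemma A4_homotopy (p : ℕ) [NeZero p] (k : ℕ) :
    A4B k p * A4H p k + A4H p k * A4B k p = 1 - A4P p k := by
  induction k with
  | zero =>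
    ext s t
    have hB : A4B 0 p = 0 := by
      ext s t
      simp [A4B, A4vt, bdL]
    simp [hB, A4H, A4P]
  | succ k ih =>
    rw [A4B_succ, A4H, A4P, Matrix.submatrix_mul_equiv, Matrix.submatrix_mul_equiv]
    have h1 : (1 : Matrix (Fin (k + 1) → Option (ZMod p)) (Fin (k + 1) → Option (ZMod p))
        (ZMod p)) = (1 : Matrix (Option (ZMod p) × (Fin k → Option (ZMod p)))
        (Option (ZMod p) × (Fin k → Option (ZMod p))) (ZMod p)).submatrix (A4e k p)
        (A4e k p) := by
      rw [Matrix.submatrix_one_equiv]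
    rw [h1]
    have e1 : (mb p ⊗ₖ (1 : Matrix (Fin k → Option (ZMod p)) (Fin k → Option (ZMod p)) (ZMod p)) +
        ms p ⊗ₖ A4B k p) * (mh p ⊗ₖ 1 - mpi p ⊗ₖ A4H p k) =
        (mb p * mh p) ⊗ₖ 1 + (ms p * mh p) ⊗ₖ A4B k p + mpi p ⊗ₖ (A4B k p * A4H p k) := by
      rw [add_mul, mul_sub, mul_sub, ← Matrix.mul_kronecker_mul, ← Matrix.mul_kronecker_mul,
        ← Matrix.mul_kronecker_mul, ← Matrix.mul_kronecker_mul, small2, small5,
        A4_neg_kron, Matrix.zero_kronecker, Matrix.mul_one, Matrix.mul_one]
      abel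
    have e2 : (mh p ⊗ₖ (1 : Matrix (Fin k → Option (ZMod p)) (Fin k → Option (ZMod p)) (ZMod p)) -
        mpi p ⊗ₖ A4H p k) * (mb p ⊗ₖ 1 + ms p ⊗ₖ A4B k p) =
        (mh p * mb p) ⊗ₖ 1 + (mh p * ms p) ⊗ₖ A4B k p + mpi p ⊗ₖ (A4H p k * A4B k p) := by
      rw [sub_mul, mul_add, mul_add, ← Matrix.mul_kronecker_mul, ← Matrix.mul_kronecker_mul,
        ← Matrix.mul_kronecker_mul, ← Matrix.mul_kronecker_mul, small3, small6,
        A4_neg_kron, Matrix.zero_kronecker, Matrix.one_mul, Matrix.one_mul]
      abel
    have key : (mb p ⊗ₖ (1 : Matrix (Fin k → Option (ZMod p)) (Fin k → Option (ZMod p))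
        (ZMod p)) + ms p ⊗ₖ A4B k p) * (mh p ⊗ₖ 1 - mpi p ⊗ₖ A4H p k) +
        (mh p ⊗ₖ 1 - mpi p ⊗ₖ A4H p k) * (mb p ⊗ₖ 1 + ms p ⊗ₖ A4B k p) =
        1 - mpi p ⊗ₖ A4P p k := by
      rw [e1, e2]
      have e3 : (mb p * mh p) ⊗ₖ (1 : Matrix (Fin k → Option (ZMod p))
          (Fin k → Option (ZMod p)) (ZMod p)) + (mh p * mb p) ⊗ₖ 1 = 1 - mpi p ⊗ₖ 1 := by
        rw [← Matrix.add_kronecker, small1, sub_eq_add_neg, Matrix.add_kronecker,
          A4_neg_kron, Matrix.one_kronecker_one, ← sub_eq_add_neg]
      have e4 : (ms p * mh p) ⊗ₖ A4B k p + (mh p * ms p) ⊗ₖ A4B k p = 0 := by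
        rw [← Matrix.add_kronecker, small4, Matrix.zero_kronecker]
      have e5 : mpi p ⊗ₖ (A4B k p * A4H p k) + mpi p ⊗ₖ (A4H p k * A4B k p) =
          mpi p ⊗ₖ 1 - mpi p ⊗ₖ A4P p k := by
        rw [← Matrix.kronecker_add, ih]
        ext ⟨a, s⟩ ⟨b, t⟩
        simp [Matrix.kroneckerMap_apply, mul_sub]
      calc _ = ((mb p * mh p) ⊗ₖ (1 : Matrix (Fin k → Option (ZMod p))
          (Fin k → Option (ZMod p)) (ZMod p)) + (mh p * mb p) ⊗ₖ 1) +
          ((ms p * mh p) ⊗ₖ A4B k p + (mh p * ms p) ⊗ₖ A4B k p) +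
          (mpi p ⊗ₖ (A4B k p * A4H p k) + mpi p ⊗ₖ (A4H p k * A4B k p)) := by abel
        _ = 1 - mpi p ⊗ₖ A4P p k := by rw [e3, e4, e5]; abel
    exact congrArg (fun M => M.submatrix (A4e k p) (A4e k p)) key


private lemma A4P_full (p : ℕ) [NeZero p] (k : ℕ) (s t : Fin k → Option (ZMod p))
    (h : A4P p k s t ≠ 0) : ∀ j, s j ≠ none := by
  induction k with
  | zero => intro j; exact j.elim0
  | succ k ih =>
    obtain ⟨a, s, rfl⟩ := A4cases s
    obtain ⟨b, t, rfl⟩ := A4cases t
    simp only [A4P, Matrix.submatrix_apply, A4e_cons, Matrix.kroneckerMap_apply] at h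
    have h1 := left_ne_zero_of_mul h
    have h2 := right_ne_zero_of_mul h
    intro j
    refine Fin.cases ?_ (fun j => ?_) j
    · rw [Fin.cons_zero]
      rintro rfl
      apply h1
      rcases b with _ | b <;> simp [mpi]
    · rw [Fin.cons_succ]
      exact ih s t h2 j

private lemma A4B_length {k p : ℕ} (s t : Fin k → Option (ZMod p)) (h : A4B k p s t ≠ 0) :
    (A4vt s).length + 1 = (A4vt t).length :=
  (bdL_support (A4vt t) (A4vt s) (Finsupp.mem_support_iff.mpr h)).2

private lemma A4_str {k p : ℕ} [NeZero p]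
    (X : Matrix (Fin k → Option (ZMod p)) (Fin k → Option (ZMod p)) (ZMod p)) :
    ∑ s, (-1 : ZMod p) ^ (A4vt s).length * (A4B k p * X + X * A4B k p) s s = 0 := by
  simp only [Matrix.add_apply, Matrix.mul_apply, mul_add, Finset.mul_sum,
    Finset.sum_add_distrib]
  conv_lhs => arg 2; rw [Finset.sum_comm]
  rw [← Finset.sum_add_distrib]
  apply Finset.sum_eq_zero
  intro s _
  rw [← Finset.sum_add_distrib]
  apply Finset.sum_eq_zero
  intro t _
  by_cases h : A4B k p s t = 0
  · rw [h]; ring
  · rw [← A4B_length s t h, pow_succ]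
    ring

private lemma A4_sum_invariant {p : ℕ} [Fact p.Prime] {α : Type*} [Fintype α] (f : α → α)
    (hf : ∀ x, f^[p] x = x) (F : α → ZMod p) (hF : ∀ s, F (f s) = F s) (a : α)
    (hfix : ∀ s, f s = s ↔ s = a) : ∑ s, F s = F a := by
  classical
  have hcard : ∀ c : ZMod p, (((Finset.univ.filter (fun s => F s = c)).card : ℕ) : ZMod p) =
      if F a = c then 1 else 0 := by
    intro c
    let fc : Function.End {s // F s = c} := fun s => ⟨f s.1, by rw [hF]; exact s.2⟩
    have hfc : fc ^ p ^ 1 = 1 := by
      funext s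
      rw [pow_one]
      have hit : ∀ n : ℕ, ∀ s : {s // F s = c}, ((fc ^ n) s).1 = f^[n] s.1 := by
        intro n
        induction n with
        | zero => intro s; rfl
        | succ n ih =>
          intro s
          rw [pow_succ, Function.iterate_succ_apply]
          exact ih (fc s)
      apply Subtype.ext
      rw [hit, hf]
      rfl
    have h1 := Equiv.Perm.card_fixedPoints_modEq (f := fc) (p := p) (n := 1) hfc
    have h2 : (Fintype.card {s // F s = c} : ZMod p) =
        (Fintype.card (Function.fixedPoints fc) : ZMod p) :=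
      (ZMod.natCast_eq_natCast_iff _ _ _).mpr h1
    rw [← Fintype.card_subtype, h2]
    split_ifs with hac
    · have : Fintype.card (Function.fixedPoints fc) = 1 := by
        rw [Fintype.card_eq_one_iff]
        refine ⟨⟨⟨a, hac⟩, Subtype.ext ((hfix a).mpr rfl)⟩, ?_⟩
        rintro ⟨⟨s, hs⟩, hs2⟩
        apply Subtype.ext
        apply Subtype.ext
        exact (hfix s).mp (congrArg Subtype.val hs2)
      rw [this, Nat.cast_one]
    · have : Fintype.card (Function.fixedPoints fc) = 0 := by
        rw [Fintype.card_eq_zero_iff]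
        constructor
        rintro ⟨⟨s, hs⟩, hs2⟩
        have := (hfix s).mp (congrArg Subtype.val hs2)
        subst this
        exact hac hs
      rw [this, Nat.cast_zero]
  calc ∑ s, F s = ∑ c : ZMod p, ∑ s ∈ Finset.univ.filter (fun s => F s = c), F s := by
        rw [Finset.sum_fiberwise]
    _ = ∑ c : ZMod p, ((Finset.univ.filter (fun s => F s = c)).card : ZMod p) * c := by
        apply Finset.sum_congr rfl
        intro c _
        rw [Finset.sum_congr rfl (fun s hs => (Finset.mem_filter.mp hs).2), Finset.sum_const,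
          nsmul_eq_mul]
    _ = F a := by
        simp [hcard]

private lemma A4vt_sh {m p : ℕ} (s : PF m p) : (vt (shS s)).length = (vt s).length := by
  have h : vt (shS s) = (vt s).map shV := by
    simp only [vt, shS, List.map_filterMap]
    congr 1
    funext j
    cases s j <;> rfl
  rw [h, List.length_map]

theorem no_chain_map (m p : ℕ) [Fact p.Prime] (ψ : Matrix (PF m p) (PF m p) (ZMod p))
    (h1 : ∀ s s', (vt s).length ≠ (vt s').length → ψ s s' = 0)
    (h2 : ψ * bdM (ZMod p) m p = bdM (ZMod p) m p * ψ)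
    (h3 : ∀ s s', ψ (shS s) (shS s') = ψ s s')
    (h4 : ψ (fun _ => none) (fun _ => none) = 1)
    (h5 : ∀ s s', (∀ j, s' j ≠ none) → ψ s s' = 0) : False := by
  have : NeZero p := ⟨(Fact.out : p.Prime).ne_zero⟩
  have hB : bdM (ZMod p) m p = A4B (m + 1) p := rfl
  rw [hB] at h2
  have hom := A4_homotopy p (m + 1)
  have hψP : ψ * A4P p (m + 1) = 0 := by
    ext s t
    rw [Matrix.mul_apply, Matrix.zero_apply]
    apply Finset.sum_eq_zero
    intro u _
    by_cases hu : A4P p (m + 1) u t = 0
    · rw [hu, mul_zero]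
    · rw [h5 s u (A4P_full p (m + 1) u t hu), zero_mul]
  have hψ : ψ = A4B (m + 1) p * (ψ * A4H p (m + 1)) + (ψ * A4H p (m + 1)) * A4B (m + 1) p := by
    have e : ψ * (A4B (m + 1) p * A4H p (m + 1) + A4H p (m + 1) * A4B (m + 1) p) = ψ := by
      rw [hom, mul_sub, mul_one, hψP, sub_zero]
    conv_lhs => rw [← e]
    rw [mul_add, ← mul_assoc, h2, mul_assoc, mul_assoc]
  have hstr := A4_str (k := m + 1) (ψ * A4H p (m + 1))
  rw [← hψ] at hstr
  have hinv := A4_sum_invariant (p := p) (α := PF m p) shS
    (by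
      intro s
      have hit : ∀ n : ℕ, ∀ s : PF m p, shS^[n] s =
          fun j => (s j).map (fun g : ZMod p => g + (n : ZMod p)) := by
        intro n
        induction n with
        | zero =>
          intro s
          funext j
          simp
        | succ n ih =>
          intro s
          rw [Function.iterate_succ_apply', ih]
          funext j
          simp only [shS, Option.map_map]
          congr 1
          funext g
          simp only [Function.comp_apply]
          push_cast
          ring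
      rw [hit]
      funext j
      simp)
    (fun s => (-1 : ZMod p) ^ (vt s).length * ψ s s)
    (by
      intro s
      simp only [A4vt_sh, h3])
    (fun _ => none)
    (by
      intro s
      constructor
      · intro h
        funext j
        have := congrFun h j
        simp only [shS] at this
        rcases hj : s j with _ | g
        · rfl
        · rw [hj] at this
          simp at this
      · rintro rfl
        rfl)
  have hempty : (vt (fun _ => none : PF m p)).length = 0 := by
    simp [vt]
  simp only [hempty, h4, pow_zero, mul_one] at hinv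
  have : (0 : ZMod p) = 1 := by
    rw [← hinv, ← hstr]
    rfl
  exact zero_ne_one this

end LW
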