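import Pool.Agent.Lib.LW.ChB
import Pool.Agent.Lib.LW.ChC
import Pool.Agent.Lib.LW.ChD

/-!
Row A5: the Tucker type lemma for `ZMod p`.
Proof. `V = Fin (m+1) × ZMod p`, `P (j, g) = (T^[g.val]) (pt j)`. For `s : PF m p`
put `c s = ((Sd n)^t) [ (vt s).map P ]`, `n = length (vt s)`, `t` large, and
`ψ s s' = linearCombination (fun L => DU (vt s) (L.map lam')) (c s')`,
`lam' x = ((lam x).2.castSucc, (lam x).1)`. By `Sd_small_iter` (with `C` the convex hull of the
points `T^[g j] (pt j)` for a completion `g` of `s'`) all lists in the support of `c s'` are small,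
so their lists of labels are compatible by `hsep`. `h1`: `DU_length`. `h2`: `DU_coboundary`,
`bdL_vt`, `bd_map`, `Sd_bd`. `h3`: `Sd_map`, `DU_map` (note `P (shV u) = T (P u)` by `T^p = 1`).
`h4`: clear. `h5` (column at a top simplex): if `ψ s s' ≠ 0` then `s` is a top simplex too (by
length), but the label value `m` (last) does not occur, so `DU (vt s) = 0` by `DU_mem`.
Then `no_chain_map`.
-/

namespace LW

section aux

variable {R : Type*} [CommRing R]

private theorem A5_lc_congr {α : Type*} (F G : α → R) (c : α →₀ R)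
    (h : ∀ L ∈ c.support, F L = G L) :
    Finsupp.linearCombination R F c = Finsupp.linearCombination R G c := by
  rw [Finsupp.linearCombination_apply, Finsupp.linearCombination_apply, Finsupp.sum, Finsupp.sum]
  exact Finset.sum_congr rfl fun L hL => by rw [h L hL]

private theorem A5_lc_zero {α : Type*} (c : α →₀ R) :
    Finsupp.linearCombination R (fun _ : α => (0 : R)) c = 0 := by
  simp [Finsupp.linearCombination_apply]

private theorem A5_pow_comm {M N : Type*} [AddCommGroup M] [Module R M] [AddCommGroup N]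
    [Module R N] (A : M →ₗ[R] M) (B : N →ₗ[R] N) (f : M → N) (S : Set M)
    (hS : ∀ x ∈ S, A x ∈ S) (h : ∀ x ∈ S, f (A x) = B (f x)) (t : ℕ) (x : M) (hx : x ∈ S) :
    (A ^ t) x ∈ S ∧ f ((A ^ t) x) = (B ^ t) (f x) := by
  induction t with
  | zero => exact ⟨hx, rfl⟩
  | succ t ih =>
    rw [pow_succ', pow_succ', Module.End.mul_apply, Module.End.mul_apply]
    exact ⟨hS _ ih.1, by rw [h _ ih.1, ih.2]⟩

private theorem A5_bdL_map {α β : Type*} (f : α → β) (L : List α) :
    bdL R (L.map f) = Finsupp.mapDomain (List.map f) (bdL R L) := by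
  have h := bd_map (R := R) f (Finsupp.single L 1)
  rw [Finsupp.mapDomain_single, bd_single, bd_single, one_smul, one_smul] at h
  exact h

private theorem A5_lc_bd {α V : Type*} [DecidableEq V] (f : α → V) (F : List V → R)
    (c : List α →₀ R) :
    Finsupp.linearCombination R (fun L => F (List.map f L)) (bd R c) =
      Finsupp.linearCombination R
        (fun L => Finsupp.linearCombination R F (bdL R (List.map f L))) c := by
  induction c using Finsupp.induction_linear with
  | zero => simp
  | add a b ha hb => rw [map_add, map_add, map_add, ha, hb]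
  | single L r =>
    rw [bd_single, map_smul, Finsupp.linearCombination_single, A5_bdL_map,
      Finsupp.linearCombination_mapDomain]
    rfl

private theorem A5_vt_fst {m p : ℕ} (s : PF m p) :
    (vt s).map Prod.fst = (List.finRange (m + 1)).filter (fun j => (s j).isSome) := by
  rw [vt, List.map_filterMap, ← List.filterMap_eq_filter]
  congr 1
  funext j
  cases hj : s j <;> simp [Option.guard, hj]

private theorem A5_len_le {m p : ℕ} (s : PF m p) : (vt s).length ≤ m + 1 := by
  rw [← List.length_map (f := Prod.fst), A5_vt_fst]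
  exact (List.length_filter_le _ _).trans (by simp)

private theorem A5_top {m p : ℕ} (s : PF m p) (h : (vt s).length = m + 1) (j : Fin (m + 1)) :
    ∃ g, s j = some g ∧ (j, g) ∈ vt s := by
  rw [← List.length_map (f := Prod.fst), A5_vt_fst] at h
  have h2 : ((List.finRange (m + 1)).filter (fun j => (s j).isSome)).length =
      (List.finRange (m + 1)).length := by rw [h]; simp
  rw [List.length_filter_eq_length_iff] at h2
  have h3 := h2 j (List.mem_finRange j)
  obtain ⟨g, hg⟩ := Option.isSome_iff_exists.1 h3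
  refine ⟨g, hg, ?_⟩
  rw [vt, List.mem_filterMap]
  exact ⟨j, List.mem_finRange j, by rw [hg]; rfl⟩

private theorem A5_len_top {m p : ℕ} (s : PF m p) (h : ∀ j, s j ≠ none) :
    (vt s).length = m + 1 := by
  rw [← List.length_map (f := Prod.fst), A5_vt_fst, List.filter_eq_self.2]
  · simp
  · intro j _
    exact Option.isSome_iff_ne_none.2 (h j)

private theorem A5_vt_mem {m p : ℕ} (s : PF m p) (u : Fin (m + 1) × ZMod p) (h : u ∈ vt s) :
    s u.1 = some u.2 := by
  rw [vt, List.mem_filterMap] at h
  obtain ⟨j, _, hj⟩ := h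
  rw [Option.map_eq_some_iff] at hj
  obtain ⟨g, hg, rfl⟩ := hj
  exact hg

private theorem A5_vt_sh {m p : ℕ} (s : PF m p) : vt (shS s) = (vt s).map shV := by
  simp only [vt, shS, List.map_filterMap]
  congr 1
  funext j
  cases s j <;> rfl

end aux

theorem tucker (m p : ℕ) [Fact p.Prime] {Y : Type*} [NormedAddCommGroup Y] [NormedSpace ℝ Y]
    (T : Y →ₗ[ℝ] Y) (hT : ∀ x, T^[p] x = x) (pt : Fin (m + 1) → Y) (Q : Set Y)
    (hQ : ∀ g : Fin (m + 1) → ZMod p,
      convexHull ℝ (Set.range fun j => T^[(g j).val] (pt j)) ⊆ Q)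
    (lam : Y → ZMod p × Fin m)
    (heq : ∀ x ∈ Q, lam (T x) = ((lam x).1 + 1, (lam x).2))
    (ε : ℝ) (hε : 0 < ε)
    (hsep : ∀ x ∈ Q, ∀ y ∈ Q, dist x y < ε → (lam x).2 = (lam y).2 → (lam x).1 = (lam y).1) :
    False := by
  classical
  have : NeZero p := ⟨(Fact.out : p.Prime).ne_zero⟩
  let P : Fin (m + 1) × ZMod p → Y := fun u => T^[u.2.val] (pt u.1)
  have hP : ∀ u, P (shV u) = T (P u) := by
    intro u
    simp only [P, shV]
    rw [← Function.iterate_succ_apply' T, ZMod.val_add]
    have h1 : Function.IsPeriodicPt T p (pt u.1) := hT _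
    rw [h1.iterate_mod_apply]
    have h2 : (1 : ZMod p).val = 1 := ZMod.val_one p
    rw [h2]
  let lam' : Y → Fin (m + 1) × ZMod p := fun x => ((lam x).2.castSucc, (lam x).1)
  let δ : ℝ := ∑ u, ∑ v, dist (P u) (P v)
  have hδ : ∀ u v, dist (P u) (P v) ≤ δ := by
    intro u v
    refine (Finset.single_le_sum (f := fun v => dist (P u) (P v)) (fun _ _ => dist_nonneg)
      (Finset.mem_univ v)).trans ?_
    exact Finset.single_le_sum (f := fun u => ∑ v, dist (P u) (P v))
      (fun _ _ => Finset.sum_nonneg fun _ _ => dist_nonneg) (Finset.mem_univ u)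
  have hδ0 : 0 ≤ δ := Finset.sum_nonneg fun _ _ => Finset.sum_nonneg fun _ _ => dist_nonneg
  obtain ⟨t, ht⟩ : ∃ t : ℕ, ((m : ℝ) / (m + 1)) ^ t * δ < ε := by
    obtain ⟨t, ht⟩ := exists_pow_lt_of_lt_one (x := ε / (δ + 1)) (by positivity)
      (y := (m : ℝ) / (m + 1)) (by rw [div_lt_one (by positivity)]; linarith)
    refine ⟨t, ?_⟩
    rw [lt_div_iff₀ (by positivity)] at ht
    have : (0 : ℝ) ≤ ((m : ℝ) / (m + 1)) ^ t := by positivity
    linarith
  let c0 : PF m p → (List Y →₀ ZMod p) := fun s => Finsupp.single ((vt s).map P) 1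
  let c : PF m p → (List Y →₀ ZMod p) := fun s => ((Sd (ZMod p) (vt s).length) ^ t) (c0 s)
  have hc0 : ∀ s, c0 s ∈ lenC (ZMod p) Y (vt s).length := by
    intro s
    exact Finsupp.single_mem_supported _ 1 (by simp)
  -- the lists in the support of `c s`
  have hsup : ∀ s, ∀ L ∈ (c s).support, L.length = (vt s).length ∧ (∀ y ∈ L, y ∈ Q) ∧
      Compat (L.map lam') := by
    intro s L hL
    let g : Fin (m + 1) → ZMod p := fun j => (s j).getD 0
    have hsm : Small (convexHull ℝ (Set.range fun j => T^[(g j).val] (pt j))) δ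
        ((vt s).map P) := by
      constructor
      · intro y hy
        rw [List.mem_map] at hy
        obtain ⟨u, hu, rfl⟩ := hy
        apply subset_convexHull
        refine ⟨u.1, ?_⟩
        have := A5_vt_mem s u hu
        simp only [g, P, this]
        rfl
      · intro y hy z hz
        rw [List.mem_map] at hy hz
        obtain ⟨u, hu, rfl⟩ := hy
        obtain ⟨v, hv, rfl⟩ := hz
        exact hδ u v
    obtain ⟨h1, h2, h3⟩ := Sd_small_iter (R := ZMod p) m (vt s).length (A5_len_le s) _
      (convex_convexHull ℝ _) δ hδ0 ((vt s).map P) (by simp) hsm t L hL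
    refine ⟨h1, fun y hy => hQ g (h2 y hy), ?_⟩
    intro a ha b hb hab
    rw [List.mem_map] at ha hb
    obtain ⟨x, hx, rfl⟩ := ha
    obtain ⟨y, hy, rfl⟩ := hb
    have h4 : (lam x).2 = (lam y).2 := Fin.castSucc_injective _ hab
    have h5 := hsep x (hQ g (h2 x hx)) y (hQ g (h2 y hy)) (lt_of_le_of_lt (h3 x hx y hy) ht) h4
    simp only [lam', h4, h5]
  let ψ : Matrix (PF m p) (PF m p) (ZMod p) := fun s s' =>
    Finsupp.linearCombination (ZMod p) (fun L => (DU (vt s) : _ → ZMod p) (L.map lam')) (c s')
  have hψ : ∀ s s', ψ s s' = Finsupp.linearCombination (ZMod p)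
    (fun L => (DU (vt s) : _ → ZMod p) (L.map lam')) (c s') := fun _ _ => rfl
  have h1 : ∀ s s', (vt s).length ≠ (vt s').length → ψ s s' = 0 := by
    intro s s' hss
    rw [hψ, A5_lc_congr _ (fun _ => 0)]
    · exact A5_lc_zero _
    · intro L hL
      apply DU_length
      rw [List.length_map, (hsup s' L hL).1]
      exact hss
  -- boundary of `c s'`
  have hbd : ∀ s', bd (ZMod p) (c s') = ∑ s, bdM (ZMod p) m p s s' • c s := by
    intro s'
    have hb0 : bd (ZMod p) (c0 s') = ∑ s, bdM (ZMod p) m p s s' • c0 s := by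
      have : c0 s' = Finsupp.mapDomain (List.map P) (Finsupp.single (vt s') 1) := by
        rw [Finsupp.mapDomain_single]
      rw [this, bd_map, bd_single, one_smul, bdL_vt, Finsupp.mapDomain_finsetSum]
      refine Finset.sum_congr rfl fun s _ => ?_
      rw [Finsupp.mapDomain_smul, Finsupp.mapDomain_single]
    rcases Nat.eq_zero_or_pos (vt s').length with h0 | h0
    · have hz : ∀ s, bdM (ZMod p) m p s s' = 0 := by
        intro s
        change (bdL (ZMod p) (vt s')) (vt s) = 0
        rw [List.length_eq_zero_iff.1 h0, bdL]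
        rfl
      have hcs : c s' = c0 s' := by
        simp only [c, h0]
        rw [Sd]
        change ((1 : Module.End (ZMod p) (List Y →₀ ZMod p)) ^ t) (c0 s') = c0 s'
        rw [one_pow]
        rfl
      rw [hcs, hb0]
      refine Finset.sum_congr rfl fun s _ => ?_
      rw [hz s, zero_smul, zero_smul]
    · obtain ⟨k, hk⟩ : ∃ k, (vt s').length = k + 1 := ⟨(vt s').length - 1, by omega⟩
      have h2 : bd (ZMod p) (((Sd (ZMod p) (k + 1)) ^ t) (c0 s')) =
          ((Sd (ZMod p) k) ^ t) (bd (ZMod p) (c0 s')) := (A5_pow_comm (Sd (ZMod p) (k + 1))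
        (Sd (ZMod p) k)
        (fun x : List Y →₀ ZMod p => bd (ZMod p) x)
        (lenC (ZMod p) Y (k + 1) : Set (List Y →₀ ZMod p))
        (fun x hx => Sd_lenC _ _ hx) (fun x hx => Sd_bd _ _ hx) t (c0 s')
        (by have := hc0 s'; rw [hk] at this; exact this)).2
      have hcs : c s' = ((Sd (ZMod p) (k + 1)) ^ t) (c0 s') := by simp only [c, hk]
      rw [hcs, h2, hb0, map_sum]
      refine Finset.sum_congr rfl fun s _ => ?_
      rw [map_smul]
      by_cases hz : bdM (ZMod p) m p s s' = 0
      · rw [hz, zero_smul, zero_smul]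
      · have h3 : vt s ∈ (bdL (ZMod p) (vt s')).support := Finsupp.mem_support_iff.2 hz
        have h4 := (bdL_support _ _ h3).2
        have h5 : (vt s).length = k := by omega
        simp only [c, h5]
  refine no_chain_map m p ψ h1 ?_ ?_ ?_ ?_
  · -- chain map
    ext s s'
    rw [Matrix.mul_apply, Matrix.mul_apply]
    have e1 : ∑ t', ψ s t' * bdM (ZMod p) m p t' s' =
        Finsupp.linearCombination (ZMod p) (fun L => (DU (vt s) : _ → ZMod p) (L.map lam'))
          (bd (ZMod p) (c s')) := by
      rw [hbd, map_sum]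
      refine Finset.sum_congr rfl fun t' _ => ?_
      rw [map_smul, ← hψ, smul_eq_mul, mul_comm]
    rw [e1, A5_lc_bd, A5_lc_congr _ (fun L => ∑ t', bdM (ZMod p) m p s t' *
      (DU (vt t') : _ → ZMod p) (L.map lam')) _ (fun L hL => DU_coboundary s _ (hsup s' L hL).2.2)]
    rw [Finsupp.linearCombination_apply, Finsupp.sum]
    simp only [hψ, Finsupp.linearCombination_apply, Finsupp.sum, Finset.smul_sum, Finset.mul_sum]
    rw [Finset.sum_comm]
    refine Finset.sum_congr rfl fun t' _ => Finset.sum_congr rfl fun L _ => ?_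
    rw [smul_eq_mul, smul_eq_mul]
    ring
  · -- equivariance
    intro s s'
    have hcs : c (shS s') = Finsupp.mapDomain (List.map T) (c s') := by
      have h0 : c0 (shS s') = Finsupp.mapDomain (List.map T) (c0 s') := by
        simp only [c0]
        rw [Finsupp.mapDomain_single, A5_vt_sh, List.map_map, List.map_map]
        congr 2
        funext u
        exact hP u
      have hl : (vt (shS s')).length = (vt s').length := by rw [A5_vt_sh, List.length_map]
      have h2 : Finsupp.mapDomain (List.map T) (((Sd (ZMod p) (vt s').length) ^ t) (c0 s')) =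
          ((Sd (ZMod p) (vt s').length) ^ t) (Finsupp.mapDomain (List.map T) (c0 s')) :=
        (A5_pow_comm (Sd (ZMod p) (vt s').length) (Sd (ZMod p) (vt s').length)
        (fun x : List Y →₀ ZMod p => Finsupp.mapDomain (List.map T) x) Set.univ
        (fun x _ => Set.mem_univ _) (fun x _ => (Sd_map T _ x).symm) t (c0 s')
        (Set.mem_univ _)).2
      simp only [c, hl]
      rw [h0, h2]
    rw [hψ, hψ, hcs, Finsupp.linearCombination_mapDomain]
    apply A5_lc_congr
    intro L hL
    simp only [Function.comp_apply]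
    have h3 : (L.map T).map lam' = (L.map lam').map shV := by
      rw [List.map_map, List.map_map]
      apply List.map_congr_left
      intro x hx
      simp only [Function.comp_apply, lam', shV]
      rw [heq x ((hsup s' L hL).2.1 x hx)]
    rw [h3, A5_vt_sh]
    apply DU_map
    rintro ⟨a, b⟩ ⟨a', b'⟩ h
    simp only [shV, Prod.mk.injEq, add_left_inj] at h
    rw [h.1, h.2]
  · have hv : vt (fun _ => none : PF m p) = [] := by simp [vt]
    rw [hψ]
    simp only [c, c0, hv, List.length_nil, List.map_nil]
    rw [Sd]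
    change Finsupp.linearCombination (ZMod p) _
      (((1 : Module.End (ZMod p) (List Y →₀ ZMod p)) ^ t) (Finsupp.single [] 1)) = 1
    rw [one_pow, Module.End.one_apply, Finsupp.linearCombination_single]
    simp [DU]
  · intro s s' hs'
    by_cases hl : (vt s).length = (vt s').length
    · rw [A5_len_top s' hs'] at hl
      obtain ⟨g, _, hg⟩ := A5_top s hl (Fin.last m)
      rw [hψ, A5_lc_congr _ (fun _ => 0)]
      · exact A5_lc_zero _
      · intro L hL
        by_contra hne
        have h3 := DU_mem _ _ hne _ hg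
        rw [List.mem_map] at h3
        obtain ⟨x, _, hx⟩ := h3
        have := congrArg Prod.fst hx
        exact (Fin.castSucc_lt_last (lam x).2).ne this
    · exact h1 s s' hl

end LW
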