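import Mathlib

/-!
Row B1: counting.
-/

namespace LW

/-- If `c₀ D^n < s` then `c₀ (c + D M)^n < s M^n` for some `M > 0` (indeed for all large `M`:
divide by `M^n`; `c₀ (c / M + D)^n` tends to `c₀ D^n`). -/
theorem exists_M (c₀ D n s c : ℕ) (h : c₀ * D ^ n < s) :
    ∃ M : ℕ, 0 < M ∧ c₀ * (c + D * M) ^ n < s * M ^ n := by
  have h1 : Filter.Tendsto (fun M : ℕ => (c₀ : ℝ) * ((c : ℝ) / M + D) ^ n) Filter.atTop
      (nhds ((c₀ : ℝ) * (0 + D) ^ n)) :=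
    (((tendsto_const_div_atTop_nhds_zero_nat (c : ℝ)).add tendsto_const_nhds).pow n).const_mul _
  have h2 : (c₀ : ℝ) * (0 + D) ^ n < s := by
    rw [zero_add]
    exact_mod_cast h
  obtain ⟨M, hM, hM0⟩ := ((h1.eventually_lt_const h2).and (Filter.eventually_gt_atTop 0)).exists
  refine ⟨M, hM0, ?_⟩
  have hM1 : (0 : ℝ) < M := by exact_mod_cast hM0
  have h3 : (c₀ : ℝ) * ((c : ℝ) / M + D) ^ n * (M : ℝ) ^ n < s * (M : ℝ) ^ n :=
    mul_lt_mul_of_pos_right hM (pow_pos hM1 n)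
  have h4 : (c₀ : ℝ) * ((c : ℝ) / M + D) ^ n * (M : ℝ) ^ n = (c₀ : ℝ) * (c + D * M) ^ n := by
    rw [mul_assoc, ← mul_pow]
    congr 2
    field_simp
  rw [h4] at h3
  exact_mod_cast h3

end LW
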