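import Pool.Agent.Lib.LW.Defs
import Pool.Agent.Lib.LW.Cnt
import Pool.Agent.Lib.LW.BU

/-!
Row B3: the circle property from growth and the circle Borsuk-Ulam theorem.

Proof. Given `D r s γ`. Apply `Growth` to the finite set of all `γ l ρ`, get `E`, `c`; by
`exists_M` (with `c₀ = r (D + 1)`) choose `M` with `r (D + 1) (c + D M)^n < s M^n`; get `e`, `e'`
(index sets `I`, `I'` with `E M^n`, `E (c + D M)^n` elements).
For `l, ρ, κ : Fin D → I` write `γ l ρ * ∏ i, e (κ i) = ∑ λ, C l ρ κ λ • e' λ` with real `C`.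
Unknowns: `v : Fin s × I → ℂ`. For `j = (ρ, a, λ)` with `a : Fin (D + 1)`, `2 a ≠ D` put
`G j v = ∑ l, ∑ κ, C l ρ κ λ * ∏ i, (if i < a then v (l, κ i) else conj (v (l, κ i)))`.
`G j (u v) = u^a (conj u)^(D - a) G j v = u^(2 a - D) G j v` for `‖u‖ = 1`. The number of `j` is at
most `r (D + 1) E (c + D M)^n < s E M^n`. `circle_BU` gives `v ≠ 0`. Put
`w l = ∑ k, ⟨(v (l, k)).re • e k, (v (l, k)).im • e k⟩` in `Cx K`. `w ≠ 0` as `e` is linearly
independent over `ℝ`. Expanding `w l ^ a * star (w l) ^ (D - a)` (there is a ring homomorphism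
`ℂ → Cx K` commuting with the conjugations) gives
`∑ l, γ l ρ • (w l ^ a * star (w l) ^ (D - a)) = ∑ λ, G (ρ, a, λ) v * e' λ = 0`.
-/

namespace LW

/-- The ring homomorphism `ℂ → Cx K`. -/
private noncomputable def ciPhi (K : Type) [Field K] [Algebra ℝ K] : ℂ →+* Cx K where
  toFun z := ⟨algebraMap ℝ K z.re, algebraMap ℝ K z.im⟩
  map_one' := by
    ext <;> simp [QuadraticAlgebra.re_one, QuadraticAlgebra.im_one]
  map_mul' x y := by
    ext
    · simp
      ring
    · simp
  map_zero' := by ext <;> simp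
  map_add' x y := by ext <;> simp

private lemma ciPhi_re (K : Type) [Field K] [Algebra ℝ K] (z : ℂ) :
    (ciPhi K z).re = algebraMap ℝ K z.re := rfl

private lemma ciPhi_im (K : Type) [Field K] [Algebra ℝ K] (z : ℂ) :
    (ciPhi K z).im = algebraMap ℝ K z.im := rfl

private lemma ciPhi_conj (K : Type) [Field K] [Algebra ℝ K] (z : ℂ) :
    ciPhi K ((starRingEnd ℂ) z) = star (ciPhi K z) := by
  ext
  · simp [ciPhi_re, ciPhi_im]
  · simp [ciPhi_im]

private lemma ciPhi_ofReal (K : Type) [Field K] [Algebra ℝ K] (x : ℝ) :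
    ciPhi K (x : ℂ) = algebraMap K (Cx K) (algebraMap ℝ K x) := by
  ext
  · simp [ciPhi_re]
  · simp [ciPhi_im]

private lemma ci_star_alg {K : Type} [Field K] (x : K) :
    star (algebraMap K (Cx K) x) = algebraMap K (Cx K) x := by
  ext <;> simp

private lemma ci_prod_ite {R : Type*} [CommMonoid R] (D a : ℕ) (ha : a ≤ D) (x y : R) :
    ∏ i : Fin D, (if (i : ℕ) < a then x else y) = x ^ a * y ^ (D - a) := by
  obtain ⟨b, rfl⟩ := Nat.exists_eq_add_of_le ha
  rw [Fin.prod_univ_add]
  simp

private lemma ci_expand {R I : Type*} [CommSemiring R] [Fintype I] [DecidableEq I] (D a : ℕ)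
    (ha : a ≤ D) (x y : I → R) :
    (∑ k, x k) ^ a * (∑ k, y k) ^ (D - a) =
      ∑ κ : Fin D → I, ∏ i : Fin D, (if (i : ℕ) < a then x (κ i) else y (κ i)) := by
  have h := Finset.prod_univ_sum (fun _ : Fin D => (Finset.univ : Finset I))
    (fun i k => if (i : ℕ) < a then x k else y k)
  rw [Fintype.piFinset_univ] at h
  rw [← h, ← ci_prod_ite D a ha]
  refine Finset.prod_congr rfl fun i _ => ?_
  split_ifs <;> rfl

theorem circ_of_growth (K : Type) [Field K] [Algebra ℝ K] (n : ℕ) (h : Growth K n) :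
    Circ K n := by
  classical
  intro D r s γ hs
  obtain ⟨E, c, hE, hM⟩ := h (Finset.univ.image fun p : Fin s × Fin r => γ p.1 p.2) D
  obtain ⟨M, hM0, hlt⟩ := exists_M (r * (D + 1)) D n s c hs
  obtain ⟨e, e', hli, hsp⟩ := hM M
  have hC : ∀ (l : Fin s) (ρ : Fin r) (κ : Fin D → Fin E × (Fin n → Fin M)),
      ∃ C : Fin E × (Fin n → Fin (c + D * M)) → ℝ,
        ∑ q, C q • e' q = γ l ρ * ∏ i, e (κ i) := by
    intro l ρ κ
    have h1 := hsp (γ l ρ) (Finset.mem_image.2 ⟨(l, ρ), Finset.mem_univ _, rfl⟩) κ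
    exact (Submodule.mem_span_range_iff_exists_fun ℝ).1 h1
  choose C hC using hC
  let J := Fin r × Fin (D + 1) × (Fin E × (Fin n → Fin (c + D * M)))
  let ι := Fin s × (Fin E × (Fin n → Fin M))
  have hcard : Fintype.card J < Fintype.card ι := by
    simp only [J, ι, Fintype.card_prod, Fintype.card_fin, Fintype.card_fun]
    calc r * ((D + 1) * (E * (c + D * M) ^ n)) = E * (r * (D + 1) * (c + D * M) ^ n) := by ring
      _ < E * (s * M ^ n) := Nat.mul_lt_mul_of_pos_left hlt hE
      _ = s * (E * M ^ n) := by ring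
  let G : J → (ι → ℂ) → ℂ := fun j v =>
    if 2 * (j.2.1 : ℕ) = D then 0 else
      ∑ l : Fin s, ∑ κ : Fin D → Fin E × (Fin n → Fin M), (C l j.1 κ j.2.2 : ℂ) *
        ∏ i : Fin D, (if (i : ℕ) < (j.2.1 : ℕ) then v (l, κ i) else
          (starRingEnd ℂ) (v (l, κ i)))
  let w : J → ℤ := fun j => if 2 * (j.2.1 : ℕ) = D then 1 else 2 * (j.2.1 : ℕ) - D
  have hGc : ∀ j, Continuous (G j) := by
    intro j
    simp only [G]
    by_cases h2 : 2 * (j.2.1 : ℕ) = D
    · simp only [if_pos h2]
      exact continuous_const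
    · simp only [if_neg h2]
      refine continuous_finsetSum _ fun l _ => continuous_finsetSum _ fun κ _ =>
        continuous_const.mul (continuous_finsetProd _ fun i _ => ?_)
      split_ifs
      · exact continuous_apply _
      · exact Complex.continuous_conj.comp (continuous_apply _)
  have hw : ∀ j, w j ≠ 0 := by
    intro j
    simp only [w]
    split_ifs <;> omega
  have hG : ∀ j v (u : ℂ), ‖u‖ = 1 → G j (fun k => u * v k) = u ^ w j * G j v := by
    intro j v u hu
    have hja : (j.2.1 : ℕ) ≤ D := Nat.lt_succ_iff.1 j.2.1.2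
    simp only [G, w]
    by_cases h2 : 2 * (j.2.1 : ℕ) = D
    · simp [if_pos h2]
    · simp only [if_neg h2]
      have hu0 : u ≠ 0 := by
        rintro rfl
        simp at hu
      have hcu : (starRingEnd ℂ) u = u⁻¹ := by
        rw [Complex.inv_def, Complex.normSq_eq_norm_sq, hu]
        simp
      rw [Finset.mul_sum]
      refine Finset.sum_congr rfl fun l _ => ?_
      rw [Finset.mul_sum]
      refine Finset.sum_congr rfl fun κ _ => ?_
      have h6 : ∏ i : Fin D, (if (i : ℕ) < (j.2.1 : ℕ) then u * v (l, κ i) else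
          (starRingEnd ℂ) (u * v (l, κ i))) =
          (∏ i : Fin D, (if (i : ℕ) < (j.2.1 : ℕ) then u else u⁻¹)) *
            ∏ i : Fin D, (if (i : ℕ) < (j.2.1 : ℕ) then v (l, κ i) else
              (starRingEnd ℂ) (v (l, κ i))) := by
        rw [← Finset.prod_mul_distrib]
        refine Finset.prod_congr rfl fun i _ => ?_
        split_ifs
        · rfl
        · rw [map_mul, hcu]
      rw [h6, ci_prod_ite D _ hja]
      have h7 : u ^ (j.2.1 : ℕ) * u⁻¹ ^ (D - (j.2.1 : ℕ)) = u ^ (2 * ((j.2.1 : ℕ) : ℤ) - D) := by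
        rw [inv_pow, ← zpow_natCast, ← zpow_natCast, ← zpow_neg, ← zpow_add₀ hu0]
        congr 1
        rw [Nat.cast_sub hja]
        ring
      rw [h7]
      ring

  obtain ⟨v, hv0, hv⟩ := circle_BU hcard G hGc w hw hG
  refine ⟨fun l => ∑ k, ciPhi K (v (l, k)) * algebraMap K (Cx K) (e k), ?_, ?_⟩
  · intro hw0
    apply hv0
    funext p
    obtain ⟨l, k⟩ := p
    have hl := congrFun hw0 l
    have hre := congrArg QuadraticAlgebra.re hl
    have him := congrArg QuadraticAlgebra.im hl
    have e1 : (∑ k, ciPhi K (v (l, k)) * algebraMap K (Cx K) (e k)).re =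
        ∑ k, (v (l, k)).re • e k := by
      rw [← QuadraticAlgebra.reₗ_apply, map_sum]
      refine Finset.sum_congr rfl fun k _ => ?_
      simp [ciPhi_re, Algebra.smul_def]
    have e2 : (∑ k, ciPhi K (v (l, k)) * algebraMap K (Cx K) (e k)).im =
        ∑ k, (v (l, k)).im • e k := by
      rw [← QuadraticAlgebra.imₗ_apply, map_sum]
      refine Finset.sum_congr rfl fun k _ => ?_
      simp [ciPhi_im, Algebra.smul_def]
    have h1 := Fintype.linearIndependent_iff.1 hli (fun k => (v (l, k)).re)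
      (by rw [← e1]; exact hre) k
    have h2 := Fintype.linearIndependent_iff.1 hli (fun k => (v (l, k)).im)
      (by rw [← e2]; exact him) k
    exact Complex.ext h1 h2
  · intro ρ a b hab hne
    have ha : a ≤ D := by omega
    have hb : b = D - a := by omega
    have h2a : ¬ 2 * a = D := by omega
    have hterm : ∀ l, γ l ρ • ((∑ k, ciPhi K (v (l, k)) * algebraMap K (Cx K) (e k)) ^ a *
        star (∑ k, ciPhi K (v (l, k)) * algebraMap K (Cx K) (e k)) ^ b) =
        ∑ q, ciPhi K (∑ κ : Fin D → Fin E × (Fin n → Fin M), (C l ρ κ q : ℂ) *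
          ∏ i : Fin D, (if (i : ℕ) < a then v (l, κ i) else (starRingEnd ℂ) (v (l, κ i)))) *
            algebraMap K (Cx K) (e' q) := by
      intro l
      rw [star_sum, hb, ci_expand D a ha]
      have h3 : ∀ κ : Fin D → Fin E × (Fin n → Fin M),
          ∏ i : Fin D, (if (i : ℕ) < a then
            ciPhi K (v (l, κ i)) * algebraMap K (Cx K) (e (κ i)) else
            star (ciPhi K (v (l, κ i)) * algebraMap K (Cx K) (e (κ i)))) =
          ciPhi K (∏ i : Fin D, (if (i : ℕ) < a then v (l, κ i) else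
            (starRingEnd ℂ) (v (l, κ i)))) * algebraMap K (Cx K) (∏ i, e (κ i)) := by
        intro κ
        rw [map_prod, map_prod, ← Finset.prod_mul_distrib]
        refine Finset.prod_congr rfl fun i _ => ?_
        split_ifs
        · rfl
        · rw [star_mul', ci_star_alg, ciPhi_conj]
      simp only [h3]
      rw [Finset.smul_sum]
      have h4 : ∀ κ : Fin D → Fin E × (Fin n → Fin M),
          γ l ρ • (ciPhi K (∏ i : Fin D, (if (i : ℕ) < a then v (l, κ i) else
            (starRingEnd ℂ) (v (l, κ i)))) * algebraMap K (Cx K) (∏ i, e (κ i))) =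
          ∑ q, ciPhi K ((C l ρ κ q : ℂ) * ∏ i : Fin D, (if (i : ℕ) < a then v (l, κ i) else
            (starRingEnd ℂ) (v (l, κ i)))) * algebraMap K (Cx K) (e' q) := by
        intro κ
        rw [Algebra.smul_def, mul_left_comm, ← map_mul, ← hC l ρ κ, map_sum, Finset.mul_sum]
        refine Finset.sum_congr rfl fun q _ => ?_
        rw [map_mul (ciPhi K), ciPhi_ofReal, Algebra.smul_def, map_mul]
        ring
      simp only [h4]
      rw [Finset.sum_comm]
      refine Finset.sum_congr rfl fun q _ => ?_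
      rw [map_sum, Finset.sum_mul]
    have hfin : ∑ l, γ l ρ • ((∑ k, ciPhi K (v (l, k)) * algebraMap K (Cx K) (e k)) ^ a *
        star (∑ k, ciPhi K (v (l, k)) * algebraMap K (Cx K) (e k)) ^ b) = 0 := by
      simp only [hterm]
      rw [Finset.sum_comm]
      refine Finset.sum_eq_zero fun q _ => ?_
      rw [← Finset.sum_mul, ← map_sum]
      have h5 := hv (ρ, ⟨a, by omega⟩, q)
      simp only [G, if_neg h2a] at h5
      rw [h5, map_zero, zero_mul]
    exact hfin

end LW
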