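import Mathlib

/-!
Definitions for the weak form of Lang's conjecture (MP_a75583_al): forms over nonreal fields of
finite transcendence degree over the real numbers, in many variables, have nontrivial zeros.
-/

namespace LW

/-- The value at `x` of the form of degree `d` with coefficients `c`. -/
def ev {K : Type*} [CommRing K] {ι : Type*} [Fintype ι] {d : ℕ} (c : (Fin d → ι) → K)
    (x : ι → K) : K :=
  ∑ τ : Fin d → ι, c τ * ∏ i, x (τ i)

/-- Every system of `r` forms of degrees between `1` and `d` in at least `N` variables has a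
common nontrivial zero. -/
def Iso (K : Type*) [Field K] (d r N : ℕ) : Prop :=
  ∀ m : ℕ, N ≤ m → ∀ (deg : Fin r → ℕ) (c : ∀ ρ, (Fin (deg ρ) → Fin m) → K),
    (∀ ρ, 1 ≤ deg ρ ∧ deg ρ ≤ d) → ∃ x : Fin m → K, x ≠ 0 ∧ ∀ ρ, ev (c ρ) x = 0

/-- Every diagonal system of `r` forms of degree `d` in `s` variables has a nontrivial zero. -/
def DiagIso (K : Type*) [Field K] (d r s : ℕ) : Prop :=
  ∀ γ : Fin s → Fin r → K, ∃ z : Fin s → K, z ≠ 0 ∧ ∀ ρ, ∑ l, γ l ρ * z l ^ d = 0

/-- The algebra `K[i]`, also if `K` contains a square root of `-1`. -/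
abbrev Cx (K : Type*) [CommRing K] := QuadraticAlgebra K (-1) 0

/-- The circle property of exponent `n`. -/
def Circ (K : Type*) [Field K] (n : ℕ) : Prop :=
  ∀ (D r s : ℕ) (γ : Fin s → Fin r → K), r * (D + 1) * D ^ n < s →
    ∃ w : Fin s → Cx K, w ≠ 0 ∧ ∀ ρ a b, a + b = D → a ≠ b →
      ∑ l, γ l ρ • (w l ^ a * star (w l) ^ b) = 0

/-- `-1` is a sum of `s` squares. -/
def Lev (K : Type*) [Field K] (s : ℕ) : Prop := ∃ α : Fin s → K, ∑ i, α i ^ 2 = -1

/-- Growth of exponent `n` (sections of large multiples). -/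
def Growth (K : Type*) [Field K] [Algebra ℝ K] (n : ℕ) : Prop :=
  ∀ (S : Finset K) (D : ℕ), ∃ E c : ℕ, 0 < E ∧ ∀ M : ℕ,
    ∃ (e : Fin E × (Fin n → Fin M) → K) (e' : Fin E × (Fin n → Fin (c + D * M)) → K),
      LinearIndependent ℝ e ∧ ∀ g ∈ S, ∀ κ : Fin D → Fin E × (Fin n → Fin M),
        g * ∏ i, e (κ i) ∈ Submodule.span ℝ (Set.range e')

end LW
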