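import Pool.Agent.Lib.LW.Blk
import Pool.Agent.Lib.LW.Br
import Pool.Agent.Lib.LW.Ci
import Pool.Agent.Lib.LW.Gr

/-!
Row M1: the main induction. Row V1: homogeneous polynomials. Final statement.
-/

namespace LW

/-- Row M1: strong induction on `d`. -/
theorem main (n s₀ d : ℕ) : ∀ r, ∃ N : ℕ, ∀ (K : Type) [Field K] [Algebra ℝ K],
    Circ K n → Lev K s₀ → Iso K d r N := by
  induction d using Nat.strong_induction_on with
  | _ d ih =>
    intro r
    rcases Nat.eq_zero_or_pos d with rfl | hd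
    · refine ⟨1, fun K _ _ _ _ m hm deg c hdeg => ⟨fun _ => 1, ?_, fun ρ => ?_⟩⟩
      · intro h
        exact one_ne_zero (congrFun h ⟨0, hm⟩)
      · have := hdeg ρ
        omega
    · -- diagonal systems of degree `d`
      have hdiag : ∃ s, ∀ (K : Type) [Field K] [Algebra ℝ K], Circ K n → Lev K s₀ →
          DiagIso K d r s := by
        rcases Nat.even_or_odd d with he | ho
        · obtain ⟨e, rfl⟩ := he
          have he1 : 1 ≤ e := by omega
          obtain ⟨N, hN⟩ := ih (2 * e - 1) (by omega) e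
          obtain ⟨R, hR⟩ := ih e (by omega) r
          obtain ⟨s, hs⟩ := even_diag n s₀ e r N R he1
          refine ⟨s, fun K _ _ hC hL => ?_⟩
          have := hs K hC hL (hN K hC hL) (hR K hC hL)
          rwa [two_mul] at this
        · refine ⟨r * (d + 1) * d ^ n + 1, fun K _ _ hC hL => ?_⟩
          haveI : CharZero K := charZero_of_injective_algebraMap (algebraMap ℝ K).injective
          exact odd_diag n d r _ hC ho (Nat.lt_succ_self _)
      obtain ⟨s, hs⟩ := hdiag
      choose Nd hNd using ih (d - 1) (by omega)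
      obtain ⟨N, hN⟩ := brauer d r s hd Nd
      exact ⟨N, fun K _ _ hC hL => hN K (fun r' => hNd r' K hC hL) (hs K hC hL)⟩

private theorem V1_mono {m d : ℕ} (σ : Fin m →₀ ℕ) (hσ : σ.degree = d) :
    ∃ τ : Fin d → Fin m, ∀ (K : Type*) [Field K] (x : Fin m → K),
      ∏ i, x (τ i) = ∏ j ∈ σ.support, x j ^ σ j := by
  have hlen : σ.toMultiset.toList.length = d := by
    rw [Multiset.length_toList, Finsupp.card_toMultiset, ← hσ]
    rfl
  subst hlen
  refine ⟨fun i => σ.toMultiset.toList.get i, fun K _ x => ?_⟩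
  have h1 : ∏ i : Fin σ.toMultiset.toList.length, x (σ.toMultiset.toList.get i) =
      (σ.toMultiset.toList.map x).prod := by
    simp
  rw [h1, ← Multiset.prod_coe, ← Multiset.map_coe, Multiset.coe_toList, Finsupp.toMultiset_map,
    Finsupp.prod_toMultiset]
  rw [Finsupp.prod_mapDomain_index (fun b => pow_zero b) (fun b m n => pow_add b m n)]
  rfl

/-- Row V1: a homogeneous polynomial of degree `d` is given by a coefficient tensor. -/
theorem exists_tensor {K : Type*} [Field K] {m d : ℕ} (f : MvPolynomial (Fin m) K)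
    (hf : f.IsHomogeneous d) : ∃ c : (Fin d → Fin m) → K, ∀ x, MvPolynomial.eval x f = ev c x := by
  classical
  have h1 : ∀ σ : f.support, ∃ τ : Fin d → Fin m, ∀ x : Fin m → K,
      ∏ i, x (τ i) = ∏ j ∈ σ.1.support, x j ^ σ.1 j := by
    intro σ
    have h2 : σ.1.degree = d := by
      rw [Finsupp.degree_eq_weight_one]
      exact hf (MvPolynomial.mem_support_iff.1 σ.2)
    obtain ⟨τ, h⟩ := V1_mono σ.1 h2
    exact ⟨τ, h K⟩
  choose T hT using h1
  refine ⟨fun τ => ∑ σ : f.support, if T σ = τ then f.coeff σ.1 else 0, fun x => ?_⟩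
  rw [ev, MvPolynomial.eval_eq, ← Finset.sum_coe_sort]
  simp_rw [Finset.sum_mul]
  rw [Finset.sum_comm]
  refine Finset.sum_congr rfl fun σ _ => ?_
  simp_rw [ite_mul, zero_mul]
  rw [Finset.sum_ite_eq, if_pos (Finset.mem_univ _), hT]

/-- The weak form of Lang's conjecture. -/
theorem weak_lang (n s d r : ℕ) : ∃ N : ℕ, ∀ (K : Type) [Field K] [Algebra ℝ K],
    Algebra.trdeg ℝ K = n → (∃ α : Fin s → K, ∑ i, α i ^ 2 = -1) →
    ∀ m : ℕ, N ≤ m → ∀ (deg : Fin r → ℕ) (f : Fin r → MvPolynomial (Fin m) K),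
      (∀ ρ, 1 ≤ deg ρ ∧ deg ρ ≤ d ∧ (f ρ).IsHomogeneous (deg ρ)) →
      ∃ x : Fin m → K, x ≠ 0 ∧ ∀ ρ, MvPolynomial.eval x (f ρ) = 0 := by
  obtain ⟨N, hN⟩ := main n s d r
  refine ⟨N, fun K _ _ hK hs m hm deg f hf => ?_⟩
  choose c hc using fun ρ => exists_tensor (f ρ) (hf ρ).2.2
  obtain ⟨x, hx, h⟩ := hN K (circ_of_growth K n (growth_of_trdeg K n hK)) hs m hm deg c
    (fun ρ => ⟨(hf ρ).1, (hf ρ).2.1⟩)
  exact ⟨x, hx, fun ρ => by rw [hc ρ x]; exact h ρ⟩

end LW
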