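import Pool.Agent.Lib.LW.Defs

/-!
Row O1: elementary consequences of the circle property.
-/

namespace LW

/-- Row O1a: in a field where `-1` is a sum of `s` squares every element is a sum of `s + 1`
squares: `a = ((a + 1) / 2)² + ∑ (α_i (a - 1) / 2)²`. -/
theorem sum_sq_univ {K : Type*} [Field K] [CharZero K] {s : ℕ} (h : Lev K s) (a : K) :
    ∃ y : Fin (s + 1) → K, ∑ i, y i ^ 2 = a := by
  obtain ⟨α, hα⟩ := h
  refine ⟨Fin.cons ((a + 1) / 2) fun i => α i * ((a - 1) / 2), ?_⟩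
  rw [Fin.sum_univ_succ]
  simp only [Fin.cons_zero, Fin.cons_succ, mul_pow]
  rw [← Finset.sum_mul, hα]
  have h2 : (2 : K) ≠ 0 := two_ne_zero
  field_simp
  ring

private theorem O1_lin {K : Type*} [Field K] {s : ℕ} (D : ℕ) (γ : Fin s → K)
    (w : Fin s → Cx K)
    (h : ∀ a b, a + b = D → ∑ l, γ l • (w l ^ a * star (w l) ^ b) = 0) (c : Cx K) :
    ∑ l, γ l • (w l + c * star (w l)) ^ D = 0 := by
  have h1 : ∀ l, γ l • (w l + c * star (w l)) ^ D = ∑ m ∈ Finset.range (D + 1),
      (c ^ (D - m) * (D.choose m : Cx K)) * (γ l • (w l ^ m * star (w l) ^ (D - m))) := by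
    intro l
    rw [add_pow, Finset.smul_sum]
    refine Finset.sum_congr rfl fun m _ => ?_
    rw [mul_pow, mul_smul_comm]
    congr 1
    ring
  rw [Finset.sum_congr rfl fun l _ => h1 l, Finset.sum_comm]
  refine Finset.sum_eq_zero fun m hm => ?_
  rw [← Finset.mul_sum, h m (D - m) (by have := Finset.mem_range.1 hm; omega), mul_zero]

private theorem O1_C {K : Type*} [Field K] {s : ℕ} (D : ℕ) (γ x : Fin s → K) (u v : Cx K)
    (huv : u * v = 1) (h : ∑ l, γ l • (algebraMap K (Cx K) (x l) * u) ^ D = 0) :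
    ∑ l, γ l * x l ^ D = 0 := by
  have h1 : ∀ l, γ l • (algebraMap K (Cx K) (x l) * u) ^ D =
      algebraMap K (Cx K) (γ l * x l ^ D) * u ^ D := by
    intro l
    rw [Algebra.smul_def, mul_pow, map_mul, map_pow, mul_assoc]
  rw [Finset.sum_congr rfl fun l _ => h1 l, ← Finset.sum_mul, ← map_sum] at h
  have h2 := congrArg (fun z => z * v ^ D) h
  simp only [zero_mul] at h2
  rw [mul_assoc, ← mul_pow, huv, one_pow, mul_one] at h2
  have h3 := congrArg QuadraticAlgebra.re h2
  exact h3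

/-- Row O1b: if all moments of `w` of degree `D` vanish, then the real parts and the imaginary
parts satisfy `∑ γ l (re w l)^D = 0`, `∑ γ l (im w l)^D = 0`
(`2 re w = w + star w`, `2 im w ω = w - star w`, binomial theorem). -/
theorem re_im_of_moments {K : Type*} [Field K] [CharZero K] {s : ℕ} (D : ℕ) (γ : Fin s → K)
    (w : Fin s → Cx K)
    (h : ∀ a b, a + b = D → ∑ l, γ l • (w l ^ a * star (w l) ^ b) = 0) :
    ∑ l, γ l * (w l).re ^ D = 0 ∧ ∑ l, γ l * (w l).im ^ D = 0 := by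
  have h2 : (2 : K) ^ D ≠ 0 := pow_ne_zero _ two_ne_zero
  constructor
  · have h3 := O1_lin D γ w h 1
    have h4 : ∀ l, w l + 1 * star (w l) = algebraMap K (Cx K) (2 * (w l).re) * 1 := by
      intro l
      rw [one_mul, mul_one]
      ext
      · simp [QuadraticAlgebra.algebraMap_eq]; ring
      · simp [QuadraticAlgebra.algebraMap_eq]
    rw [Finset.sum_congr rfl fun l _ => by rw [h4 l]] at h3
    have h5 := O1_C D γ (fun l => 2 * (w l).re) 1 1 (by rw [mul_one]) h3
    have h6 : ∑ l, γ l * (2 * (w l).re) ^ D = 2 ^ D * ∑ l, γ l * (w l).re ^ D := by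
      rw [Finset.mul_sum]
      exact Finset.sum_congr rfl fun l _ => by rw [mul_pow]; ring
    rw [h6] at h5
    exact (mul_eq_zero.1 h5).resolve_left h2
  · have h3 := O1_lin D γ w h (-1)
    have h4 : ∀ l, w l + (-1) * star (w l) =
        algebraMap K (Cx K) (2 * (w l).im) * ⟨0, 1⟩ := by
      intro l
      ext
      · simp [QuadraticAlgebra.algebraMap_eq]
      · simp [QuadraticAlgebra.algebraMap_eq]; ring
    rw [Finset.sum_congr rfl fun l _ => by rw [h4 l]] at h3
    have h5 := O1_C D γ (fun l => 2 * (w l).im) ⟨0, 1⟩ ⟨0, -1⟩ (by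
      ext
      · simp only [QuadraticAlgebra.re_mul, QuadraticAlgebra.re_one]; ring
      · simp only [QuadraticAlgebra.im_mul, QuadraticAlgebra.im_one]; ring) h3
    have h6 : ∑ l, γ l * (2 * (w l).im) ^ D = 2 ^ D * ∑ l, γ l * (w l).im ^ D := by
      rw [Finset.mul_sum]
      exact Finset.sum_congr rfl fun l _ => by rw [mul_pow]; ring
    rw [h6] at h5
    exact (mul_eq_zero.1 h5).resolve_left h2

/-- Row O1c: odd degrees. -/
theorem odd_diag {K : Type*} [Field K] [CharZero K] (n d r s : ℕ) (hC : Circ K n) (hd : Odd d)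
    (hs : r * (d + 1) * d ^ n < s) : DiagIso K d r s := by
  intro γ
  obtain ⟨w, hw, h⟩ := hC d r s γ hs
  have h1 : ∀ ρ, ∑ l, γ l ρ * (w l).re ^ d = 0 ∧ ∑ l, γ l ρ * (w l).im ^ d = 0 := by
    intro ρ
    refine re_im_of_moments d (fun l => γ l ρ) w fun a b hab => h ρ a b hab ?_
    rintro rfl
    obtain ⟨k, hk⟩ := hd
    omega
  by_cases h2 : (fun l => (w l).re) = 0
  · refine ⟨fun l => (w l).im, fun h3 => hw ?_, fun ρ => (h1 ρ).2⟩
    funext l
    exact QuadraticAlgebra.ext (congrFun h2 l) (congrFun h3 l)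
  · exact ⟨fun l => (w l).re, h2, fun ρ => (h1 ρ).1⟩

end LW
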